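import Pool.Agent.LibKB1a.G1a

/-!
[K.B1a G1] Every nonzero top form is `g · da ∧ db`.
SKETCH: the derivations have the basis `∂/∂a, ∂/∂b` (`ders_decomp`, `ders_ext`). A top form is an
alternating form on this 2-dimensional space, so it is determined by its value `g` on
`(∂/∂a, ∂/∂b)` (`AlternatingMap.eq_smul_basis_det`, as in LibGMM.CanOrd.exists_coord, or
`Module.Basis.ext_alternating`); mind the index type `Fin (dimK F)`, `dimK F = 2` (obtain the two
elements; `Matrix.det` over `Fin (dimK F)`: generalise `dimK F = n`, `subst`, `Matrix.det_fin_two`).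
`det_crd`: the matrix `(D i (x j))` is the product of `(D i (crd a b k))` and
`(∂_k (x j))` (`ders_decomp`).
-/

set_option autoImplicit false

open Pool.Agent.LibGMM Pool.Agent.LibK

namespace Pool.Agent.LibKB1a

variable {F : Type} [Field F] [Algebra ℂ F]

/-- The coordinates `(a, b)` as a family indexed by `Fin (dimK F)`. -/
noncomputable def crd (a b : F) (i : Fin (dimK F)) : F := if i.val = 0 then a else b

theorem sum_fin_two {M : Type*} [AddCommMonoid M] {n : ℕ} (hn : n = 2) (f : ℕ → M) :
    ∑ i : Fin n, f i.val = f 0 + f 1 := by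
  subst hn
  rw [Fin.sum_univ_two]
  rfl

/-- An alternating map of a linear substitution. -/
theorem altSubst {V : Type*} [AddCommGroup V] [Module F V] {n : ℕ}
    (lam : V [⋀^Fin n]→ₗ[F] F) (w z : Fin n → V) (A : Fin n → Fin n → F)
    (h : ∀ i, z i = ∑ j, A i j • w j) : lam z = Matrix.det (Matrix.of A) * lam w := by
  let L : (Fin n → F) →ₗ[F] V := Fintype.linearCombination F w
  have h1 := AlternatingMap.eq_smul_basis_det (Pi.basisFun F (Fin n)) (lam.compLinearMap L)
  have h2 := congrArg (fun f => f A) h1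
  simp only [AlternatingMap.compLinearMap_apply, AlternatingMap.smul_apply] at h2
  have h3 : (fun i => L (A i)) = z := by
    funext i
    rw [h i]
    simp [L, Fintype.linearCombination_apply]
  have h4 : (fun i => L ((Pi.basisFun F (Fin n)) i)) = w := by
    funext i
    simp [L, Fintype.linearCombination_apply, Pi.single_apply]
  rw [h3] at h2
  rw [h2, Pi.basisFun_det]
  have h5 : (lam fun i => L ((Pi.basisFun F (Fin n)) i)) = lam w := by rw [h4]
  rw [h5, smul_eq_mul, mul_comm]
  rfl

theorem det_fin_two' {n : ℕ} (hn : n = 2) (M : Matrix (Fin n) (Fin n) F) (i0 i1 : Fin n)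
    (h0 : i0.val = 0) (h1 : i1.val = 1) : M.det = M i0 i0 * M i1 i1 - M i0 i1 * M i1 i0 := by
  subst hn
  obtain rfl : i0 = 0 := Fin.ext h0
  obtain rfl : i1 = 1 := Fin.ext h1
  exact Matrix.det_fin_two M

/-- The derivations `∂/∂a`, `∂/∂b` as a family indexed by `Fin (dimK F)`. -/
noncomputable def derFam (D1 D2 : Derivation ℂ F F) (i : Fin (dimK F)) : Derivation ℂ F F :=
  if i.val = 0 then D1 else D2

theorem der_eq_sum {a b : F} (h : IsPlane a b) {D1 D2 : Derivation ℂ F F} (hD : IsDers a b D1 D2)
    (D : Derivation ℂ F F) : D = ∑ k, D (crd a b k) • derFam D1 D2 k := by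
  have h1 := sum_fin_two (dimK_eq_two h)
    (fun m => D (if m = 0 then a else b) • (if m = 0 then D1 else D2))
  have h2 : (∑ k, D (crd a b k) • derFam D1 D2 k) = D a • D1 + D b • D2 := by
    have h3 : (∑ k, D (crd a b k) • derFam D1 D2 k) = ∑ i : Fin (dimK F),
        (fun m => D (if m = 0 then a else b) • (if m = 0 then D1 else D2)) i.val := rfl
    rw [h3, h1]
    simp
  rw [h2]
  ext u
  rw [Derivation.add_apply, Derivation.smul_apply, Derivation.smul_apply, smul_eq_mul, smul_eq_mul]
  exact ders_decomp h hD D u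

/-- Every nonzero top form is `g da ∧ db`. -/
theorem exists_form {a b : F} (h : IsPlane a b) {ω : TopForm F} (hω : ω ≠ 0) :
    ∃ g : F, g ≠ 0 ∧ ∀ D : Fin (dimK F) → Derivation ℂ F F,
      ω D = g * Matrix.det fun i j => D i (crd a b j) := by
  obtain ⟨D1, D2, hD⟩ := exists_isDers h
  have key : ∀ D : Fin (dimK F) → Derivation ℂ F F,
      ω D = ω (derFam D1 D2) * Matrix.det fun i j => D i (crd a b j) := by
    intro D
    have h1 := altSubst ω (derFam D1 D2) D (fun i k => D i (crd a b k))
      (fun i => der_eq_sum h hD (D i))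
    rw [h1, mul_comm]
    rfl
  refine ⟨ω (derFam D1 D2), ?_, key⟩
  intro h0
  apply hω
  apply AlternatingMap.ext
  intro D
  rw [key D, h0, zero_mul]
  rfl

/-- `du ∧ dw = jac(u, w) da ∧ db`. -/
theorem det_crd {a b : F} (h : IsPlane a b) {D1 D2 : Derivation ℂ F F} (hD : IsDers a b D1 D2)
    (x : Fin (dimK F) → F) (i0 i1 : Fin (dimK F)) (h0 : i0.val = 0) (h1 : i1.val = 1)
    (D : Fin (dimK F) → Derivation ℂ F F) :
    (Matrix.det fun i j => D i (x j)) =
      jac D1 D2 (x i0) (x i1) * Matrix.det fun i j => D i (crd a b j) := by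
  have h2 := dimK_eq_two h
  rw [det_fin_two' h2 (fun i j => D i (x j)) i0 i1 h0 h1,
    det_fin_two' h2 (fun i j => D i (crd a b j)) i0 i1 h0 h1]
  have ha : crd a b i0 = a := by simp [crd, h0]
  have hb : crd a b i1 = b := by simp [crd, h1]
  simp only [ha, hb]
  rw [ders_decomp h hD (D i0) (x i0), ders_decomp h hD (D i0) (x i1),
    ders_decomp h hD (D i1) (x i0), ders_decomp h hD (D i1) (x i1)]
  unfold jac
  ring

end Pool.Agent.LibKB1a
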