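import Pool.Agent.LibKB1a.Defs

/-!
[K.B1a B1] A discrete valuation ring is a maximal proper subring.
SKETCH: if `w ∈ W`, `v.ord w < 0`, take `t` with `v.ord t = 1`: `t⁻¹ = w * (t⁻¹ * w⁻¹)` and
`0 ≤ v.ord (t⁻¹ * w⁻¹)`, so `t⁻¹ ∈ W`, so all powers, and every `f` is `t^(-n) * f'` with `f'` in the
ring. (`DVal.ext_ring`, `DVal.mem_toVal` of LibGMM.Api.)
-/

set_option autoImplicit false

open Pool.Agent.LibGMM Pool.Agent.LibK

namespace Pool.Agent.LibKB1a

variable {F : Type} [Field F] [Algebra ℂ F]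

theorem eq_or_top_of_toVal_le {v : DVal F} {W : ValuationSubring F} (h : v.toVal ≤ W) :
    W = v.toVal ∨ W = ⊤ := by
  by_cases h0 : ∀ w ∈ W, 0 ≤ v.ord w
  · left
    apply le_antisymm _ h
    intro w hw
    exact h0 w hw
  right
  push Not at h0
  obtain ⟨w, hw, hw0⟩ := h0
  have hwne : w ≠ 0 := by
    rintro rfl
    rw [v.ord_zero'] at hw0
    exact lt_irrefl _ hw0
  rw [eq_top_iff]
  intro f _
  by_cases hf : f = 0
  · rw [hf]
    exact zero_mem W
  -- a large power of `w` divides `f`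
  obtain ⟨n, hn⟩ : ∃ n : ℕ, - v.ord f ≤ n := ⟨(- v.ord f).toNat, Int.self_le_toNat _⟩
  have h1 : f * (w ^ n)⁻¹ ∈ v.toVal := by
    rw [DVal.mem_toVal, v.ord_mul' hf (inv_ne_zero (pow_ne_zero n hwne)), v.ord_inv, v.ord_pow]
    have h3 : (n : ℤ) * v.ord w ≤ (n : ℤ) * (-1) :=
      mul_le_mul_of_nonneg_left (by omega) (Int.natCast_nonneg n)
    linarith
  have h2 := mul_mem (h h1) (pow_mem hw n)
  rwa [mul_assoc, inv_mul_cancel₀ (pow_ne_zero n hwne), mul_one] at h2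

theorem toVal_ne_top (v : DVal F) : v.toVal ≠ ⊤ := by
  intro h
  obtain ⟨t, ht⟩ := v.exists_ord_one
  have h1 : t⁻¹ ∈ v.toVal := by
    rw [h]
    trivial
  rw [DVal.mem_toVal, v.ord_inv, ht] at h1
  norm_num at h1

theorem toVal_injective {v w : DVal F} (h : v.toVal ≤ w.toVal) : v = w :=
  DVal.ext_ring h

end Pool.Agent.LibKB1a
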