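import Pool.Agent.LibKB1a.Defs

/-!
[K.B1a A3] `ℂ[a, b]` is a polynomial ring with fraction field `F`.
SKETCH: `AlgebraicIndependent` is injectivity of `aeval`. For `exists_div`: the set of quotients is an
intermediate field containing `a`, `b` (or `IntermediateField.mem_adjoin_iff` / `mem_adjoin_range_iff`).
-/

set_option autoImplicit false

open Pool.Agent.LibGMM Pool.Agent.LibK

namespace Pool.Agent.LibKB1a

variable {F : Type} [Field F] [Algebra ℂ F]

theorem ev_injective {a b : F} (h : IsPlane a b) : Function.Injective (ev a b) :=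
  h.1

theorem ev_ne_zero {a b : F} (h : IsPlane a b) {P : Pol} (hP : P ≠ 0) : ev a b P ≠ 0 := by
  intro h0
  apply hP
  apply ev_injective h
  rw [h0, map_zero]

theorem exists_div {a b : F} (h : IsPlane a b) (f : F) :
    ∃ P Q : Pol, Q ≠ 0 ∧ f = ev a b P / ev a b Q := by
  have hr : Set.range ![a, b] = {a, b} := by
    simp [Matrix.range_cons, Matrix.range_empty, Set.pair_comm]
  have hf : f ∈ IntermediateField.adjoin ℂ (Set.range ![a, b]) := by
    rw [hr, h.2]
    exact IntermediateField.mem_top
  rw [IntermediateField.mem_adjoin_range_iff] at hf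
  obtain ⟨P, Q, hPQ⟩ := hf
  by_cases hQ : Q = 0
  · refine ⟨0, 1, one_ne_zero, ?_⟩
    rw [hPQ, hQ]
    simp
  · exact ⟨P, Q, hQ, hPQ⟩

end Pool.Agent.LibKB1a
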