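import Pool.Agent.LibKB1a.A2
import Pool.Agent.LibKB1a.A3

/-!
[K.B1a F1a] The derivations `∂/∂a`, `∂/∂b`.
The module of Kähler differentials of `F` is the base change of the one of the polynomial ring, so
it has the basis `da, db`; the derivations are the coordinates of the differential. Uniqueness
`ders_ext`: a derivation vanishing on `a` and `b` vanishes on `Aff a b` and so on fractions
(`Derivation.leibniz_div`).
-/

set_option autoImplicit false

open Pool.Agent.LibGMM Pool.Agent.LibK
open scoped TensorProduct KaehlerDifferential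

namespace Pool.Agent.LibKB1a

variable {F : Type} [Field F] [Algebra ℂ F]

/-- `D1 = ∂/∂a`, `D2 = ∂/∂b`. -/
structure IsDers (a b : F) (D1 D2 : Derivation ℂ F F) : Prop where
  h11 : D1 a = 1
  h12 : D1 b = 0
  h21 : D2 a = 0
  h22 : D2 b = 1

/-- `da, db` is a basis of the Kähler differentials. -/
theorem exists_basis_kaehler {a b : F} (h : IsPlane a b) :
    ∃ B : Module.Basis (Fin 2) F (Ω[F⁄ℂ]), ∀ i, B i = KaehlerDifferential.D ℂ F (![a, b] i) := by
  let _ : Algebra Pol F := (ev a b).toRingHom.toAlgebra
  have halg : ∀ P : Pol, algebraMap Pol F P = ev a b P := fun P => rfl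
  have : IsScalarTower ℂ Pol F := IsScalarTower.of_algebraMap_eq fun c => by
    rw [halg, MvPolynomial.algebraMap_eq, ev_C]
  have hloc : IsLocalization (nonZeroDivisors Pol) F := by
    rw [isLocalization_iff]
    refine ⟨?_, ?_, ?_⟩
    · rintro ⟨Q, hQ⟩
      exact (ev_ne_zero h (nonZeroDivisors.ne_zero hQ)).isUnit
    · intro f
      obtain ⟨P, Q, hQ, hf⟩ := exists_div h f
      refine ⟨(P, ⟨Q, mem_nonZeroDivisors_of_ne_zero hQ⟩), ?_⟩
      rw [halg, halg, hf, div_mul_cancel₀]
      exact ev_ne_zero h hQ
    · intro P Q hPQ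
      rw [halg, halg] at hPQ
      exact ⟨1, by rw [ev_injective h hPQ]⟩
  have : Algebra.FormallyEtale Pol F := Algebra.FormallyEtale.of_isLocalization (nonZeroDivisors Pol)
  refine ⟨((KaehlerDifferential.mvPolynomialBasis ℂ (Fin 2)).baseChange F).map
    (KaehlerDifferential.tensorKaehlerEquivOfFormallyEtale ℂ Pol F), fun i => ?_⟩
  rw [Module.Basis.map_apply, Module.Basis.baseChange_apply,
    KaehlerDifferential.mvPolynomialBasis_apply,
    KaehlerDifferential.tensorKaehlerEquivOfFormallyEtale_apply,
    KaehlerDifferential.mapBaseChange_tmul, one_smul, KaehlerDifferential.map_D, halg]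
  congr 1
  rw [ev, MvPolynomial.aeval_X]

theorem exists_isDers {a b : F} (h : IsPlane a b) : ∃ D1 D2, IsDers a b D1 D2 := by
  obtain ⟨B, hB⟩ := exists_basis_kaehler h
  have ha : KaehlerDifferential.D ℂ F a = B 0 := (hB 0).symm
  have hb : KaehlerDifferential.D ℂ F b = B 1 := (hB 1).symm
  refine ⟨(B.coord 0).compDer (KaehlerDifferential.D ℂ F),
    (B.coord 1).compDer (KaehlerDifferential.D ℂ F), ?_, ?_, ?_, ?_⟩
  · show B.coord 0 (KaehlerDifferential.D ℂ F a) = 1
    rw [ha]; simp
  · show B.coord 0 (KaehlerDifferential.D ℂ F b) = 0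
    rw [hb]; simp
  · show B.coord 1 (KaehlerDifferential.D ℂ F a) = 0
    rw [ha]; simp
  · show B.coord 1 (KaehlerDifferential.D ℂ F b) = 1
    rw [hb]; simp

theorem ders_ext {a b : F} (h : IsPlane a b) {D D' : Derivation ℂ F F} (ha : D a = D' a)
    (hb : D b = D' b) : D = D' := by
  have key : ∀ P : Pol, D (ev a b P) = D' (ev a b P) := by
    intro P
    induction P using MvPolynomial.induction_on with
    | C c => rw [ev_C, Derivation.map_algebraMap, Derivation.map_algebraMap]
    | add P Q hP hQ => rw [map_add, map_add, map_add, hP, hQ]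
    | mul_X P i hP =>
      have hi : D (ev a b (MvPolynomial.X i)) = D' (ev a b (MvPolynomial.X i)) := by
        fin_cases i
        · show D (ev a b (MvPolynomial.X 0)) = D' (ev a b (MvPolynomial.X 0))
          rw [ev_X0]; exact ha
        · show D (ev a b (MvPolynomial.X 1)) = D' (ev a b (MvPolynomial.X 1))
          rw [ev_X1]; exact hb
      rw [map_mul, Derivation.leibniz, Derivation.leibniz, hP, hi]
  ext f
  obtain ⟨P, Q, hQ, rfl⟩ := exists_div h f
  rw [Derivation.leibniz_div, Derivation.leibniz_div, key, key]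

end Pool.Agent.LibKB1a
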