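import Pool.Agent.LibKB1a.A3

/-!
[K.B1a C1] Basic facts on the local ring.
SKETCH: `Oloc_swap`: rename the variables (`MvPolynomial.rename (Equiv.swap 0 1)`);
`ev b a P = ev a b (rename _ P)`. `exists_residue`: `φ (P / Q) = P(0) / Q(0)` (well defined by
injectivity of `ev`: `P Q' = P' Q`). `f⁻¹ ∈ Oloc` iff `P(0) ≠ 0` when `f = P / Q`: if
`Q / P = P' / Q'` then `Q Q' = P P'`, take constant terms.
-/

set_option autoImplicit false

open Pool.Agent.LibGMM Pool.Agent.LibK

namespace Pool.Agent.LibKB1a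

variable {F : Type} [Field F] [Algebra ℂ F]

private theorem C1_ev_swap (a b : F) (P : Pol) :
    ev b a P = ev a b (MvPolynomial.rename (Equiv.swap (0 : Fin 2) 1) P) := by
  unfold ev
  rw [MvPolynomial.aeval_rename]
  congr 2
  funext i
  fin_cases i <;> simp

private theorem C1_Oloc_swap_le (a b : F) {f : F} (hf : f ∈ Oloc b a) : f ∈ Oloc a b := by
  obtain ⟨P, Q, hQ, h⟩ := hf
  refine ⟨MvPolynomial.rename (Equiv.swap (0 : Fin 2) 1) P,
    MvPolynomial.rename (Equiv.swap (0 : Fin 2) 1) Q, ?_, ?_⟩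
  · rw [MvPolynomial.constantCoeff_rename]
    exact hQ
  · rw [← C1_ev_swap, ← C1_ev_swap]
    exact h

private theorem C1_Aff_swap_le (a b : F) {f : F} (hf : f ∈ Aff b a) : f ∈ Aff a b := by
  obtain ⟨P, h⟩ := mem_Aff.1 hf
  exact mem_Aff.2 ⟨MvPolynomial.rename (Equiv.swap (0 : Fin 2) 1) P, by rw [← C1_ev_swap]; exact h⟩

private theorem C1_ne {P : Pol} (hP : MvPolynomial.constantCoeff P ≠ 0) : P ≠ 0 := by
  rintro rfl
  exact hP (map_zero _)

private theorem C1_wd {a b : F} (h : IsPlane a b) {P Q P' Q' : Pol} {f : F}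
    (hQ : MvPolynomial.constantCoeff Q ≠ 0) (hQ' : MvPolynomial.constantCoeff Q' ≠ 0)
    (h1 : f * ev a b Q = ev a b P) (h2 : f * ev a b Q' = ev a b P') :
    MvPolynomial.constantCoeff P / MvPolynomial.constantCoeff Q =
      MvPolynomial.constantCoeff P' / MvPolynomial.constantCoeff Q' := by
  have h3 : P * Q' = P' * Q := by
    apply ev_injective h
    rw [map_mul, map_mul, ← h1, ← h2]
    ring
  have h4 := congrArg MvPolynomial.constantCoeff h3
  rw [map_mul, map_mul] at h4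
  rw [div_eq_div_iff hQ hQ', h4]

theorem Aff_swap (a b : F) : Aff b a = Aff a b := by
  apply le_antisymm
  · intro f hf; exact C1_Aff_swap_le a b hf
  · intro f hf; exact C1_Aff_swap_le b a hf

theorem Oloc_swap (a b : F) : Oloc b a = Oloc a b := by
  apply le_antisymm
  · intro f hf; exact C1_Oloc_swap_le a b hf
  · intro f hf; exact C1_Oloc_swap_le b a hf

theorem Aff_le_Oloc (a b : F) : Aff a b ≤ Oloc a b := by
  intro f hf
  obtain ⟨P, h⟩ := mem_Aff.1 hf
  exact mem_Oloc.2 ⟨P, 1, by simp, by rw [map_one, mul_one, h]⟩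

theorem mem_Oloc_iff {a b : F} (h : IsPlane a b) {f : F} : f ∈ Oloc a b ↔
    ∃ P Q : Pol, MvPolynomial.constantCoeff Q ≠ 0 ∧ f = ev a b P / ev a b Q := by
  rw [mem_Oloc]
  constructor
  · rintro ⟨P, Q, hQ, hf⟩
    refine ⟨P, Q, hQ, ?_⟩
    rw [eq_div_iff (ev_ne_zero h (C1_ne hQ)), hf]
  · rintro ⟨P, Q, hQ, hf⟩
    refine ⟨P, Q, hQ, ?_⟩
    rw [hf, div_mul_cancel₀ _ (ev_ne_zero h (C1_ne hQ))]

theorem inv_ev_div_mem_iff {a b : F} (h : IsPlane a b) {P Q : Pol} (hP : P ≠ 0)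
    (hQ : MvPolynomial.constantCoeff Q ≠ 0) :
    (ev a b P / ev a b Q)⁻¹ ∈ Oloc a b ↔ MvPolynomial.constantCoeff P ≠ 0 := by
  have hP' := ev_ne_zero h hP
  have hQ' := ev_ne_zero h (C1_ne hQ)
  rw [inv_div]
  constructor
  · intro hm
    obtain ⟨P', Q', hQ2, hf⟩ := mem_Oloc.1 hm
    have h3 : Q * Q' = P * P' := by
      apply ev_injective h
      rw [map_mul, map_mul, ← hf]
      field_simp
    have h4 := congrArg MvPolynomial.constantCoeff h3
    rw [map_mul, map_mul] at h4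
    intro h5
    rw [h5, zero_mul] at h4
    exact mul_ne_zero hQ hQ2 h4
  · intro hcc
    exact mem_Oloc.2 ⟨Q, P, hcc, div_mul_cancel₀ _ hP'⟩

/-- The residue map of the local ring: its kernel is the set of nonunits. -/
theorem exists_residue {a b : F} (h : IsPlane a b) : ∃ φ : Oloc a b →ₐ[ℂ] ℂ,
    (∀ f : Oloc a b, φ f = 0 ↔ (f : F) = 0 ∨ (f : F)⁻¹ ∉ Oloc a b) ∧
      ∀ (P Q : Pol) (f : Oloc a b), MvPolynomial.constantCoeff Q ≠ 0 →
        (f : F) = ev a b P / ev a b Q →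
          φ f = MvPolynomial.constantCoeff P / MvPolynomial.constantCoeff Q := by
  classical
  have hch : ∀ f : Oloc a b, ∃ PQ : Pol × Pol, MvPolynomial.constantCoeff PQ.2 ≠ 0 ∧
      (f : F) * ev a b PQ.2 = ev a b PQ.1 := by
    intro f
    obtain ⟨P, Q, hQ, hf⟩ := mem_Oloc.1 f.2
    exact ⟨(P, Q), hQ, hf⟩
  choose pq hpq1 hpq2 using hch
  set t : Oloc a b → ℂ := fun f =>
    MvPolynomial.constantCoeff (pq f).1 / MvPolynomial.constantCoeff (pq f).2 with ht
  have spec : ∀ (f : Oloc a b) (P Q : Pol), MvPolynomial.constantCoeff Q ≠ 0 →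
      (f : F) * ev a b Q = ev a b P →
      t f = MvPolynomial.constantCoeff P / MvPolynomial.constantCoeff Q := by
    intro f P Q hQ hf
    exact C1_wd h (hpq1 f) hQ (hpq2 f) hf
  have hadd : ∀ f g : Oloc a b, t (f + g) = t f + t g := by
    intro f g
    rw [spec (f + g) ((pq f).1 * (pq g).2 + (pq g).1 * (pq f).2) ((pq f).2 * (pq g).2) (by
      rw [map_mul]; exact mul_ne_zero (hpq1 f) (hpq1 g)) (by
      rw [map_mul, map_add, map_mul, map_mul, ← hpq2 f, ← hpq2 g]
      push_cast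
      ring)]
    have h1 := hpq1 f
    have h2 := hpq1 g
    simp only [ht, map_add, map_mul]
    field_simp
  have hmul : ∀ f g : Oloc a b, t (f * g) = t f * t g := by
    intro f g
    rw [spec (f * g) ((pq f).1 * (pq g).1) ((pq f).2 * (pq g).2) (by
      rw [map_mul]; exact mul_ne_zero (hpq1 f) (hpq1 g)) (by
      rw [map_mul, map_mul, ← hpq2 f, ← hpq2 g]
      push_cast
      ring)]
    have h1 := hpq1 f
    have h2 := hpq1 g
    simp only [ht, map_mul]
    field_simp
  have hconst : ∀ c : ℂ, t (algebraMap ℂ (Oloc a b) c) = c := by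
    intro c
    rw [spec (algebraMap ℂ (Oloc a b) c) (MvPolynomial.C c) 1 (by simp) (by
      rw [map_one, mul_one, ev_C]; rfl)]
    simp
  have hone : t 1 = 1 := by
    have := hconst 1
    rwa [map_one] at this
  have hzero : t 0 = 0 := by
    have := hconst 0
    rwa [map_zero] at this
  let φ : Oloc a b →ₐ[ℂ] ℂ :=
    { toFun := t
      map_one' := hone
      map_mul' := hmul
      map_zero' := hzero
      map_add' := hadd
      commutes' := hconst }
  have hφ : ∀ f, φ f = t f := fun f => rfl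
  have hsecond : ∀ (P Q : Pol) (f : Oloc a b), MvPolynomial.constantCoeff Q ≠ 0 →
        (f : F) = ev a b P / ev a b Q →
          φ f = MvPolynomial.constantCoeff P / MvPolynomial.constantCoeff Q := by
    intro P Q f hQ hf
    rw [hφ]
    apply spec f P Q hQ
    rw [hf, div_mul_cancel₀ _ (ev_ne_zero h (C1_ne hQ))]
  refine ⟨φ, fun f => ?_, hsecond⟩
  obtain ⟨P, Q, hQ, hf⟩ := (mem_Oloc_iff h).1 f.2
  rw [hsecond P Q f hQ hf]
  by_cases hP : P = 0
  · have hf0 : (f : F) = 0 := by rw [hf, hP, map_zero, zero_div]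
    rw [hP, map_zero, zero_div]
    exact ⟨fun _ => Or.inl hf0, fun _ => rfl⟩
  · have hf0 : (f : F) ≠ 0 := by
      rw [hf]
      exact div_ne_zero (ev_ne_zero h hP) (ev_ne_zero h (C1_ne hQ))
    have h1 := inv_ev_div_mem_iff h hP hQ
    rw [← hf] at h1
    rw [h1, div_eq_zero_iff]
    constructor
    · rintro (h2 | h2)
      · exact Or.inr (not_not.2 h2)
      · exact absurd h2 hQ
    · rintro (h2 | h2)
      · exact absurd h2 hf0
      · exact Or.inl (not_not.1 h2)

/-- Fractions: `F` is the field of fractions of the local ring. -/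
theorem exists_div_Oloc {a b : F} (h : IsPlane a b) (f : F) :
    ∃ p ∈ Oloc a b, ∃ q ∈ Oloc a b, q ≠ 0 ∧ f = p / q := by
  obtain ⟨P, Q, hQ, hf⟩ := exists_div h f
  exact ⟨ev a b P, Aff_le_Oloc a b (mem_Aff.2 ⟨P, rfl⟩), ev a b Q,
    Aff_le_Oloc a b (mem_Aff.2 ⟨Q, rfl⟩), ev_ne_zero h hQ, hf⟩

end Pool.Agent.LibKB1a
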