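import Pool.Agent.LibKB1a.C2

/-!
[K.B1a C2c] Properties of the lowest degree.
SKETCH: `mdeg_mul`: `multiplicity_subst` and multiplicativity of the multiplicity of the prime
`X 0` (`multiplicity_mul`, finite multiplicity). `mdeg_eq_zero_iff`:
`homogeneousComponent 0 P = C (coeff 0 P)`. `mdeg_rename_swap`: renaming by a bijection commutes with
homogeneous components. `mdeg_add`: the homogeneous components are additive. `mdeg_X`.
-/

set_option autoImplicit false

open Pool.Agent.LibGMM Pool.Agent.LibK

namespace Pool.Agent.LibKB1a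

variable {F : Type} [Field F] [Algebra ℂ F]

private theorem C2c_mem {P : Pol} (hP : P ≠ 0) (n : ℕ) : n ≤ mdeg P ↔
    ∀ k < n, MvPolynomial.homogeneousComponent k P = 0 := by
  constructor
  · intro h k hk
    by_contra h1
    have h2 : mdeg P ≤ k := Nat.sInf_le h1
    omega
  · intro h
    by_contra h1
    push Not at h1
    exact homogeneousComponent_mdeg_ne_zero hP (h _ h1)

theorem mdeg_mul {P Q : Pol} (hP : P ≠ 0) (hQ : Q ≠ 0) : mdeg (P * Q) = mdeg P + mdeg Q := by
  have hPQ : P * Q ≠ 0 := mul_ne_zero hP hQ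
  have hprime : Prime (MvPolynomial.X 0 : Pol) := MvPolynomial.X_prime
  have h1 := multiplicity_subst 0 hPQ
  rw [map_mul, multiplicity_mul hprime (FiniteMultiplicity.of_prime_left hprime
    (mul_ne_zero (subst_ne_zero 0 hP) (subst_ne_zero 0 hQ))), multiplicity_subst 0 hP,
    multiplicity_subst 0 hQ] at h1
  exact h1.symm

theorem mdeg_eq_zero_iff {P : Pol} (hP : P ≠ 0) :
    mdeg P = 0 ↔ MvPolynomial.constantCoeff P ≠ 0 := by
  have h0 : MvPolynomial.homogeneousComponent 0 P =
      MvPolynomial.C (MvPolynomial.constantCoeff P) :=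
    MvPolynomial.homogeneousComponent_zero P
  constructor
  · intro h h1
    have h2 := homogeneousComponent_mdeg_ne_zero hP
    rw [h, h0, h1, map_zero] at h2
    exact h2 rfl
  · intro h
    have h1 : MvPolynomial.homogeneousComponent 0 P ≠ 0 := by
      rw [h0]
      intro h2
      exact h (MvPolynomial.C_injective _ _ (by rw [h2, map_zero]))
    have h2 : mdeg P ≤ 0 := Nat.sInf_le h1
    omega

theorem mdeg_rename_swap (P : Pol) :
    mdeg (MvPolynomial.rename (Equiv.swap (0 : Fin 2) 1) P) = mdeg P := by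
  unfold mdeg
  congr 1
  ext n
  show _ ≠ _ ↔ _ ≠ _
  rw [← MvPolynomial.rename_homogeneousComponent]
  rw [not_iff_not]
  exact map_eq_zero_iff _ (MvPolynomial.rename_injective _ (Equiv.swap (0 : Fin 2) 1).injective)

theorem le_mdeg_iff {P : Pol} (hP : P ≠ 0) (n : ℕ) :
    n ≤ mdeg P ↔ ∀ k < n, MvPolynomial.homogeneousComponent k P = 0 := by
  exact C2c_mem hP n

theorem mdeg_X (i : Fin 2) : mdeg (MvPolynomial.X i) = 1 := by
  have h1 : ∀ n, MvPolynomial.homogeneousComponent n (MvPolynomial.X i : Pol) =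
      if n = 1 then MvPolynomial.X i else 0 := fun n =>
    MvPolynomial.homogeneousComponent_of_mem (MvPolynomial.isHomogeneous_X ℂ i)
  have h2 := homogeneousComponent_mdeg_ne_zero (MvPolynomial.X_ne_zero (R := ℂ) i)
  rw [h1] at h2
  by_contra h3
  rw [if_neg h3] at h2
  exact h2 rfl

end Pool.Agent.LibKB1a
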