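import Pool.Agent.LibKB1a.A2
import Pool.Agent.LibKB1a.C1
import Pool.Agent.LibKB1a.C2c
import Pool.Agent.LibKB80.Ord

/-!
[K.B1a BR0] The dictionary between the definitions of LibKB (helper36) and LibKB1a.
-/

set_option autoImplicit false

open Pool.Agent.LibGMM Pool.Agent.LibK
open Pool.Agent.LibKB (Coord ordP Over VDom Ge IsDiv sec Gen LocEqn frm Kc clOf h0 PreSurf mem_sec)

namespace Pool.Agent.LibKB1a

variable {F : Type} [Field F] [Algebra ℂ F]

theorem coord_iff {x : Subalgebra ℂ F} {a b : F} :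
    Coord x a b ↔ IsPlane a b ∧ x = Oloc a b := by
  constructor
  · intro h
    have hpl : IsPlane a b := by
      refine ⟨?_, ?_⟩
      · rw [AlgebraicIndependent, injective_iff_map_eq_zero]
        intro f hf
        exact h.inj f hf
      · rw [eq_top_iff]
        intro z _
        obtain ⟨f, g, hg, rfl⟩ := h.gen z
        have key : ∀ P : Pol, MvPolynomial.aeval ![a, b] P ∈ IntermediateField.adjoin ℂ {a, b} := by
          intro P
          have h1 : MvPolynomial.aeval ![a, b] P ∈ Algebra.adjoin ℂ (Set.range ![a, b]) := by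
            rw [Algebra.adjoin_range_eq_range_aeval]
            exact ⟨P, rfl⟩
          have h2 : Algebra.adjoin ℂ (Set.range ![a, b]) ≤
              (IntermediateField.adjoin ℂ {a, b}).toSubalgebra := by
            rw [Algebra.adjoin_le_iff]
            rintro _ ⟨i, rfl⟩
            fin_cases i
            · exact IntermediateField.subset_adjoin _ _ (by simp)
            · exact IntermediateField.subset_adjoin _ _ (by simp)
          exact h2 h1
        exact div_mem (key f) (key g)
    refine ⟨hpl, ?_⟩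
    ext z
    rw [h.mem, mem_Oloc_iff hpl]
    rfl
  · rintro ⟨h, rfl⟩
    refine ⟨?_, ?_, ?_⟩
    · intro f hf
      by_contra hne
      exact ev_ne_zero h hne hf
    · intro z
      obtain ⟨P, Q, hQ, hz⟩ := exists_div h z
      exact ⟨P, Q, hQ, hz⟩
    · intro z
      rw [mem_Oloc_iff h]
      rfl

theorem coord_Oloc {a b : F} (h : IsPlane a b) : Coord (Oloc a b) a b :=
  coord_iff.2 ⟨h, rfl⟩

theorem ess_iff (x : Subalgebra ℂ F) (ν : DVal F) : ν ∈ Pool.Agent.LibKB.Ess x ↔ Ess x ν :=
  ⟨fun h => ⟨h.1, h.2⟩, fun h => ⟨h.le, h.frac⟩⟩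

theorem ordP_eq_mdeg {P : Pol} (hP : P ≠ 0) : ordP P = mdeg P := by
  have key : ∀ n : ℕ, n ≤ ordP P ↔ n ≤ mdeg P := by
    intro n
    rw [Pool.Agent.LibKB.le_ordP_iff hP, le_mdeg_iff hP]
    constructor
    · intro h k hk
      ext d
      rw [MvPolynomial.coeff_homogeneousComponent]
      split_ifs with h1
      · rw [h d (by omega), MvPolynomial.coeff_zero]
      · simp
    · intro h d hd
      have h1 := congrArg (MvPolynomial.coeff d) (h d.degree hd)
      rw [MvPolynomial.coeff_homogeneousComponent] at h1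
      simpa using h1
  exact le_antisymm ((key _).1 le_rfl) ((key _).2 le_rfl)

theorem isOrd_iff_coord {x : Subalgebra ℂ F} {a b : F} (h : Coord x a b) (E : DVal F) :
    Pool.Agent.LibKB.IsOrd x E ↔ IsOrd a b E := by
  constructor
  · intro hE P hP
    rw [← ordP_eq_mdeg hP]
    exact hE.ord_ev h hP
  · intro hE
    refine ⟨a, b, h, fun f hf => ?_⟩
    rw [ordP_eq_mdeg hf]
    exact hE f hf

theorem vdom_iff (x : Subalgebra ℂ F) (V : ValuationSubring F) : VDom x V ↔ Dom x V := by
  constructor
  · rintro ⟨h1, h2⟩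
    refine ⟨h1, fun f hf h0 h3 => ?_⟩
    rcases h2 f hf h3 with h4 | h4
    · exact h4
    · exact absurd h4 h0
  · rintro ⟨h1, h2⟩
    refine ⟨h1, fun f hf h3 => ?_⟩
    by_cases h0 : f = 0
    · exact Or.inr h0
    · exact Or.inl (h2 f hf h0 h3)

/-- The substitution `Y ↦ Y - c X`. -/
noncomputable def lin (c : ℂ) : Pol →ₐ[ℂ] Pol :=
  MvPolynomial.aeval ![MvPolynomial.X 0, MvPolynomial.X 1 - MvPolynomial.C c * MvPolynomial.X 0]

theorem ev_lin (a b : F) (c : ℂ) (P : Pol) : ev a b (lin c P) = ev a (b - c • a) P := by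
  have h : (ev a b).comp (lin c) = ev a (b - c • a) := by
    apply MvPolynomial.algHom_ext
    intro i
    fin_cases i
    · simp [lin]
    · simp [lin, Algebra.smul_def]
  exact DFunLike.congr_fun h P

theorem constantCoeff_lin (c : ℂ) (P : Pol) :
    MvPolynomial.constantCoeff (lin c P) = MvPolynomial.constantCoeff P := by
  have h : (MvPolynomial.constantCoeff : Pol →+* ℂ).comp (lin c).toRingHom =
      MvPolynomial.constantCoeff := by
    apply MvPolynomial.ringHom_ext
    · intro r
      simp [lin]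
    · intro i
      fin_cases i <;> simp [lin]
  exact DFunLike.congr_fun h P

theorem Oloc_lin_le (a b : F) (c : ℂ) : Oloc a (b - c • a) ≤ Oloc a b := by
  rintro f ⟨P, Q, hQ, h⟩
  refine ⟨lin c P, lin c Q, ?_, ?_⟩
  · rwa [constantCoeff_lin]
  · rw [ev_lin, ev_lin]
    exact h

theorem Oloc_lin (a b : F) (c : ℂ) : Oloc a (b - c • a) = Oloc a b := by
  apply le_antisymm (Oloc_lin_le a b c)
  have h := Oloc_lin_le a (b - c • a) (-c)
  have h1 : b - c • a - (-c) • a = b := by
    rw [neg_smul]
    ring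
  rwa [h1] at h

theorem isPlane_lin {a b : F} (h : IsPlane a b) (c : ℂ) : IsPlane a (b - c • a) := by
  apply isPlane_of_adjoin h
  rw [eq_top_iff, ← h.2, IntermediateField.adjoin_le_iff]
  have ha : a ∈ IntermediateField.adjoin ℂ {a, b - c • a} :=
    IntermediateField.subset_adjoin _ _ (by simp)
  have hb : b - c • a ∈ IntermediateField.adjoin ℂ {a, b - c • a} :=
    IntermediateField.subset_adjoin _ _ (by simp)
  rintro z (rfl | rfl)
  · exact ha
  · have h2 := add_mem hb ((IntermediateField.adjoin ℂ {a, z - c • a}).smul_mem (x := c) ha)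
    rwa [sub_add_cancel] at h2

/-- Points over `x` are given by coordinates `(a, b / a)`; both kinds of `overPts` are of this
form. -/
theorem over_of_mem {x y : Subalgebra ℂ F} {a b : F} (h : Coord x a b) (hy : y ∈ overPts a b) :
    Over x y := by
  obtain ⟨hpl, rfl⟩ := coord_iff.1 h
  obtain ⟨ha, hb⟩ := ne_zero_of_isPlane hpl
  rcases hy with ⟨c, rfl⟩ | rfl
  · -- new coordinates (a, b - c a)
    refine ⟨a, b - c • a, ?_, ?_⟩
    · rw [← Oloc_lin a b c]
      exact coord_Oloc (isPlane_lin hpl c)
    · have h1 : (b - c • a) / a = b / a - algebraMap ℂ F c := by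
        rw [Algebra.smul_def]
        field_simp
      rw [h1]
      exact coord_Oloc (isPlane_div hpl c)
  · refine ⟨b, a, ?_, coord_Oloc (isPlane_div' hpl)⟩
    rw [← Oloc_swap a b]
    exact coord_Oloc (isPlane_swap hpl)

end Pool.Agent.LibKB1a
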