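import Pool.Agent.LibKB1a.C4

/-!
[K.B1a C5] Jets: `Oloc a b` modulo order `≥ m` has dimension `m (m + 1) / 2`, and every
element is congruent to a polynomial of degree `< m`.
SKETCH: `poly_approx` by induction on `m`: `m = 0`: `P = 0`. Step: `f - ev P = P' / Q'`,
`mdeg P' ≥ m`; subtract `homogeneousComponent m P' / Q'(0)`: `P'/Q' - P'_m/Q'(0) =
(P' Q'(0) - P'_m Q') / (Q' Q'(0))`, the numerator has `mdeg ≥ m+1`. Linear map: the space `W` of
polynomials with all monomials of degree `< m` has dimension `m (m + 1) / 2`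
(count pairs `(i, j)`, `i + j < m`); the map `W → Oloc / {ord ≥ m}` is bijective: injective because
`ord (ev P) = mdeg P < m` for `0 ≠ P ∈ W`, surjective by `poly_approx`. Get `J` by
composing the quotient map with the inverse of this isomorphism and a basis.
-/

set_option autoImplicit false

open Pool.Agent.LibGMM Pool.Agent.LibK

namespace Pool.Agent.LibKB1a

variable {F : Type} [Field F] [Algebra ℂ F]

theorem C5_mul {v : DVal F} {f g : F} {n k : ℤ} (hf : f = 0 ∨ n ≤ v.ord f) (hg : g = 0 ∨ k ≤ v.ord g) :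
    f * g = 0 ∨ n + k ≤ v.ord (f * g) := by
  by_cases h1 : f = 0
  · left; rw [h1, zero_mul]
  by_cases h2 : g = 0
  · left; rw [h2, mul_zero]
  right
  rw [v.ord_mul _ _ h1 h2]
  have h3 := hf.resolve_left h1
  have h4 := hg.resolve_left h2
  omega

theorem C5_sub {v : DVal F} {f g : F} {n : ℤ} (hf : f = 0 ∨ n ≤ v.ord f) (hg : g = 0 ∨ n ≤ v.ord g) :
    f - g = 0 ∨ n ≤ v.ord (f - g) := by
  rw [sub_eq_add_neg]
  refine v.ord_add_ge hf ?_
  rcases hg with h | h
  · left; rw [h, neg_zero]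
  · right; rw [v.ord_neg]; exact h

theorem C5_ev {a b : F} {v : DVal F} (hv : IsOrd a b v) {P : Pol} {n : ℕ} (hP : P = 0 ∨ n ≤ mdeg P) :
    ev a b P = 0 ∨ (n : ℤ) ≤ v.ord (ev a b P) := by
  by_cases h : P = 0
  · left; rw [h, map_zero]
  · right
    rw [hv P h]
    exact_mod_cast hP.resolve_left h

theorem C5_step {a b : F} (h : IsPlane a b) {v : DVal F} (hv : IsOrd a b v) (m : ℕ) {g : F}
    (hg : g ∈ Oloc a b) (hgm : g = 0 ∨ (m : ℤ) ≤ v.ord g) : ∃ H : Pol, (∀ d ∈ H.support, d 0 + d 1 = m) ∧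
      (g - ev a b H = 0 ∨ (m : ℤ) + 1 ≤ v.ord (g - ev a b H)) := by
  by_cases hg0 : g = 0
  · exact ⟨0, by simp, by left; rw [hg0]; simp⟩
  obtain ⟨P, Q, hQ, hgP⟩ := (mem_Oloc_iff h).1 hg
  have hQ0 : Q ≠ 0 := by
    rintro rfl
    exact hQ (map_zero _)
  have hevQ : ev a b Q ≠ 0 := ev_ne_zero h hQ0
  have hP0 : P ≠ 0 := by
    rintro rfl
    apply hg0
    rw [hgP, map_zero, zero_div]
  have hQm : mdeg Q = 0 := (mdeg_eq_zero_iff hQ0).2 hQ
  have hordQ : v.ord (ev a b Q) = 0 := by rw [hv Q hQ0, hQm]; rfl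
  have hPm : m ≤ mdeg P := by
    have h1 := hgm.resolve_left hg0
    rw [hgP, v.ord_div (ev_ne_zero h hP0) hevQ, hordQ, hv P hP0] at h1
    omega
  set c := MvPolynomial.constantCoeff Q with hc
  set H0 := MvPolynomial.homogeneousComponent m P with hH0
  have hH0h : H0 ∈ MvPolynomial.homogeneousSubmodule (Fin 2) ℂ m :=
    MvPolynomial.homogeneousComponent_mem m P
  have hcomp : ∀ k < m + 1, MvPolynomial.homogeneousComponent k (P - H0) = 0 := by
    intro k hk
    rw [map_sub]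
    by_cases hkm : k = m
    · rw [hkm, MvPolynomial.homogeneousComponent_of_mem hH0h, if_pos rfl, ← hH0, sub_self]
    · rw [MvPolynomial.homogeneousComponent_of_mem hH0h, if_neg hkm, sub_zero]
      exact (le_mdeg_iff hP0 m).1 hPm k (by omega)
  have hR : P - H0 = 0 ∨ m + 1 ≤ mdeg (P - H0) := by
    by_cases hR0 : P - H0 = 0
    · exact Or.inl hR0
    · exact Or.inr ((le_mdeg_iff hR0 (m + 1)).2 hcomp)
  have hH : H0 = 0 ∨ m ≤ mdeg H0 := by
    by_cases hR0 : H0 = 0
    · exact Or.inl hR0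
    · refine Or.inr ((le_mdeg_iff hR0 m).2 ?_)
      intro k hk
      rw [MvPolynomial.homogeneousComponent_of_mem hH0h, if_neg (by omega)]
  have hS : Q - MvPolynomial.C c = 0 ∨ 1 ≤ mdeg (Q - MvPolynomial.C c) := by
    by_cases hS0 : Q - MvPolynomial.C c = 0
    · exact Or.inl hS0
    · right
      by_contra hcon
      have h1 : mdeg (Q - MvPolynomial.C c) = 0 := by omega
      rw [mdeg_eq_zero_iff hS0] at h1
      apply h1
      rw [map_sub, MvPolynomial.constantCoeff_C, ← hc, sub_self]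
  have hcF : algebraMap ℂ F c ≠ 0 := by
    rw [Ne, map_eq_zero]
    exact hQ
  refine ⟨MvPolynomial.C c⁻¹ * H0, ?_, ?_⟩
  · intro d hd
    rw [MvPolynomial.mem_support_iff, MvPolynomial.coeff_C_mul] at hd
    have h1 : MvPolynomial.coeff d H0 ≠ 0 := right_ne_zero_of_mul hd
    have h2 := ((MvPolynomial.mem_homogeneousSubmodule m H0).1 hH0h) h1
    rw [← h2]
    simp [Finsupp.weight_apply, Finsupp.sum_fintype, Fin.sum_univ_two]
  · have hid : g - ev a b (MvPolynomial.C c⁻¹ * H0) = ev a b (P - H0) * (ev a b Q)⁻¹ -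
        (ev a b H0 * ev a b (Q - MvPolynomial.C c)) * ((algebraMap ℂ F c)⁻¹ * (ev a b Q)⁻¹) := by
      rw [hgP, map_sub, map_sub, map_mul, ev_C, ev_C, map_inv₀]
      field_simp
      ring
    rw [hid]
    have hu : (ev a b Q)⁻¹ = 0 ∨ (0:ℤ) ≤ v.ord (ev a b Q)⁻¹ := by
      right
      rw [v.ord_inv, hordQ, neg_zero]
    have hu2 : (algebraMap ℂ F c)⁻¹ = 0 ∨ (0:ℤ) ≤ v.ord (algebraMap ℂ F c)⁻¹ := by
      right
      rw [v.ord_inv, v.ord_const, neg_zero]
    have h1 := C5_mul (C5_ev hv hR) hu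
    have h2 := C5_mul (C5_mul (C5_ev hv hH) (C5_ev hv hS)) (C5_mul hu2 hu)
    push_cast at h1 h2
    simp only [add_zero] at h1 h2
    exact C5_sub h1 h2

theorem IsOrd.poly_approx {a b : F} (h : IsPlane a b) {v : DVal F} (hv : IsOrd a b v) (m : ℕ)
    {f : F} (hf : f ∈ Oloc a b) : ∃ P : Pol, (∀ d ∈ P.support, d 0 + d 1 < m) ∧
      (f - ev a b P = 0 ∨ (m : ℤ) ≤ v.ord (f - ev a b P)) := by
  induction m with
  | zero =>
    refine ⟨0, by simp, ?_⟩
    by_cases hf0 : f = 0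
    · left; rw [hf0]; simp
    · right
      rw [map_zero, sub_zero]
      have := IsOrd.le_ring h hv hf
      rw [v.mem_ring] at this
      exact_mod_cast this
  | succ m ih =>
    obtain ⟨P, hP, hPm⟩ := ih
    have hmem : f - ev a b P ∈ Oloc a b :=
      Subalgebra.sub_mem _ hf (Aff_le_Oloc a b ⟨P, rfl⟩)
    obtain ⟨H, hH, hHm⟩ := C5_step h hv m hmem hPm
    refine ⟨P + H, ?_, ?_⟩
    · intro d hd
      have h1 := MvPolynomial.support_add hd
      rw [Finset.mem_union] at h1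
      rcases h1 with h1 | h1
      · have := hP d h1
        omega
      · have := hH d h1
        omega
    · rw [map_add, ← sub_sub]
      push_cast
      exact hHm

/-- the monomials of degree less than `m` -/
def C5_S (m : ℕ) : Set (Fin 2 →₀ ℕ) := {d | d 0 + d 1 < m}

theorem C5_card (m : ℕ) : Nat.card (C5_S m) = m * (m + 1) / 2 := by
  classical
  let e : (Σ i : Fin m, Fin (i.1 + 1)) ≃ C5_S m :=
    { toFun := fun s => ⟨Finsupp.equivFunOnFinite.symm ![s.2.1, s.1.1 - s.2.1], by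
        have h1 := s.1.2
        have h2 := s.2.2
        show (Finsupp.equivFunOnFinite.symm ![s.2.1, s.1.1 - s.2.1] : Fin 2 →₀ ℕ) 0 +
          (Finsupp.equivFunOnFinite.symm ![s.2.1, s.1.1 - s.2.1] : Fin 2 →₀ ℕ) 1 < m
        simp
        omega⟩
      invFun := fun d => ⟨⟨d.1 0 + d.1 1, d.2⟩, ⟨d.1 0, by
        show d.1 0 < d.1 0 + d.1 1 + 1
        omega⟩⟩
      left_inv := by
        rintro ⟨⟨i, hi⟩, ⟨j, hj⟩⟩
        have hj' : j < i + 1 := hj
        have h1 : j + (i - j) = i := by omega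
        have h2 : ∀ (i' : ℕ) (hi' : i' < m) (hj1 : j < i' + 1) (_ : i' = i),
            (⟨⟨i', hi'⟩, ⟨j, hj1⟩⟩ : Σ i : Fin m, Fin (i.1 + 1)) = ⟨⟨i, hi⟩, ⟨j, hj⟩⟩ := by
          intro i' hi' hj1 hii
          subst hii
          rfl
        exact h2 _ _ _ (by simpa using h1)
      right_inv := by
        rintro ⟨d, hd⟩
        apply Subtype.ext
        ext i
        fin_cases i
        · simp
        · simp }
  rw [← Nat.card_congr e, Nat.card_eq_fintype_card, Fintype.card_sigma]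
  simp only [Fintype.card_fin]
  rw [Fin.sum_univ_eq_sum_range (fun i => i + 1) m]
  have hG : ∀ m, 2 * ∑ i ∈ Finset.range m, (i + 1) = m * (m + 1) := by
    intro m
    induction m with
    | zero => simp
    | succ n ih =>
      rw [Finset.sum_range_succ, mul_add, ih]
      ring
  exact (Nat.div_eq_of_eq_mul_right (by norm_num) (hG m).symm).symm

theorem C5_finite (m : ℕ) : Finite (C5_S m) := by
  by_cases hm : m = 0
  · subst hm
    have : IsEmpty (C5_S 0) := ⟨fun d => by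
      have := d.2
      simp [C5_S] at this⟩
    infer_instance
  · apply Nat.finite_of_card_ne_zero
    rw [C5_card]
    have h1 : 2 ≤ m * (m + 1) := by
      have : 1 ≤ m := by omega
      nlinarith
    omega

/-- the elements of order at least `m` -/
def C5_K {a b : F} (v : DVal F) (m : ℕ) : Submodule ℂ (Oloc a b) where
  carrier := {f | (f : F) = 0 ∨ (m : ℤ) ≤ v.ord (f : F)}
  zero_mem' := Or.inl rfl
  add_mem' := by
    intro f g hf hg
    exact v.ord_add_ge hf hg
  smul_mem' := by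
    intro c f hf
    have h1 : ((c • f : Oloc a b) : F) = algebraMap ℂ F c * (f : F) := by
      rw [Subalgebra.coe_smul, Algebra.smul_def]
    show ((c • f : Oloc a b) : F) = 0 ∨ (m : ℤ) ≤ v.ord ((c • f : Oloc a b) : F)
    rw [h1]
    have h2 : (algebraMap ℂ F c) = 0 ∨ (0:ℤ) ≤ v.ord (algebraMap ℂ F c) := by
      right
      rw [v.ord_const]
    have h3 := C5_mul h2 hf
    rwa [zero_add] at h3

/-- evaluation with values in the local ring -/
noncomputable def C5_evO (a b : F) : Pol →ₗ[ℂ] Oloc a b :=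
  LinearMap.codRestrict (Subalgebra.toSubmodule (Oloc a b)) (ev a b).toLinearMap
    (fun P => Aff_le_Oloc a b ⟨P, rfl⟩)

theorem C5_evO_coe (a b : F) (P : Pol) : ((C5_evO a b P : Oloc a b) : F) = ev a b P := rfl

theorem C5_lt {m : ℕ} {P : Pol} (hP : P ≠ 0) (h : ∀ d ∈ P.support, d 0 + d 1 < m) : mdeg P < m := by
  by_contra hcon
  push Not at hcon
  obtain ⟨d, hd⟩ := (MvPolynomial.support_nonempty.2 hP)
  have h1 := (le_mdeg_iff hP m).1 hcon (d 0 + d 1) (h d hd)
  have h2 := congrArg (MvPolynomial.coeff d) h1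
  rw [MvPolynomial.coeff_homogeneousComponent, MvPolynomial.coeff_zero] at h2
  have h3 : d.degree = d 0 + d 1 := by
    simp [Finsupp.degree_eq_sum, Fin.sum_univ_two]
  rw [if_pos h3] at h2
  exact (MvPolynomial.mem_support_iff.1 hd) h2

theorem IsOrd.jets {a b : F} (h : IsPlane a b) {v : DVal F} (hv : IsOrd a b v) (m : ℕ) :
    ∃ J : Oloc a b →ₗ[ℂ] (Fin (m * (m + 1) / 2) → ℂ), Function.Surjective J ∧
      ∀ f : Oloc a b, J f = 0 ↔ (f : F) = 0 ∨ (m : ℤ) ≤ v.ord (f : F) := by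
  classical
  have hfin := C5_finite m
  let W : Submodule ℂ Pol := MvPolynomial.restrictSupport ℂ (C5_S m)
  let K : Submodule ℂ (Oloc a b) := C5_K v m
  let φ : W →ₗ[ℂ] (Oloc a b ⧸ K) := (K.mkQ ∘ₗ C5_evO a b) ∘ₗ W.subtype
  have hinj : Function.Injective φ := by
    rw [← LinearMap.ker_eq_bot, LinearMap.ker_eq_bot']
    rintro ⟨P, hP⟩ hφ
    have h1 : K.mkQ (C5_evO a b P) = 0 := hφ
    rw [Submodule.mkQ_apply, Submodule.Quotient.mk_eq_zero] at h1
    by_contra hne
    have hP0 : P ≠ 0 := fun h => hne (Subtype.ext h)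
    have h2 : ev a b P = 0 ∨ (m : ℤ) ≤ v.ord (ev a b P) := h1
    have h3 := h2.resolve_left (ev_ne_zero h hP0)
    rw [hv P hP0] at h3
    have h4 := C5_lt hP0 (m := m) (fun d hd => ((MvPolynomial.mem_restrictSupport_iff ℂ).1 hP) hd)
    omega
  have hsurj : Function.Surjective φ := by
    intro y
    obtain ⟨f, rfl⟩ := K.mkQ_surjective y
    obtain ⟨P, hP, hPm⟩ := IsOrd.poly_approx h hv m f.2
    refine ⟨⟨P, ?_⟩, ?_⟩
    · exact (MvPolynomial.mem_restrictSupport_iff ℂ).2 fun d hd => hP d hd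
    · show K.mkQ (C5_evO a b P) = K.mkQ f
      rw [← sub_eq_zero, ← map_sub, Submodule.mkQ_apply, Submodule.Quotient.mk_eq_zero]
      show ((C5_evO a b P - f : Oloc a b) : F) = 0 ∨ (m : ℤ) ≤ v.ord ((C5_evO a b P - f : Oloc a b) : F)
      have h1 : ((C5_evO a b P - f : Oloc a b) : F) = -((f : F) - ev a b P) := by
        rw [Subalgebra.coe_sub, C5_evO_coe]
        ring
      rw [h1, v.ord_neg]
      rcases hPm with h2 | h2
      · left; rw [h2, neg_zero]
      · right; exact h2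
  let e : W ≃ₗ[ℂ] (Oloc a b ⧸ K) := LinearEquiv.ofBijective φ ⟨hinj, hsurj⟩
  let bW := MvPolynomial.basisRestrictSupport ℂ (C5_S m)
  have hcard : Nat.card (C5_S m) = m * (m + 1) / 2 := C5_card m
  have := Fintype.ofFinite (C5_S m)
  have hcard' : Fintype.card (C5_S m) = Fintype.card (Fin (m * (m + 1) / 2)) := by
    rw [← Nat.card_eq_fintype_card, hcard, Fintype.card_fin]
  let b2 := bW.reindex (Fintype.equivOfCardEq hcard')
  let J0 : (Oloc a b ⧸ K) ≃ₗ[ℂ] (Fin (m * (m + 1) / 2) → ℂ) := e.symm.trans b2.equivFun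
  refine ⟨J0.toLinearMap ∘ₗ K.mkQ, ?_, ?_⟩
  · rw [LinearMap.coe_comp]
    exact J0.surjective.comp K.mkQ_surjective
  · intro f
    show J0 (K.mkQ f) = 0 ↔ _
    rw [LinearEquiv.map_eq_zero_iff, Submodule.mkQ_apply, Submodule.Quotient.mk_eq_zero]
    rfl

end Pool.Agent.LibKB1a
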