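import Pool.Agent.LibKB1a.B3

/-!
[K.B1a B4] Finiteness of zeros and poles on the affine plane; valuations with a given
zero; associated polynomials.
SKETCH: `f = P / Q`; the `v` with `ord f ≠ 0` are given by prime factors of `P` or `Q`; up to units
these are finitely many (`UniqueFactorizationMonoid.normalizedFactors`), and associated `g`, `g'`
give the same valuation (`multiplicity` is invariant, `IsPolyVal.unique`).
`eq_of_ord_pos`: an essential `v` with `0 < v.ord (ev g)`, `g` prime, is the valuation of `g`: it is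
that of a prime `g'` with `g' ∣ g`, so `g'` and `g` are associated.
-/

set_option autoImplicit false

open Pool.Agent.LibGMM Pool.Agent.LibK

namespace Pool.Agent.LibKB1a

variable {F : Type} [Field F] [Algebra ℂ F]

theorem IsPolyVal.of_associated {a b : F} {g g' : Pol} (h : Associated g g') {v : DVal F}
    (hv : IsPolyVal a b g v) : IsPolyVal a b g' v := by
  intro P hP
  rw [hv P hP, multiplicity_eq_of_associated_left h]

theorem IsPolyVal.ord_self {a b : F} {g : Pol} (hg : Prime g) {v : DVal F}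
    (hv : IsPolyVal a b g v) : v.ord (ev a b g) = 1 := by
  rw [hv g hg.ne_zero]
  have : multiplicity g g = 1 := by simp
  rw [this]
  rfl

theorem IsPolyVal.dvd_of_pos {a b : F} {g : Pol} {v : DVal F} (hv : IsPolyVal a b g v) {P : Pol}
    (hP : P ≠ 0) (hpos : 0 < v.ord (ev a b P)) : g ∣ P := by
  by_contra h
  rw [hv P hP, multiplicity_eq_zero.2 h] at hpos
  simp at hpos

theorem IsPolyVal.associated {a b : F} (h : IsPlane a b) {g g' : Pol} (hg : Prime g)
    (hg' : Prime g') {v : DVal F} (hv : IsPolyVal a b g v) (hv' : IsPolyVal a b g' v) :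
    Associated g g' := by
  have h1 : g ∣ g' := hv.dvd_of_pos hg'.ne_zero (by rw [hv'.ord_self hg']; norm_num)
  exact hg.associated_of_dvd hg' h1

theorem isPolyVal_of_ord_pos {a b : F} (h : IsPlane a b) {g : Pol} (hg : Prime g) {v : DVal F}
    (hv : Ess (Aff a b) v) (hpos : 0 < v.ord (ev a b g)) : IsPolyVal a b g v := by
  obtain ⟨g', hg', hv'⟩ := (ess_aff_iff h v).1 hv
  exact hv'.of_associated (hg'.associated_of_dvd hg (hv'.dvd_of_pos hg.ne_zero hpos))

theorem finite_ess_Aff {a b : F} (h : IsPlane a b) {f : F} (hf : f ≠ 0) :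
    {v | Ess (Aff a b) v ∧ v.ord f ≠ 0}.Finite := by
  classical
  obtain ⟨P, Q, hQ, rfl⟩ := exists_div h f
  have hP : P ≠ 0 := by
    rintro rfl
    simp at hf
  have hR : P * Q ≠ 0 := mul_ne_zero hP hQ
  let S : Finset Pol := (UniqueFactorizationMonoid.factors (P * Q)).toFinset
  have hfin : (⋃ g ∈ S, {v : DVal F | IsPolyVal a b g v}).Finite := by
    refine Set.Finite.biUnion S.finite_toSet fun g _ => ?_
    apply Set.Subsingleton.finite
    intro v hv w hw
    exact IsPolyVal.unique h hv hw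
  refine hfin.subset ?_
  rintro v ⟨hv, hv0⟩
  obtain ⟨g, hg, hgv⟩ := (ess_aff_iff h v).1 hv
  have h1 : 0 ≤ v.ord (ev a b P) := hv.le ⟨P, rfl⟩
  have h2 : 0 ≤ v.ord (ev a b Q) := hv.le ⟨Q, rfl⟩
  rw [DVal.ord_div _ (ev_ne_zero h hP) (ev_ne_zero h hQ)] at hv0
  have h3 : 0 < v.ord (ev a b (P * Q)) := by
    rw [map_mul, v.ord_mul _ _ (ev_ne_zero h hP) (ev_ne_zero h hQ)]
    omega
  obtain ⟨g', hg', has⟩ := UniqueFactorizationMonoid.exists_mem_factors_of_dvd hR hg.irreducible
    (hgv.dvd_of_pos hR h3)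
  rw [Set.mem_iUnion₂]
  exact ⟨g', Multiset.mem_toFinset.2 hg', hgv.of_associated has⟩

end Pool.Agent.LibKB1a
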