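import Pool.Agent.LibKB1a.A1

/-!
[K.B1a A2] The pairs of coordinates used for blow-ups and for the plane.
SKETCH: `isPlane_of_adjoin`; `adjoin ℂ {a', b'}` contains `a` and `b` (`adjoin_le_iff`, `eq_top`).
`a ≠ 0`, `b ≠ 0` by algebraic independence (`AlgebraicIndependent.ne_zero`).
-/

set_option autoImplicit false

open Pool.Agent.LibGMM Pool.Agent.LibK

namespace Pool.Agent.LibKB1a

variable {F : Type} [Field F] [Algebra ℂ F]

theorem ne_zero_of_isPlane {a b : F} (h : IsPlane a b) : a ≠ 0 ∧ b ≠ 0 :=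
  ⟨by simpa using h.1.ne_zero 0, by simpa using h.1.ne_zero 1⟩

/-- if the field generated by `a'`, `b'` contains `a` and `b` it is everything -/
theorem a2_of_mem {a b a' b' : F} (h : IsPlane a b)
    (ha : a ∈ IntermediateField.adjoin ℂ {a', b'}) (hb : b ∈ IntermediateField.adjoin ℂ {a', b'}) :
    IsPlane a' b' := by
  refine isPlane_of_adjoin h ?_
  rw [eq_top_iff, ← h.2, IntermediateField.adjoin_le_iff]
  rintro x (rfl | rfl)
  · exact ha
  · exact hb

theorem isPlane_swap {a b : F} (h : IsPlane a b) : IsPlane b a :=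
  a2_of_mem h (IntermediateField.mem_adjoin_pair_right _ _ _)
    (IntermediateField.mem_adjoin_pair_left _ _ _)

theorem isPlane_sub {a b : F} (h : IsPlane a b) (α β : ℂ) :
    IsPlane (a - algebraMap ℂ F α) (b - algebraMap ℂ F β) := by
  apply a2_of_mem h
  · have h1 := add_mem (IntermediateField.mem_adjoin_pair_left ℂ (a - algebraMap ℂ F α)
      (b - algebraMap ℂ F β)) (IntermediateField.algebraMap_mem _ α)
    rwa [sub_add_cancel] at h1
  · have h1 := add_mem (IntermediateField.mem_adjoin_pair_right ℂ (a - algebraMap ℂ F α)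
      (b - algebraMap ℂ F β)) (IntermediateField.algebraMap_mem _ β)
    rwa [sub_add_cancel] at h1

theorem isPlane_div {a b : F} (h : IsPlane a b) (c : ℂ) :
    IsPlane a (b / a - algebraMap ℂ F c) := by
  have ha := (ne_zero_of_isPlane h).1
  apply a2_of_mem h
  · exact IntermediateField.mem_adjoin_pair_left _ _ _
  · have h1 := add_mem (IntermediateField.mem_adjoin_pair_right ℂ a
      (b / a - algebraMap ℂ F c)) (IntermediateField.algebraMap_mem _ c)
    rw [sub_add_cancel] at h1
    have h2 := mul_mem h1 (IntermediateField.mem_adjoin_pair_left ℂ a (b / a - algebraMap ℂ F c))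
    rwa [div_mul_cancel₀ _ ha] at h2

theorem isPlane_div0 {a b : F} (h : IsPlane a b) : IsPlane a (b / a) := by
  simpa using isPlane_div h 0

theorem isPlane_div' {a b : F} (h : IsPlane a b) : IsPlane b (a / b) :=
  isPlane_div0 (isPlane_swap h)

theorem isPlane_inv {a b : F} (h : IsPlane a b) : IsPlane a⁻¹ (b / a) := by
  have ha := (ne_zero_of_isPlane h).1
  have h0 : a ∈ IntermediateField.adjoin ℂ {a⁻¹, b / a} := by
    have h1 := inv_mem (IntermediateField.mem_adjoin_pair_left ℂ a⁻¹ (b / a))
    rwa [inv_inv] at h1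
  apply a2_of_mem h h0
  have h2 := mul_mem (IntermediateField.mem_adjoin_pair_right ℂ a⁻¹ (b / a)) h0
  rwa [div_mul_cancel₀ _ ha] at h2

theorem isPlane_inv' {a b : F} (h : IsPlane a b) : IsPlane b⁻¹ (a / b) :=
  isPlane_inv (isPlane_swap h)

end Pool.Agent.LibKB1a
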