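import Pool.Agent.LibKB1a.B2

/-!
[K.B1a B3] The essential valuations of `ℂ[a, b]` are those of the prime polynomials.
SKETCH: uniqueness: `exists_div`. `IsPolyVal.ess`: write `f = P / Q`, cancel the powers of `g`
(`P = g^m P'`, `Q = g^n Q'`, `m ≥ n`): `f = g^(m-n) P' / Q'` with `v.ord (ev Q') = 0`.
`ess_aff_iff` (→): the polynomials `P` with `P = 0 ∨ 0 < v.ord (ev P)` form a prime ideal, nonzero
(otherwise `v = 0` by `exists_div`, but `v` takes the value 1), so it contains a prime `g` (a prime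
factor of an element, `UniqueFactorizationMonoid`). CLAIM: `g ∣ h` for each `h` in it: let
`m = ord g`, `n = ord h` (≥ 1); `f = g^n / h^m` has order 0, so `f = p / q` with `p, q` of order 0 in
`ℂ[a, b]`; `g^n q = h^m p`, so `g ∣ h^m p`; `g ∣ p` is impossible (order 0), so `g ∣ h`. So
`P = g^k P'`, `ord P' = 0` (`k` = multiplicity), `ord P = k ord g`, and `ord g = 1` because some
element has order 1.
-/

set_option autoImplicit false

open Pool.Agent.LibGMM Pool.Agent.LibK

namespace Pool.Agent.LibKB1a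

variable {F : Type} [Field F] [Algebra ℂ F]

theorem IsPolyVal.unique {a b : F} (h : IsPlane a b) {g : Pol} {v w : DVal F}
    (hv : IsPolyVal a b g v) (hw : IsPolyVal a b g w) : v = w := by
  apply DVal.ext_ring
  intro f hf
  by_cases hf0 : f = 0
  · rw [hf0, w.ord_zero]
  obtain ⟨P, Q, hQ, rfl⟩ := exists_div h f
  have hP : P ≠ 0 := by
    rintro rfl
    simp at hf0
  have hP1 := ev_ne_zero h hP
  have hQ1 := ev_ne_zero h hQ
  rw [DVal.ord_div _ hP1 hQ1, hv P hP, hv Q hQ] at hf
  rw [DVal.ord_div _ hP1 hQ1, hw P hP, hw Q hQ]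
  exact hf

/-- Splitting off the powers of a prime. -/
theorem exists_pow_mul {g : Pol} (hg : Prime g) {P : Pol} (hP : P ≠ 0) :
    ∃ R, P = g ^ multiplicity g P * R ∧ ¬ g ∣ R := by
  have hfin : FiniteMultiplicity g P := FiniteMultiplicity.of_prime_left hg hP
  obtain ⟨R, hR, hn⟩ := hfin.exists_eq_pow_mul_and_not_dvd
  exact ⟨R, hR, hn⟩

theorem IsPolyVal.ess {a b : F} (h : IsPlane a b) {g : Pol} (hg : Prime g) {v : DVal F}
    (hv : IsPolyVal a b g v) : Ess (Aff a b) v := by
  refine ⟨?_, ?_⟩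
  · rintro _ ⟨P, rfl⟩
    change 0 ≤ v.ord (ev a b P)
    by_cases hP : P = 0
    · rw [hP, map_zero, v.ord_zero]
    · rw [hv P hP]
      positivity
  · intro f hf
    by_cases hf0 : f = 0
    · exact ⟨0, (Aff a b).zero_mem, 1, (Aff a b).one_mem, one_ne_zero, v.ord_one, by simp [hf0]⟩
    obtain ⟨P, Q, hQ, rfl⟩ := exists_div h f
    have hP : P ≠ 0 := by
      rintro rfl
      simp at hf0
    have hP1 := ev_ne_zero h hP
    have hQ1 := ev_ne_zero h hQ
    rw [DVal.ord_div _ hP1 hQ1, hv P hP, hv Q hQ] at hf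
    obtain ⟨P', hP', hPn⟩ := exists_pow_mul hg hP
    obtain ⟨Q', hQ', hQn⟩ := exists_pow_mul hg hQ
    have hQ'0 : Q' ≠ 0 := by
      rintro rfl
      exact hQn (dvd_zero g)
    obtain ⟨k, hk⟩ : ∃ k, multiplicity g P = multiplicity g Q + k := by
      refine ⟨multiplicity g P - multiplicity g Q, ?_⟩
      omega
    refine ⟨ev a b (g ^ k * P'), ⟨_, rfl⟩, ev a b Q', ⟨_, rfl⟩, ev_ne_zero h hQ'0, ?_, ?_⟩
    · rw [hv Q' hQ'0]
      have : multiplicity g Q' = 0 := multiplicity_eq_zero.2 hQn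
      rw [this]
      rfl
    · rw [div_eq_div_iff hQ1 (ev_ne_zero h hQ'0), ← map_mul, ← map_mul]
      congr 1
      conv_lhs => rw [hP', hk]
      conv_rhs => rw [hQ']
      ring

theorem ess_aff_iff {a b : F} (h : IsPlane a b) (v : DVal F) :
    Ess (Aff a b) v ↔ ∃ g, Prime g ∧ IsPolyVal a b g v := by
  classical
  constructor
  swap
  · rintro ⟨g, hg, hv⟩
    exact hv.ess h hg
  intro hE
  have hnn : ∀ P : Pol, 0 ≤ v.ord (ev a b P) := fun P => hE.le ⟨P, rfl⟩
  -- a polynomial of positive order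
  obtain ⟨P0, hP0, hP0v⟩ : ∃ P : Pol, P ≠ 0 ∧ 0 < v.ord (ev a b P) := by
    obtain ⟨t, ht⟩ := v.exists_ord_one
    have ht0 : t ≠ 0 := by
      rintro rfl
      rw [v.ord_zero] at ht
      omega
    obtain ⟨P, Q, hQ, rfl⟩ := exists_div h t
    have hP : P ≠ 0 := by
      rintro rfl
      simp at ht0
    rw [DVal.ord_div _ (ev_ne_zero h hP) (ev_ne_zero h hQ)] at ht
    have := hnn Q
    exact ⟨P, hP, by omega⟩
  -- a prime factor of positive order
  obtain ⟨g, hg, hgv⟩ : ∃ g : Pol, Prime g ∧ 0 < v.ord (ev a b g) := by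
    by_contra hcon
    push Not at hcon
    have key : ∀ P : Pol, P ≠ 0 → v.ord (ev a b P) = 0 := by
      intro P
      induction P using UniqueFactorizationMonoid.induction_on_prime with
      | h₁ => intro h0; exact absurd rfl h0
      | h₂ u hu =>
        intro _
        have h1 := hnn u
        obtain ⟨w, hw⟩ := hu.exists_right_inv
        have h2 := hnn w
        have hw0 : w ≠ 0 := by
          rintro rfl
          simp at hw
        have hu0 : u ≠ 0 := by
          rintro rfl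
          simp at hw
        have h3 := v.ord_mul _ _ (ev_ne_zero h hu0) (ev_ne_zero h hw0)
        rw [← map_mul, hw, map_one, v.ord_one] at h3
        omega
      | h₃ P p hP hp ih =>
        intro _
        rw [map_mul, v.ord_mul _ _ (ev_ne_zero h hp.ne_zero) (ev_ne_zero h hP), ih hP]
        have h1 := hnn p
        have h2 := hcon p hp
        omega
    have := key P0 hP0
    omega
  refine ⟨g, hg, ?_⟩
  have hg0 := hg.ne_zero
  -- the claim
  have claim : ∀ P : Pol, P ≠ 0 → 0 < v.ord (ev a b P) → g ∣ P := by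
    intro P hP hPv
    obtain ⟨m, hm⟩ : ∃ m : ℕ, v.ord (ev a b g) = m := ⟨_, (Int.toNat_of_nonneg hgv.le).symm⟩
    obtain ⟨n, hn⟩ : ∃ n : ℕ, v.ord (ev a b P) = n := ⟨_, (Int.toNat_of_nonneg hPv.le).symm⟩
    have hgn : ev a b g ^ n ≠ 0 := pow_ne_zero _ (ev_ne_zero h hg0)
    have hPm : ev a b P ^ m ≠ 0 := pow_ne_zero _ (ev_ne_zero h hP)
    have h1 : v.ord (ev a b g ^ n / ev a b P ^ m) = 0 := by
      rw [DVal.ord_div _ hgn hPm, DVal.ord_pow, DVal.ord_pow, hm, hn]
      ring
    obtain ⟨_, ⟨p, rfl⟩, _, ⟨q, rfl⟩, hq0, hqv, heq⟩ := hE.frac _ h1.ge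
    change ev a b q ≠ 0 at hq0
    change v.ord (ev a b q) = 0 at hqv
    change ev a b g ^ n / ev a b P ^ m = ev a b p / ev a b q at heq
    have hp0 : ev a b p ≠ 0 := by
      intro h0
      rw [h0, zero_div] at heq
      exact div_ne_zero hgn hPm heq
    have hpv : v.ord (ev a b p) = 0 := by
      rw [heq, DVal.ord_div _ hp0 hq0, hqv] at h1
      omega
    rw [div_eq_div_iff hPm hq0, ← map_pow, ← map_pow, ← map_mul, ← map_mul] at heq
    have h2 := ev_injective h heq
    have hn1 : n ≠ 0 := by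
      rintro rfl
      rw [hn] at hPv
      simp at hPv
    have h3 : g ∣ p * P ^ m := by
      rw [← h2]
      exact Dvd.dvd.mul_right (dvd_pow_self g hn1) q
    rcases hg.dvd_or_dvd h3 with h4 | h4
    · exfalso
      obtain ⟨r, rfl⟩ := h4
      have hr0 : r ≠ 0 := by
        rintro rfl
        simp at hp0
      rw [map_mul, v.ord_mul _ _ (ev_ne_zero h hg0) (ev_ne_zero h hr0)] at hpv
      have := hnn r
      omega
    · exact hg.dvd_of_dvd_pow h4
  have hmul : ∀ P : Pol, P ≠ 0 → v.ord (ev a b P) = multiplicity g P * v.ord (ev a b g) := by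
    intro P hP
    obtain ⟨R, hR, hRn⟩ := exists_pow_mul hg hP
    have hR0 : R ≠ 0 := by
      rintro rfl
      exact hRn (dvd_zero g)
    have hRv : v.ord (ev a b R) = 0 := by
      by_contra hne
      have := hnn R
      exact hRn (claim R hR0 (by omega))
    conv_lhs => rw [hR]
    rw [map_mul, map_pow, v.ord_mul _ _ (pow_ne_zero _ (ev_ne_zero h hg0)) (ev_ne_zero h hR0),
      DVal.ord_pow, hRv, add_zero]
  have hone : v.ord (ev a b g) = 1 := by
    obtain ⟨t, ht⟩ := v.exists_ord_one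
    have ht0 : t ≠ 0 := by
      rintro rfl
      rw [v.ord_zero] at ht
      omega
    obtain ⟨P, Q, hQ, rfl⟩ := exists_div h t
    have hP : P ≠ 0 := by
      rintro rfl
      simp at ht0
    rw [DVal.ord_div _ (ev_ne_zero h hP) (ev_ne_zero h hQ), hmul P hP, hmul Q hQ] at ht
    have h1 : v.ord (ev a b g) ∣ 1 := ⟨(multiplicity g P : ℤ) - multiplicity g Q, by
      rw [← ht]; ring⟩
    exact Int.eq_one_of_dvd_one hgv.le h1
  intro P hP
  rw [hmul P hP, hone, mul_one]

end Pool.Agent.LibKB1a
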