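import Pool.Agent.LibKB1a.C2c
import Pool.Agent.LibKB1a.B3
import Pool.Agent.LibKB1a.A2
import Pool.Agent.LibKB1a.C1

/-!
[K.B1a C3] The order function of a closed point.
SKETCH: `isOrd_iff`: (←) `ev a b P = ev a b' (subst c P)`, `multiplicity_subst`. (→) for `R` take
`exists_subst`: `a^N * ev a b' R = ev a b P`, `mdeg P = multiplicity (X 0) (subst c P) =
N + multiplicity (X 0) R`, and `v.ord a = mdeg (X 0) = 1`. Existence: `exists_isPolyVal` for
`(a, b / a)` and `g = X 0` (`MvPolynomial.X_prime` or `MvPolynomial.prime_X`?). Uniqueness: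
`exists_div` (two valuations which agree on `ev a b P` agree). Swap: `mdeg_rename_swap`.
-/

set_option autoImplicit false

open Pool.Agent.LibGMM Pool.Agent.LibK

namespace Pool.Agent.LibKB1a

variable {F : Type} [Field F] [Algebra ℂ F]

private theorem C3_ev_swap (a b : F) (P : Pol) :
    ev b a P = ev a b (MvPolynomial.rename (Equiv.swap (0 : Fin 2) 1) P) := by
  unfold ev
  rw [MvPolynomial.aeval_rename]
  congr 2
  funext i
  fin_cases i <;> simp

private theorem C3_swap {a b : F} {v : DVal F} (hv : IsOrd a b v) : IsOrd b a v := by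
  intro P hP
  rw [C3_ev_swap, hv _ (by
    rwa [Ne, map_eq_zero_iff _
      (MvPolynomial.rename_injective _ (Equiv.swap (0 : Fin 2) 1).injective)]), mdeg_rename_swap]

theorem isOrd_iff {a b : F} (h : IsPlane a b) (c : ℂ) (v : DVal F) :
    IsOrd a b v ↔ IsPolyVal a (b / a - algebraMap ℂ F c) (MvPolynomial.X 0) v := by
  have ha := (ne_zero_of_isPlane h).1
  have hp := isPlane_div h c
  constructor
  · intro hv R hR
    obtain ⟨N, P, hNP⟩ := exists_subst c R
    have hprime : Prime (MvPolynomial.X 0 : Pol) := MvPolynomial.X_prime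
    have hXN : (MvPolynomial.X 0 ^ N : Pol) ≠ 0 := pow_ne_zero _ (MvPolynomial.X_ne_zero 0)
    have hP : P ≠ 0 := by
      rintro rfl
      rw [map_zero] at hNP
      exact mul_ne_zero hXN hR hNP.symm
    have h1 := hv P hP
    have h2 := ev_subst (b := b) ha c P
    rw [hNP, map_mul, map_pow, ev_X0] at h2
    rw [← h2, v.ord_mul _ _ (pow_ne_zero _ ha) (ev_ne_zero hp hR), DVal.ord_pow] at h1
    have h3 : v.ord a = 1 := by
      have h4 := hv (MvPolynomial.X 0) (MvPolynomial.X_ne_zero 0)
      rw [ev_X0, mdeg_X] at h4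
      simpa using h4
    have h5 := multiplicity_subst c hP
    rw [hNP, multiplicity_mul hprime (FiniteMultiplicity.of_prime_left hprime
      (mul_ne_zero hXN hR)), multiplicity_pow_self_of_prime hprime] at h5
    rw [h3] at h1
    rw [← h5] at h1
    push_cast at h1
    linarith
  · intro hv P hP
    rw [← ev_subst (b := b) ha c P, hv _ (subst_ne_zero c hP), multiplicity_subst c hP]

theorem isOrd_swap {a b : F} (v : DVal F) : IsOrd b a v ↔ IsOrd a b v := by
  exact ⟨fun hv => C3_swap hv, fun hv => C3_swap hv⟩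

theorem isOrd_iff' {a b : F} (h : IsPlane a b) (v : DVal F) :
    IsOrd a b v ↔ IsPolyVal b (a / b) (MvPolynomial.X 0) v := by
  rw [← isOrd_swap, isOrd_iff (isPlane_swap h) 0, map_zero, sub_zero]

theorem exists_isOrd {a b : F} (h : IsPlane a b) : ∃ v : DVal F, IsOrd a b v := by
  obtain ⟨v, hv⟩ := exists_isPolyVal (isPlane_div0 h) (g := MvPolynomial.X 0) MvPolynomial.X_prime
  refine ⟨v, (isOrd_iff h 0 v).2 ?_⟩
  rw [map_zero, sub_zero]
  exact hv

theorem IsOrd.unique {a b : F} (h : IsPlane a b) {v w : DVal F} (hv : IsOrd a b v)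
    (hw : IsOrd a b w) : v = w := by
  have key : ∀ f : F, f ≠ 0 → v.ord f = w.ord f := by
    intro f hf
    obtain ⟨P, Q, hQ, hfe⟩ := exists_div h f
    have hP : P ≠ 0 := by
      rintro rfl
      rw [map_zero, zero_div] at hfe
      exact hf hfe
    rw [hfe, DVal.ord_div v (ev_ne_zero h hP) (ev_ne_zero h hQ),
      DVal.ord_div w (ev_ne_zero h hP) (ev_ne_zero h hQ), hv P hP, hv Q hQ, hw P hP, hw Q hQ]
  apply DVal.ext_ring
  intro x hx
  by_cases h0 : x = 0
  · rw [h0, w.ord_zero]
  · rw [← key x h0]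
    exact hx

end Pool.Agent.LibKB1a
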