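import Pool.Agent.LibKB1a.C2c
import Pool.Agent.LibKB1a.C1

/-!
[K.B1a C4] The order function on the local ring.
SKETCH: `f = P / Q` with `Q(0) ≠ 0`: `v.ord f = mdeg P - 0`; `mdeg P > 0` iff `P(0) = 0` iff `f` is a
nonunit (`inv_ev_div_mem_iff`). `mdeg (X i) = 1`.
-/

set_option autoImplicit false

open Pool.Agent.LibGMM Pool.Agent.LibK

namespace Pool.Agent.LibKB1a

variable {F : Type} [Field F] [Algebra ℂ F]

theorem IsOrd.le_ring {a b : F} (h : IsPlane a b) {v : DVal F} (hv : IsOrd a b v) :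
    Oloc a b ≤ v.ring := by
  intro f hf
  obtain ⟨P, Q, hQ, hfe⟩ := (mem_Oloc_iff h).1 hf
  have hQ0 : Q ≠ 0 := by
    rintro rfl
    exact hQ (map_zero _)
  show 0 ≤ v.ord f
  by_cases hP : P = 0
  · rw [hfe, hP, map_zero, zero_div, v.ord_zero]
  · rw [hfe, DVal.ord_div v (ev_ne_zero h hP) (ev_ne_zero h hQ0), hv P hP, hv Q hQ0,
      (mdeg_eq_zero_iff hQ0).2 hQ]
    simp

theorem IsOrd.ord_fst {a b : F} {v : DVal F} (hv : IsOrd a b v) : v.ord a = 1 := by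
  have h1 := hv (MvPolynomial.X 0) (MvPolynomial.X_ne_zero 0)
  rw [ev_X0, mdeg_X] at h1
  simpa using h1

theorem IsOrd.ord_snd {a b : F} {v : DVal F} (hv : IsOrd a b v) : v.ord b = 1 := by
  have h1 := hv (MvPolynomial.X 1) (MvPolynomial.X_ne_zero 1)
  rw [ev_X1, mdeg_X] at h1
  simpa using h1

theorem IsOrd.ord_pos_iff {a b : F} (h : IsPlane a b) {v : DVal F} (hv : IsOrd a b v) {f : F}
    (hf : f ∈ Oloc a b) (hf0 : f ≠ 0) : 0 < v.ord f ↔ f⁻¹ ∉ Oloc a b := by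
  obtain ⟨P, Q, hQ, hfe⟩ := (mem_Oloc_iff h).1 hf
  have hQ0 : Q ≠ 0 := by
    rintro rfl
    exact hQ (map_zero _)
  have hP : P ≠ 0 := by
    rintro rfl
    rw [map_zero, zero_div] at hfe
    exact hf0 hfe
  have h1 := inv_ev_div_mem_iff h hP hQ
  rw [← hfe] at h1
  rw [h1, hfe, DVal.ord_div v (ev_ne_zero h hP) (ev_ne_zero h hQ0), hv P hP, hv Q hQ0,
    (mdeg_eq_zero_iff hQ0).2 hQ, ← mdeg_eq_zero_iff hP]
  push_cast
  omega

theorem IsOrd.dom {a b : F} (h : IsPlane a b) {v : DVal F} (hv : IsOrd a b v) :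
    Dom (Oloc a b) v.toVal := by
  refine ⟨fun f hf => hv.le_ring h hf, fun f hf hf0 hfi hfv => ?_⟩
  have h1 := (hv.ord_pos_iff h hf hf0).2 hfi
  have h2 : 0 ≤ v.ord f⁻¹ := hfv
  rw [DVal.ord_inv] at h2
  omega

end Pool.Agent.LibKB1a
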