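import Pool.Agent.LibKB1a.B4
import Pool.Agent.LibKB1a.C4

/-!
[K.B1a C6] Essential valuations of the local ring.
SKETCH: `ess_Oloc_iff'`: (→) `Aff ≤ Oloc ≤ v.ring`; an element `p / q` with `p, q ∈ Oloc`,
`p = P / S`, `q = Q / T`, `S(0), T(0) ≠ 0`: `p / q = (P T) / (Q S)`, and `v.ord (ev S) = 0` because
`ev S` is a unit of `Oloc ≤ v.ring`; same for `T`. (←) trivial. `ess_Oloc_iff`: `ess_aff_iff`; if
`g(0) ≠ 0` then `ev g` is a unit of `Oloc` but has order 1: contradiction; conversely if `g(0) = 0`,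
a polynomial `Q` with `Q(0) ≠ 0` is not divisible by `g`, so `ord (ev Q) = 0` and `Oloc ≤ v.ring`.
`not_ess`: `b / a` has order `0` for `IsOrd`; if `b / a = p / q` with `q ∈ Oloc` of order 0, then `q`
is a unit of `Oloc`, so `b / a ∈ Oloc`: `b / a = P / Q`, `X1 Q = X0 P`, so `X0 ∣ Q`, contradiction to
`Q(0) ≠ 0`.
-/

set_option autoImplicit false

open Pool.Agent.LibGMM Pool.Agent.LibK

namespace Pool.Agent.LibKB1a

variable {F : Type} [Field F] [Algebra ℂ F]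

private theorem ord_ev_eq_zero_C6 {a b : F} (h : IsPlane a b) {v : DVal F}
    (hv : Oloc a b ≤ v.ring) {S : Pol} (hS : MvPolynomial.constantCoeff S ≠ 0) :
    v.ord (ev a b S) = 0 := by
  have hS0 : S ≠ 0 := by
    rintro rfl
    exact hS (map_zero _)
  have h1 : ev a b S ∈ Oloc a b := Aff_le_Oloc a b (mem_Aff.2 ⟨S, rfl⟩)
  have h2 : (ev a b S)⁻¹ ∈ Oloc a b := by
    have h3 := (inv_ev_div_mem_iff h hS0 (Q := 1) (by simp)).2 hS
    simpa using h3
  have h4 : 0 ≤ v.ord (ev a b S) := (DVal.mem_ring v).1 (hv h1)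
  have h5 : 0 ≤ v.ord (ev a b S)⁻¹ := (DVal.mem_ring v).1 (hv h2)
  rw [DVal.ord_inv] at h5
  omega

theorem ess_Oloc_iff' {a b : F} (h : IsPlane a b) (v : DVal F) :
    Ess (Oloc a b) v ↔ Ess (Aff a b) v ∧ Oloc a b ≤ v.ring := by
  constructor
  · intro hE
    refine ⟨⟨(Aff_le_Oloc a b).trans hE.le, ?_⟩, hE.le⟩
    intro f hf
    obtain ⟨p, hp, q, hq, hq0, hqo, hfe⟩ := hE.frac f hf
    obtain ⟨P, S, hS, hpe⟩ := (mem_Oloc_iff h).1 hp
    obtain ⟨Q, T, hT, hqe⟩ := (mem_Oloc_iff h).1 hq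
    have hS0 : ev a b S ≠ 0 := ev_ne_zero h (by
      rintro rfl
      exact hS (map_zero _))
    have hT0 : ev a b T ≠ 0 := ev_ne_zero h (by
      rintro rfl
      exact hT (map_zero _))
    have hSo := ord_ev_eq_zero_C6 h hE.le hS
    have hTo := ord_ev_eq_zero_C6 h hE.le hT
    have hQ0 : ev a b Q ≠ 0 := by
      intro h0
      apply hq0
      rw [hqe, h0, zero_div]
    have hQo : v.ord (ev a b Q) = 0 := by
      have h1 : v.ord q = v.ord (ev a b Q) - v.ord (ev a b T) := by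
        rw [hqe, DVal.ord_div v hQ0 hT0]
      rw [hqo, hTo] at h1
      omega
    refine ⟨ev a b (P * T), mem_Aff.2 ⟨_, rfl⟩, ev a b (Q * S), mem_Aff.2 ⟨_, rfl⟩, ?_, ?_, ?_⟩
    · rw [map_mul]
      exact mul_ne_zero hQ0 hS0
    · rw [map_mul, DVal.ord_mul' v hQ0 hS0, hQo, hSo]
      rfl
    · rw [hfe, hpe, hqe, map_mul, map_mul]
      field_simp
  · rintro ⟨hA, hle⟩
    refine ⟨hle, ?_⟩
    intro f hf
    obtain ⟨p, hp, q, hq, hq0, hqo, hfe⟩ := hA.frac f hf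
    exact ⟨p, Aff_le_Oloc a b hp, q, Aff_le_Oloc a b hq, hq0, hqo, hfe⟩

theorem ess_Oloc_iff {a b : F} (h : IsPlane a b) (v : DVal F) : Ess (Oloc a b) v ↔
    ∃ g, Prime g ∧ MvPolynomial.constantCoeff g = 0 ∧ IsPolyVal a b g v := by
  rw [ess_Oloc_iff' h]
  constructor
  · rintro ⟨hA, hle⟩
    obtain ⟨g, hg, hgv⟩ := (ess_aff_iff h v).1 hA
    refine ⟨g, hg, ?_, hgv⟩
    by_contra hc
    have h1 := ord_ev_eq_zero_C6 h hle hc
    have h2 := hgv g hg.ne_zero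
    rw [h1, multiplicity_self] at h2
    simp at h2
  · rintro ⟨g, hg, hg0, hgv⟩
    refine ⟨(ess_aff_iff h v).2 ⟨g, hg, hgv⟩, ?_⟩
    intro f hf
    obtain ⟨P, Q, hQ, hfe⟩ := (mem_Oloc_iff h).1 hf
    have hQ0 : Q ≠ 0 := by
      rintro rfl
      exact hQ (map_zero _)
    have hQm : multiplicity g Q = 0 := by
      apply multiplicity_eq_zero.2
      rintro ⟨c, hc⟩
      apply hQ
      rw [hc, map_mul, hg0, zero_mul]
    apply (DVal.mem_ring v).2
    by_cases hP : P = 0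
    · rw [hfe, hP, map_zero, zero_div, DVal.ord_zero']
    · rw [hfe, DVal.ord_div v (ev_ne_zero h hP) (ev_ne_zero h hQ0), hgv P hP, hgv Q hQ0, hQm]
      simp

theorem div_notMem_Oloc {a b : F} (h : IsPlane a b) : b / a ∉ Oloc a b := by
  intro hm
  obtain ⟨P, Q, hQ, he⟩ := mem_Oloc.1 hm
  have ha : a ≠ 0 := by
    have h1 := ev_ne_zero h (P := MvPolynomial.X 0) (MvPolynomial.X_ne_zero 0)
    rwa [ev_X0] at h1
  have h2 : MvPolynomial.X 1 * Q = MvPolynomial.X 0 * P := by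
    apply ev_injective h
    rw [map_mul, map_mul, ev_X0, ev_X1, ← he]
    field_simp
  apply hQ
  have h3 := congrArg (MvPolynomial.coeff (Finsupp.single (1 : Fin 2) 1)) h2
  rw [MvPolynomial.coeff_X_mul', MvPolynomial.coeff_X_mul'] at h3
  simp at h3
  rw [MvPolynomial.constantCoeff_eq]
  exact h3

theorem IsOrd.not_ess {a b : F} (h : IsPlane a b) {v : DVal F} (hv : IsOrd a b v) :
    ¬ Ess (Oloc a b) v := by
  intro hE
  have ha : a ≠ 0 := by
    have h1 := ev_ne_zero h (P := MvPolynomial.X 0) (MvPolynomial.X_ne_zero 0)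
    rwa [ev_X0] at h1
  have hb : b ≠ 0 := by
    have h1 := ev_ne_zero h (P := MvPolynomial.X 1) (MvPolynomial.X_ne_zero 1)
    rwa [ev_X1] at h1
  have h0 : 0 ≤ v.ord (b / a) := by
    rw [DVal.ord_div v hb ha, hv.ord_fst, hv.ord_snd]
    simp
  obtain ⟨p, hp, q, hq, hq0, hqo, hfe⟩ := hE.frac _ h0
  have hq1 : q⁻¹ ∈ Oloc a b := by
    by_contra hc
    have h1 := (hv.ord_pos_iff h hq hq0).2 hc
    omega
  apply div_notMem_Oloc h
  rw [hfe, div_eq_mul_inv]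
  exact mul_mem hp hq1

end Pool.Agent.LibKB1a
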