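import Pool.Agent.LibKB1a.B3
import Pool.Agent.LibKB1a.A2
import Pool.Agent.LibKB1a.C1

/-!
[K.B1a E1] The line at infinity.
SKETCH: the substitution `P ↦ P^*`, `P(x, y) = x^deg P * P^*(1/x, y/x)`: for `P` of degree `d`,
`x⁻¹^d * ev x y P = ev x⁻¹ (y / x) P^*` where `P^* = ∑ coeff_(i,j) X0^(d-i-j) X1^j`, and `X0 ∤ P^*`
(the part of degree `d` of `P` gives `P^*(0, T) = P_d(1, T) ≠ 0`). So the valuation of `X 0` for the
plane `(x⁻¹, y / x)` has `ord (ev x y P) = - d`. Conversely a `v` with `IsInf` satisfies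
`v.ord x⁻¹ = 1` and for each `R`: `x^N * ev x⁻¹ (y/x) R = ev x y P` for some `P`, `N`, and one reads
off the multiplicity of `X0` in `R` (or: uniqueness: `IsInf` determines `v` on all fractions, and the
valuation of `X 0` satisfies `IsInf`, so they are equal). `IsInf` is symmetric in `x`, `y`
(`totalDegree` is invariant under renaming by a bijection).
-/

set_option autoImplicit false

open Pool.Agent.LibGMM Pool.Agent.LibK

namespace Pool.Agent.LibKB1a

variable {F : Type} [Field F] [Algebra ℂ F]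

theorem E1_scale {A : Type} [CommRing A] [Algebra ℂ A] {Q : Pol} {n : ℕ} (hQ : Q.IsHomogeneous n)
    (c u v : A) : MvPolynomial.aeval ![c * u, c * v] Q = c ^ n * MvPolynomial.aeval ![u, v] Q := by
  rw [MvPolynomial.aeval_def, MvPolynomial.aeval_def, MvPolynomial.eval₂_eq',
    MvPolynomial.eval₂_eq', Finset.mul_sum]
  refine Finset.sum_congr rfl fun m hm => ?_
  have h1 : m.degree = n := by
    by_contra h
    exact (MvPolynomial.mem_support_iff.1 hm) (hQ.coeff_eq_zero h)
  rw [Finsupp.degree_eq_sum, Fin.sum_univ_two] at h1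
  rw [Fin.prod_univ_two, Fin.prod_univ_two, ← h1]
  simp only [Matrix.cons_val_zero, Matrix.cons_val_one]
  rw [mul_pow, mul_pow, pow_add]
  ring

/-- `P^*`. -/
noncomputable def E1_star (P : Pol) : Pol :=
  ∑ n ∈ Finset.range (P.totalDegree + 1), MvPolynomial.X 0 ^ (P.totalDegree - n) *
    MvPolynomial.aeval ![(1 : Pol), MvPolynomial.X 1] (MvPolynomial.homogeneousComponent n P)

theorem E1_ev_star {x y : F} (hx : x ≠ 0) (P : Pol) :
    ev x⁻¹ (y / x) (E1_star P) = x⁻¹ ^ P.totalDegree * ev x y P := by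
  have h1 : ∀ Q : Pol, ev x⁻¹ (y / x) (MvPolynomial.aeval ![(1 : Pol), MvPolynomial.X 1] Q) =
      MvPolynomial.aeval ![(1 : F), y / x] Q := by
    have : (ev x⁻¹ (y / x)).comp (MvPolynomial.aeval ![(1 : Pol), MvPolynomial.X 1]) =
        MvPolynomial.aeval ![(1 : F), y / x] := by
      apply MvPolynomial.algHom_ext
      intro i
      fin_cases i
      · simp
      · simp
    intro Q
    exact DFunLike.congr_fun this Q
  have h2 : ev x y P = ∑ n ∈ Finset.range (P.totalDegree + 1),
      ev x y (MvPolynomial.homogeneousComponent n P) := by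
    rw [← map_sum, MvPolynomial.sum_homogeneousComponent]
  rw [h2, E1_star, map_sum, Finset.mul_sum]
  refine Finset.sum_congr rfl fun n hn => ?_
  rw [map_mul, map_pow, ev_X0, h1]
  have h3 : ev x y (MvPolynomial.homogeneousComponent n P) =
      x ^ n * MvPolynomial.aeval ![(1 : F), y / x] (MvPolynomial.homogeneousComponent n P) := by
    rw [← E1_scale (MvPolynomial.homogeneousComponent_isHomogeneous n P) x 1 (y / x), mul_one,
      mul_div_cancel₀ _ hx]
    rfl
  rw [h3, ← mul_assoc]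
  congr 1
  have h4 : n ≤ P.totalDegree := Nat.lt_succ_iff.1 (Finset.mem_range.1 hn)
  obtain ⟨k, hk⟩ := Nat.exists_eq_add_of_le h4
  rw [hk, Nat.add_sub_cancel_left, pow_add, mul_comm (x⁻¹ ^ n), mul_assoc, ← mul_pow,
    inv_mul_cancel₀ hx, one_pow, mul_one]

theorem E1_top_ne_zero {P : Pol} (hP : P ≠ 0) :
    MvPolynomial.homogeneousComponent P.totalDegree P ≠ 0 := by
  have h0 : P.support.Nonempty := MvPolynomial.support_nonempty.2 hP
  obtain ⟨m, hm, hm'⟩ := Finset.exists_mem_eq_sup P.support h0 (fun s => s.sum fun _ e => e)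
  intro h
  have h1 : MvPolynomial.coeff m (MvPolynomial.homogeneousComponent P.totalDegree P) = 0 := by
    rw [h, MvPolynomial.coeff_zero]
  rw [MvPolynomial.coeff_homogeneousComponent, if_pos] at h1
  · exact (MvPolynomial.mem_support_iff.1 hm) h1
  · exact hm'.symm

theorem E1_eval_ne_zero {Q : Pol} {n : ℕ} (hQ : Q.IsHomogeneous n) (hQ0 : Q ≠ 0) :
    ∃ t : ℂ, MvPolynomial.eval ![1, t] Q ≠ 0 := by
  by_contra hcon
  push Not at hcon
  have h1 : (MvPolynomial.X 0 : Pol) * Q = 0 := by
    apply MvPolynomial.funext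
    intro f
    rw [map_mul, MvPolynomial.eval_X, map_zero]
    by_cases h2 : f 0 = 0
    · rw [h2, zero_mul]
    · have h3 := E1_scale hQ (f 0) 1 (f 1 / f 0)
      have h4 : (![f 0 * 1, f 0 * (f 1 / f 0)] : Fin 2 → ℂ) = f := by
        rw [mul_one, mul_div_cancel₀ _ h2]
        funext i
        fin_cases i <;> rfl
      rw [h4] at h3
      have h5 : MvPolynomial.eval f Q = 0 := by
        have h6 : MvPolynomial.aeval ![(1 : ℂ), f 1 / f 0] Q = 0 := hcon (f 1 / f 0)
        rw [h6, mul_zero] at h3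
        exact h3
      rw [h5, mul_zero]
  rcases mul_eq_zero.1 h1 with h2 | h2
  · exact MvPolynomial.X_ne_zero _ h2
  · exact hQ0 h2

theorem E1_not_dvd {P : Pol} (hP : P ≠ 0) : ¬ (MvPolynomial.X 0 : Pol) ∣ E1_star P := by
  rintro ⟨R, hR⟩
  obtain ⟨t, ht⟩ := E1_eval_ne_zero
    (MvPolynomial.homogeneousComponent_isHomogeneous P.totalDegree P) (E1_top_ne_zero hP)
  apply ht
  have h1 : MvPolynomial.eval ![0, t] (E1_star P) = 0 := by
    rw [hR, map_mul, MvPolynomial.eval_X]
    simp
  have h2 : ∀ Q : Pol, MvPolynomial.eval ![0, t]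
      (MvPolynomial.aeval ![(1 : Pol), MvPolynomial.X 1] Q) = MvPolynomial.eval ![1, t] Q := by
    have : (MvPolynomial.eval ![0, t]).comp
        ((MvPolynomial.aeval ![(1 : Pol), MvPolynomial.X 1] : Pol →ₐ[ℂ] Pol) : Pol →+* Pol) =
        MvPolynomial.eval ![1, t] := by
      apply MvPolynomial.ringHom_ext
      · intro r
        simp
      · intro i
        fin_cases i
        · simp
        · simp
    intro Q
    exact DFunLike.congr_fun this Q
  rw [E1_star, map_sum, Finset.sum_range_succ] at h1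
  rw [Finset.sum_eq_zero, zero_add, map_mul, h2, Nat.sub_self, pow_zero, map_one, one_mul] at h1
  · exact h1
  · intro n hn
    have h3 : P.totalDegree - n ≠ 0 := by
      have := Finset.mem_range.1 hn
      omega
    rw [map_mul, map_pow, MvPolynomial.eval_X, Matrix.cons_val_zero, zero_pow h3, zero_mul]

theorem IsInf.unique {x y : F} (h : IsPlane x y) {v w : DVal F} (hv : IsInf x y v)
    (hw : IsInf x y w) : v = w := by
  apply DVal.ext_ring
  intro f hf
  obtain ⟨P, Q, hQ, hfe⟩ := exists_div h f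
  by_cases hP : P = 0
  · rw [hfe, hP, map_zero, zero_div, DVal.ord_zero]
  · have h1 := ev_ne_zero h hP
    have h2 := ev_ne_zero h hQ
    rw [hfe, DVal.ord_div _ h1 h2, hv P hP, hv Q hQ] at hf
    rw [hfe, DVal.ord_div _ h1 h2, hw P hP, hw Q hQ]
    exact hf

theorem E1_isInf {x y : F} (h : IsPlane x y) {v : DVal F}
    (hv : IsPolyVal x⁻¹ (y / x) (MvPolynomial.X 0) v) : IsInf x y v := by
  intro P hP
  have hx := (ne_zero_of_isPlane h).1
  have h1 : E1_star P ≠ 0 := by
    intro h2
    apply E1_not_dvd hP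
    rw [h2]
    exact dvd_zero _
  have h2 := hv (E1_star P) h1
  have h3 : multiplicity (MvPolynomial.X 0) (E1_star P) = 0 :=
    multiplicity_eq_zero.2 (E1_not_dvd hP)
  have h4 := hv (MvPolynomial.X 0) (MvPolynomial.X_ne_zero _)
  have h5 : multiplicity (MvPolynomial.X 0 : Pol) (MvPolynomial.X 0) = 1 := multiplicity_self
  rw [ev_X0, h5] at h4
  rw [h3, E1_ev_star hx, v.ord_mul _ _ (pow_ne_zero _ (inv_ne_zero hx)) (ev_ne_zero h hP),
    DVal.ord_pow, h4] at h2
  push_cast at h2
  linarith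

theorem isInf_iff {x y : F} (h : IsPlane x y) (v : DVal F) :
    IsInf x y v ↔ IsPolyVal x⁻¹ (y / x) (MvPolynomial.X 0) v := by
  refine ⟨fun hv => ?_, E1_isInf h⟩
  obtain ⟨w, hw⟩ := exists_isPolyVal (isPlane_inv h) (MvPolynomial.X_prime (R := ℂ) (i := 0))
  rw [hv.unique h (E1_isInf h hw)]
  exact hw

theorem exists_isInf {x y : F} (h : IsPlane x y) : ∃ v : DVal F, IsInf x y v := by
  obtain ⟨w, hw⟩ := exists_isPolyVal (isPlane_inv h) (MvPolynomial.X_prime (R := ℂ) (i := 0))
  exact ⟨w, E1_isInf h hw⟩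

theorem E1_swap {x y : F} (v : DVal F) (hv : IsInf x y v) : IsInf y x v := by
  intro P hP
  have h1 : ev y x P = ev x y (MvPolynomial.rename (Equiv.swap (0 : Fin 2) 1) P) := by
    have : ev y x = (ev x y).comp (MvPolynomial.rename (Equiv.swap (0 : Fin 2) 1)) := by
      apply MvPolynomial.algHom_ext
      intro i
      fin_cases i
      · simp [ev]
      · simp [ev]
    exact DFunLike.congr_fun this P
  have h2 : MvPolynomial.rename (Equiv.swap (0 : Fin 2) 1) P ≠ 0 := by
    intro h3
    apply hP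
    apply MvPolynomial.rename_injective _ (Equiv.swap (0 : Fin 2) 1).injective
    rw [h3, map_zero]
  rw [h1, hv _ h2]
  have h3 := MvPolynomial.totalDegree_renameEquiv (Equiv.swap (0 : Fin 2) 1) P
  rw [MvPolynomial.renameEquiv_apply] at h3
  rw [h3]

theorem isInf_swap {x y : F} (v : DVal F) : IsInf y x v ↔ IsInf x y v :=
  ⟨E1_swap v, E1_swap v⟩

end Pool.Agent.LibKB1a
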