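import Pool.Agent.LibKB1a.G2
import Pool.Agent.LibKB1a.C3
import Pool.Agent.LibKB1a.E1
import Pool.Agent.LibKB1a.C6

/-!
[K.B1a G3] The canonical divisor of a surface.
SKETCH: `ders_ess`: for `Ess (Aff a b) v` the derivations `∂/∂a`, `∂/∂b` map `O_v` into itself
(`Aff a b` is stable, `D(p/q) = (q Dp - p Dq)/q²`), so `canOrd_of_jac` gives
`canOrd v ω = v.ord g` for `ω = g da ∧ db` (`canOrd_aff`). `canOrd_isOrd`: `E` is essential for
`Aff a (b/a)`, `ω = g da ∧ db = (g a) da ∧ d(b/a)` (`jac_div`, `det_crd`), so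
`canOrd E ω = E.ord g + 1`. Line at infinity: essential for `Aff x⁻¹ (y/x)`;
`dx ∧ dy = - a^(-3) da ∧ db` for `(a, b) = (x⁻¹, y/x)` (compute `jac a b (x, y)` with `x = a⁻¹`,
`y = b/a`: `∂_a x = -a⁻²`, `∂_b y = a⁻¹`), so `canOrd = v.ord g - 3`.
`exists_isLocal`: at a point `Oloc a b ∈ pts`: `ω = g da ∧ db`; for the primes `v` through it
(`Ess (Oloc a b) v`, so `Ess (Aff a b) v`) `canOrd v ω = v.ord g`.
-/

set_option autoImplicit false

open Pool.Agent.LibGMM Pool.Agent.LibK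

namespace Pool.Agent.LibKB1a

variable {F : Type} [Field F] [Algebra ℂ F]

theorem ders_mem_Aff {a b : F} {D : Derivation ℂ F F} (ha : D a ∈ Aff a b)
    (hb : D b ∈ Aff a b) {f : F} (hf : f ∈ Aff a b) : D f ∈ Aff a b := by
  obtain ⟨P, rfl⟩ := hf
  change D (ev a b P) ∈ Aff a b
  induction P using MvPolynomial.induction_on with
  | C c =>
    rw [ev_C, Derivation.map_algebraMap]
    exact zero_mem _
  | add p q hp hq =>
    rw [map_add, map_add]
    exact add_mem hp hq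
  | mul_X p i hp =>
    rw [map_mul, Derivation.leibniz, smul_eq_mul, smul_eq_mul]
    have hX : ev a b (MvPolynomial.X i) ∈ Aff a b := ⟨_, rfl⟩
    have hp' : ev a b p ∈ Aff a b := ⟨_, rfl⟩
    have hDX : D (ev a b (MvPolynomial.X i)) ∈ Aff a b := by
      fin_cases i
      · simpa using ha
      · simpa using hb
    exact add_mem (mul_mem hp' hDX) (mul_mem hX hp)

theorem ders_mem_ring {a b : F} {v : DVal F} (hv : Ess (Aff a b) v) {D : Derivation ℂ F F}
    (ha : D a ∈ Aff a b) (hb : D b ∈ Aff a b) {f : F} (hf : 0 ≤ v.ord f) : D f ∈ v.ring := by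
  obtain ⟨p, hp, q, hq, hq0, hq1, rfl⟩ := hv.frac f hf
  have hqi : q⁻¹ ∈ v.ring := by
    rw [v.mem_ring, v.ord_inv, hq1]
    simp
  have h1 : D (p / q) = q⁻¹ * q⁻¹ * (q * D p - p * D q) := by
    have h2 : D (p / q * q) = D p := by rw [div_mul_cancel₀ _ hq0]
    rw [Derivation.leibniz, smul_eq_mul, smul_eq_mul] at h2
    have h3 : D p = p / q * D q + q * D (p / q) := h2.symm
    rw [h3]
    field_simp
    ring
  rw [h1]
  exact mul_mem (mul_mem hqi hqi) (sub_mem (mul_mem (hv.le hq) (hv.le (ders_mem_Aff ha hb hp)))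
    (mul_mem (hv.le hp) (hv.le (ders_mem_Aff ha hb hq))))

theorem canOrd_aff {a b : F} (h : IsPlane a b) {v : DVal F} (hv : Ess (Aff a b) v)
    {ω : TopForm F} {g : F} (hg : g ≠ 0)
    (hω : ∀ D : Fin (dimK F) → Derivation ℂ F F,
      ω D = g * Matrix.det fun i j => D i (crd a b j)) : canOrd v ω = v.ord g := by
  obtain ⟨D1, D2, hD⟩ := exists_isDers h
  have haA : a ∈ Aff a b := ⟨MvPolynomial.X 0, ev_X0 a b⟩
  have hbA : b ∈ Aff a b := ⟨MvPolynomial.X 1, ev_X1 a b⟩
  refine canOrd_of_jac h (hv.le haA) (hv.le hbA) hD ?_ hg hω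
  intro u w hu hw
  right
  have h1 : ∀ f, 0 ≤ v.ord f → D1 f ∈ v.ring := fun f hf => ders_mem_ring hv
    (by rw [hD.h11]; exact one_mem _) (by rw [hD.h12]; exact zero_mem _) hf
  have h2 : ∀ f, 0 ≤ v.ord f → D2 f ∈ v.ring := fun f hf => ders_mem_ring hv
    (by rw [hD.h21]; exact zero_mem _) (by rw [hD.h22]; exact one_mem _) hf
  have h3 : jac D1 D2 u w ∈ v.ring :=
    sub_mem (mul_mem (h1 u hu) (h2 w hw)) (mul_mem (h2 u hu) (h1 w hw))
  exact h3

theorem crd_change {a b a' b' : F} (h' : IsPlane a' b') {D1 D2 : Derivation ℂ F F}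
    (hD : IsDers a' b' D1 D2) {ω : TopForm F} {g : F}
    (hω : ∀ D : Fin (dimK F) → Derivation ℂ F F,
      ω D = g * Matrix.det fun i j => D i (crd a b j)) (D : Fin (dimK F) → Derivation ℂ F F) :
    ω D = g * jac D1 D2 a b * Matrix.det fun i j => D i (crd a' b' j) := by
  have h2 := dimK_eq_two h'
  have l0 : 0 < dimK F := by omega
  have l1 : 1 < dimK F := by omega
  rw [hω D, det_crd h' hD (crd a b) ⟨0, l0⟩ ⟨1, l1⟩ rfl rfl D]
  simp only [crd, if_true, one_ne_zero, if_false]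
  ring

theorem prime_X0_G3 : Prime (MvPolynomial.X 0 : Pol) := MvPolynomial.X_prime

theorem canOrd_isOrd {a b : F} (h : IsPlane a b) {E : DVal F} (hE : IsOrd a b E)
    {ω : TopForm F} {g : F} (hg : g ≠ 0)
    (hω : ∀ D : Fin (dimK F) → Derivation ℂ F F,
      ω D = g * Matrix.det fun i j => D i (crd a b j)) : canOrd E ω = E.ord g + 1 := by
  obtain ⟨D1, D2, hD⟩ := exists_isDers h
  have h' := isPlane_div h 0
  obtain ⟨D1', D2', hD'⟩ := exists_isDers h'
  have ha0 := (ne_zero_of_isPlane h).1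
  have hess : Ess (Aff a (b / a - algebraMap ℂ F 0)) E :=
    IsPolyVal.ess h' prime_X0_G3 ((isOrd_iff h 0 E).1 hE)
  have hj : jac D1' D2' a b = a := by
    rw [jac_div h hD hD' a b]
    simp [jac, hD.h11, hD.h12, hD.h21, hD.h22]
  have hω' := crd_change h' hD' hω
  rw [hj] at hω'
  rw [canOrd_aff h' hess (mul_ne_zero hg ha0) hω', E.ord_mul _ _ hg ha0, hE.ord_fst]

theorem canOrd_isInf {x y : F} (h : IsPlane x y) {v : DVal F} (hv : IsInf x y v)
    {ω : TopForm F} {g : F} (hg : g ≠ 0)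
    (hω : ∀ D : Fin (dimK F) → Derivation ℂ F F,
      ω D = g * Matrix.det fun i j => D i (crd x y j)) : canOrd v ω = v.ord g - 3 := by
  have h' := isPlane_inv h
  obtain ⟨D1, D2, hD⟩ := exists_isDers h'
  have hx0 := (ne_zero_of_isPlane h).1
  have hess : Ess (Aff x⁻¹ (y / x)) v := IsPolyVal.ess h' prime_X0_G3 ((isInf_iff h v).1 hv)
  have ex1 : D1 x = - x ^ 2 := by
    have h2 : D1 (x * x⁻¹) = D1 1 := by rw [mul_inv_cancel₀ hx0]
    rw [Derivation.leibniz, smul_eq_mul, smul_eq_mul, hD.h11, Derivation.map_one_eq_zero] at h2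
    have h3 : x⁻¹ * D1 x = - x := by linear_combination h2
    calc D1 x = x * (x⁻¹ * D1 x) := by field_simp
      _ = - x ^ 2 := by rw [h3]; ring
  have ex2 : D2 x = 0 := by
    have h2 : D2 (x * x⁻¹) = D2 1 := by rw [mul_inv_cancel₀ hx0]
    rw [Derivation.leibniz, smul_eq_mul, smul_eq_mul, hD.h21, Derivation.map_one_eq_zero] at h2
    have h3 : x⁻¹ * D2 x = 0 := by linear_combination h2
    rcases mul_eq_zero.1 h3 with h4 | h4
    · exact absurd h4 (inv_ne_zero hx0)
    · exact h4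
  have ey2 : D2 y = x := by
    have h2 : D2 (y / x * x) = D2 y := by rw [div_mul_cancel₀ _ hx0]
    rw [Derivation.leibniz, smul_eq_mul, smul_eq_mul, hD.h22, ex2] at h2
    rw [← h2]
    ring
  have hj : jac D1 D2 x y = - x ^ 3 := by
    unfold jac
    rw [ex1, ex2, ey2]
    ring
  have hω' := crd_change h' hD hω
  rw [hj] at hω'
  have hx3 : - x ^ 3 ≠ 0 := neg_ne_zero.2 (pow_ne_zero 3 hx0)
  have hvx : v.ord x = -1 := by
    have h2 := hv (MvPolynomial.X 0) (MvPolynomial.X_ne_zero 0)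
    rw [ev_X0, MvPolynomial.totalDegree_X] at h2
    exact_mod_cast h2
  rw [canOrd_aff h' hess (mul_ne_zero hg hx3) hω', v.ord_mul _ _ hg hx3, v.ord_neg, v.ord_pow, hvx]
  norm_num
  ring

/-- The canonical divisor near a point: `canOrd · ω` is the divisor of `g` near the point, and the
exceptional divisor has coefficient `ord g + 1`. -/
theorem exists_canOrd_local {a b : F} (h : IsPlane a b) {E : DVal F} (hE : IsOrd a b E)
    {ω : TopForm F} (hω : ω ≠ 0) : ∃ g : F, g ≠ 0 ∧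
      (∀ v, Ess (Oloc a b) v → canOrd v ω = v.ord g) ∧ canOrd E ω = E.ord g + 1 := by
  obtain ⟨g, hg, hω'⟩ := exists_form h hω
  exact ⟨g, hg, fun v hv => canOrd_aff h ((ess_Oloc_iff' h v).1 hv).1 hg hω',
    canOrd_isOrd h hE hg hω'⟩

/-- The canonical divisor of the plane is `-3` times the line at infinity plus the divisor of a
function. -/
theorem exists_canOrd_plane {x y : F} (h : IsPlane x y) {ω : TopForm F} (hω : ω ≠ 0) :
    ∃ g : F, g ≠ 0 ∧ (∀ v, Ess (Aff x y) v → canOrd v ω = v.ord g) ∧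
      ∀ v, IsInf x y v → canOrd v ω = v.ord g - 3 := by
  obtain ⟨g, hg, hω'⟩ := exists_form h hω
  exact ⟨g, hg, fun v hv => canOrd_aff h hv hg hω', fun v hv => canOrd_isInf h hv hg hω'⟩

end Pool.Agent.LibKB1a
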