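import Pool.Agent.LibKB1a.C8
import Pool.Agent.LibKB1a.A3

/-!
[K.B1a C9a] Centres of valuation rings on the affine plane.
SKETCH: `nonunitIdeal`: `{p | ev p = 0 ∨ (ev p)⁻¹ ∉ W}` is a prime ideal of `Pol` (it is
`{p | W.valuation (ev p) < 1}`, `ValuationSubring.valuation_lt_one_iff`, `valuation_le_one_iff`;
`W.valuation (ev p) ≤ 1` for all `p`). `exists_point_le`: take `(α, β)` from `exists_point_of_prime`;
`Q(α, β) ≠ 0` implies that `ev Q` is a unit of `W`; an element of `Oloc (a - α) (b - β)` is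
`ev a b P / ev a b Q` with `Q(α, β) ≠ 0` (`ev (a - α) (b - β) Q' = ev a b (Q'(X - α, Y - β))`,
substitution `aeval ![X 0 - C α, X 1 - C β]`). `Oloc_le_of_maximal`: if `a`, `b` are in the maximal
ideal of `W` (zero or inverse not in `W`) and constants are in `W`: a `Q` with `Q(0) ≠ 0` is a unit
of `W`. `exists_point_le0`: `a` in the maximal ideal: `X 0` is in the prime ideal, so `α = 0`.
-/

set_option autoImplicit false

open Pool.Agent.LibGMM Pool.Agent.LibK

namespace Pool.Agent.LibKB1a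

variable {F : Type} [Field F] [Algebra ℂ F]

theorem C9a_lt_one (W : ValuationSubring F) (x : F) (hx : x ∈ W) :
    W.valuation x < 1 ↔ (x = 0 ∨ x⁻¹ ∉ W) := by
  by_cases h0 : x = 0
  · subst h0
    simp
  · have h1 : W.valuation x ≠ 0 := (Valuation.ne_zero_iff _).2 h0
    rw [← W.valuation_le_one_iff, map_inv₀, not_le]
    constructor
    · intro h
      exact Or.inr ((one_lt_inv₀ (zero_lt_iff.2 h1)).2 h)
    · rintro (h | h)
      · exact absurd h h0
      · exact (one_lt_inv₀ (zero_lt_iff.2 h1)).1 h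

theorem exists_nonunitIdeal {a b : F} (W : ValuationSubring F) (hW : ∀ f ∈ Aff a b, f ∈ W) :
    ∃ P : Ideal Pol, P.IsPrime ∧ ∀ p, p ∈ P ↔ (ev a b p = 0 ∨ (ev a b p)⁻¹ ∉ W) := by
  let φ : Pol →+* W := (ev a b : Pol →+* F).codRestrict W fun p => hW _ ⟨p, rfl⟩
  refine ⟨(IsLocalRing.maximalIdeal W).comap φ, Ideal.comap_isPrime φ _, fun p => ?_⟩
  rw [Ideal.mem_comap, W.valuation_lt_one_iff]
  exact C9a_lt_one W (ev a b p) (hW _ ⟨p, rfl⟩)

theorem C9a_point {a b : F} (W : ValuationSubring F) (hW : ∀ f ∈ Aff a b, f ∈ W) (P : Ideal Pol)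
    (hP : ∀ p, p ∈ P ↔ (ev a b p = 0 ∨ (ev a b p)⁻¹ ∉ W)) (α β : ℂ)
    (hα : ∀ p ∈ P, MvPolynomial.eval ![α, β] p = 0) :
    ∀ f ∈ Oloc (a - algebraMap ℂ F α) (b - algebraMap ℂ F β), f ∈ W := by
  let τ : Pol →ₐ[ℂ] Pol := MvPolynomial.aeval
    ![MvPolynomial.X 0 - MvPolynomial.C α, MvPolynomial.X 1 - MvPolynomial.C β]
  have h1 : ∀ R, ev a b (τ R) = ev (a - algebraMap ℂ F α) (b - algebraMap ℂ F β) R := by
    have : (ev a b).comp τ = ev (a - algebraMap ℂ F α) (b - algebraMap ℂ F β) := by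
      apply MvPolynomial.algHom_ext
      intro i
      fin_cases i
      · simp [τ, ev]
      · simp [τ, ev]
    intro R
    exact DFunLike.congr_fun this R
  have h2 : ∀ R, MvPolynomial.eval ![α, β] (τ R) = MvPolynomial.constantCoeff R := by
    have : (MvPolynomial.eval ![α, β]).comp (τ : Pol →+* Pol) = MvPolynomial.constantCoeff := by
      apply MvPolynomial.ringHom_ext
      · intro r
        simp [τ]
      · intro i
        fin_cases i
        · simp [τ]
        · simp [τ]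
    intro R
    exact DFunLike.congr_fun this R
  rintro f ⟨R, Q, hQ, hf⟩
  rw [← h1, ← h1] at hf
  have h3 : τ Q ∉ P := by
    intro h
    apply hQ
    rw [← h2]
    exact hα _ h
  rw [hP, not_or, not_not] at h3
  have h4 : f = ev a b (τ R) * (ev a b (τ Q))⁻¹ := by
    rw [← hf, mul_assoc, mul_inv_cancel₀ h3.1, mul_one]
  rw [h4]
  exact W.mul_mem _ _ (hW _ ⟨_, rfl⟩) h3.2

theorem exists_point_le {a b : F} (h : IsPlane a b) (W : ValuationSubring F)
    (hW : ∀ f ∈ Aff a b, f ∈ W) :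
    ∃ α β : ℂ, ∀ f ∈ Oloc (a - algebraMap ℂ F α) (b - algebraMap ℂ F β), f ∈ W := by
  obtain ⟨P, hP, hm⟩ := exists_nonunitIdeal W hW
  obtain ⟨α, β, hα⟩ := exists_point_of_prime P hP
  exact ⟨α, β, C9a_point W hW P hm α β hα⟩

theorem exists_point_le0 {a b : F} (h : IsPlane a b) (W : ValuationSubring F)
    (hW : ∀ f ∈ Aff a b, f ∈ W) (ha : a⁻¹ ∉ W) :
    ∃ β : ℂ, ∀ f ∈ Oloc a (b - algebraMap ℂ F β), f ∈ W := by
  obtain ⟨P, hP, hm⟩ := exists_nonunitIdeal W hW
  obtain ⟨α, β, hα⟩ := exists_point_of_prime P hP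
  have h1 : (MvPolynomial.X 0 : Pol) ∈ P := by
    rw [hm, ev_X0]
    exact Or.inr ha
  have h2 : α = 0 := by
    simpa using hα _ h1
  have h3 := C9a_point W hW P hm α β hα
  rw [h2, map_zero, sub_zero] at h3
  exact ⟨β, h3⟩

theorem Oloc_le_of_maximal {a b : F} (h : IsPlane a b) (W : ValuationSubring F)
    (hC : ∀ c : ℂ, algebraMap ℂ F c ∈ W) (ha : a ∈ W) (hb : b ∈ W) (ha' : a⁻¹ ∉ W)
    (hb' : b⁻¹ ∉ W) : ∀ f ∈ Oloc a b, f ∈ W := by
  have hW : ∀ f ∈ Aff a b, f ∈ W := by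
    rintro f ⟨p, rfl⟩
    change ev a b p ∈ W
    induction p using MvPolynomial.induction_on with
    | C c => rw [ev_C]; exact hC c
    | add p q hp hq => rw [map_add]; exact W.add_mem _ _ hp hq
    | mul_X p i hp =>
      rw [map_mul]
      refine W.mul_mem _ _ hp ?_
      fin_cases i
      · change ev a b (MvPolynomial.X 0) ∈ W
        rw [ev_X0]; exact ha
      · change ev a b (MvPolynomial.X 1) ∈ W
        rw [ev_X1]; exact hb
  obtain ⟨P, hP, hm⟩ := exists_nonunitIdeal W hW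
  obtain ⟨α, β, hα⟩ := exists_point_of_prime P hP
  have h1 : (MvPolynomial.X 0 : Pol) ∈ P := by
    rw [hm, ev_X0]
    exact Or.inr ha'
  have h1' : (MvPolynomial.X 1 : Pol) ∈ P := by
    rw [hm, ev_X1]
    exact Or.inr hb'
  have h2 : α = 0 := by
    simpa using hα _ h1
  have h2' : β = 0 := by
    simpa using hα _ h1'
  have h3 := C9a_point W hW P hm α β hα
  rw [h2, h2', map_zero, sub_zero, sub_zero] at h3
  exact h3

end Pool.Agent.LibKB1a
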