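import Pool.Agent.LibKB1a.C3
import Pool.Agent.LibKB1a.C6

/-!
[K.B1a D1] Prime divisors through the points of the blow-up.
SKETCH (for `q = Oloc a b'`, `b' = b / a - c`; the other kind of point follows by `Oloc_swap`,
`isOrd_swap`). (←) `E`: it is the valuation of `X 0` for `(a, b')` (`isOrd_iff`), use `ess_Oloc_iff`
for `(a, b')`. `Ess (Oloc a b) v` and `q ≤ v.ring`: `Oloc a b ≤ q` and the fractions of `Ess` stay.
(→) `v` is the valuation of a prime `g` for `(a, b')`, `g(0) = 0`. If `g` is associated to `X 0` then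
`v = E` (`isOrd_iff`). Otherwise `v.ord a = 0`. Show `Ess (Aff a b) v`: `Aff a b ≤ Aff a b'`; a
fraction `ev a b' P / ev a b' Q` with `v.ord (ev a b' Q) = 0` is multiplied by a power of `a`:
`a^N ev a b' P, a^N ev a b' Q ∈ Aff a b` (`exists_subst`), the second of order 0. Then
`ess_Oloc_iff'`.
-/

set_option autoImplicit false

open Pool.Agent.LibGMM Pool.Agent.LibK

namespace Pool.Agent.LibKB1a

variable {F : Type} [Field F] [Algebra ℂ F]

open MvPolynomial in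
theorem d1_const (c : ℂ) (Q : Pol) : constantCoeff (subst c Q) = constantCoeff Q := by
  induction Q using MvPolynomial.induction_on with
  | C r => simp [subst]
  | add p q hp hq => rw [map_add, map_add, map_add, hp, hq]
  | mul_X p i hp =>
    rw [map_mul, map_mul, map_mul, hp]
    fin_cases i <;> simp [subst]

theorem d1_le {a b : F} (h : IsPlane a b) (c : ℂ) :
    Oloc a b ≤ Oloc a (b / a - algebraMap ℂ F c) := by
  intro f hf
  obtain ⟨P, Q, hQ, hPQ⟩ := mem_Oloc.1 hf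
  refine mem_Oloc.2 ⟨subst c P, subst c Q, ?_, ?_⟩
  · rw [d1_const]
    exact hQ
  · rw [ev_subst (ne_zero_of_isPlane h).1, ev_subst (ne_zero_of_isPlane h).1, hPQ]

theorem Oloc_le_over {a b : F} (h : IsPlane a b) {q : Subalgebra ℂ F} (hq : q ∈ overPts a b) :
    Oloc a b ≤ q := by
  rcases hq with ⟨c, rfl⟩ | rfl
  · exact d1_le h c
  · have h1 := d1_le (isPlane_swap h) 0
    rw [map_zero, sub_zero, Oloc_swap] at h1
    exact h1

theorem d1_frac {B : Subalgebra ℂ F} {v : DVal F} {t : F} (ht : t ∈ B) (ht0 : t ≠ 0)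
    (htv : v.ord t = 0) {f p q : F} (hf : f = p / q) (hq : q ≠ 0) (hqv : v.ord q = 0) {N M : ℕ}
    (hp' : t ^ N * p ∈ B) (hq' : t ^ M * q ∈ B) :
    ∃ p' ∈ B, ∃ q' ∈ B, q' ≠ 0 ∧ v.ord q' = 0 ∧ f = p' / q' := by
  have h0 : t ^ N ≠ 0 := pow_ne_zero N ht0
  have h1 : t ^ M ≠ 0 := pow_ne_zero M ht0
  refine ⟨t ^ M * (t ^ N * p), B.mul_mem (B.pow_mem ht M) hp', t ^ N * (t ^ M * q),
    B.mul_mem (B.pow_mem ht N) hq', mul_ne_zero h0 (mul_ne_zero h1 hq), ?_, ?_⟩
  · rw [v.ord_mul _ _ h0 (mul_ne_zero h1 hq), v.ord_mul _ _ h1 hq, v.ord_pow, v.ord_pow, htv, hqv]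
    ring
  · rw [hf]
    field_simp

theorem d1_main {a b : F} (h : IsPlane a b) {E : DVal F} (hE : IsOrd a b E) (c : ℂ)
    (v : DVal F) : Ess (Oloc a (b / a - algebraMap ℂ F c)) v ↔
      v = E ∨ (Ess (Oloc a b) v ∧ Oloc a (b / a - algebraMap ℂ F c) ≤ v.ring) := by
  have h' := isPlane_div h c
  have ha0 := (ne_zero_of_isPlane h).1
  constructor
  · intro hv
    have hv' := ((ess_Oloc_iff' h' v).1 hv).1
    have haA : a ∈ Aff a (b / a - algebraMap ℂ F c) := mem_Aff.2 ⟨MvPolynomial.X 0, ev_X0 _ _⟩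
    have ha : 0 ≤ v.ord a := v.mem_ring.1 (hv'.le haA)
    rcases ha.lt_or_eq with h1 | h1
    · left
      have h2 := isPolyVal_of_ord_pos h' MvPolynomial.X_prime hv' (by rw [ev_X0]; exact h1)
      exact IsOrd.unique h ((isOrd_iff h c v).2 h2) hE
    · right
      refine ⟨(ess_Oloc_iff' h v).2 ⟨⟨?_, ?_⟩, (d1_le h c).trans hv.le⟩, hv.le⟩
      · exact (Aff_le_Oloc a b).trans ((d1_le h c).trans hv.le)
      · intro f hf
        obtain ⟨p, hp, q, hq, hq0, hqv, hfpq⟩ := hv'.frac f hf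
        obtain ⟨P, rfl⟩ := mem_Aff.1 hp
        obtain ⟨Q, rfl⟩ := mem_Aff.1 hq
        obtain ⟨N, P1, hP1⟩ := exists_subst c P
        obtain ⟨M, Q1, hQ1⟩ := exists_subst c Q
        refine d1_frac (mem_Aff.2 ⟨MvPolynomial.X 0, ev_X0 _ _⟩) ha0 h1.symm hfpq hq0 hqv
          (N := N) (M := M) ?_ ?_
        · refine mem_Aff.2 ⟨P1, ?_⟩
          rw [← ev_subst ha0 c P1, hP1, map_mul, map_pow, ev_X0]
        · refine mem_Aff.2 ⟨Q1, ?_⟩
          rw [← ev_subst ha0 c Q1, hQ1, map_mul, map_pow, ev_X0]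
  · rintro (rfl | ⟨hv, hle⟩)
    · exact (ess_Oloc_iff h' v).2 ⟨MvPolynomial.X 0, MvPolynomial.X_prime,
        MvPolynomial.constantCoeff_X _ _, (isOrd_iff h c v).1 hE⟩
    · refine ⟨hle, fun f hf => ?_⟩
      obtain ⟨p, hp, q, hq, hq0, hqv, hfpq⟩ := hv.frac f hf
      exact ⟨p, d1_le h c hp, q, d1_le h c hq, hq0, hqv, hfpq⟩

theorem ess_over {a b : F} (h : IsPlane a b) {E : DVal F} (hE : IsOrd a b E)
    {q : Subalgebra ℂ F} (hq : q ∈ overPts a b) (v : DVal F) :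
    Ess q v ↔ v = E ∨ (Ess (Oloc a b) v ∧ q ≤ v.ring) := by
  rcases hq with ⟨c, rfl⟩ | rfl
  · exact d1_main h hE c v
  · have h1 := d1_main (isPlane_swap h) ((isOrd_swap E).2 hE) 0 v
    rw [map_zero, sub_zero, Oloc_swap a b] at h1
    exact h1

end Pool.Agent.LibKB1a
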