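import Pool.Agent.LibKB1a.C3
import Pool.Agent.LibKB1a.B1
import Pool.Agent.LibKB1a.C4
import Pool.Agent.LibKB1a.D1
import Pool.Agent.LibKB1a.C9a

/-!
[K.B1a D3] Centres on the blow-up.
SKETCH: `a` and `b` are nonunits of `Oloc a b` and `W` dominates it. Let `b / a ∈ W` first. If there
is `c ∈ ℂ` with `b / a - c` in the maximal ideal of `W` (zero or inverse not in `W`), then
`q = Oloc a (b / a - c)` is dominated by `W`: a polynomial in `(a, b / a - c)` with nonzero constant
term is a unit of `W`, one with zero constant term is in the maximal ideal. If `b / a ∉ W` then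
`a / b` is in the maximal ideal and `q = Oloc b (a / b)` is dominated. Otherwise all `b / a - c` are
units of `W`; then every nonzero polynomial `R(T)` over `ℂ` has `R(b / a)` a unit of `W`
(`IsAlgClosed`: product of linear factors); an element of `E.toVal` is `ev a b' P / ev a b' Q`
(`b' = b / a`, `isOrd_iff`, `IsPolyVal.ess`) with `X0 ∤ Q`, so `Q = Q(0, X1) + X0 Q'`,
`ev a b' Q = unit + element of the maximal ideal` is a unit of `W`: `E.toVal ≤ W`; `a⁻¹ ∉ W`, so
`W ≠ ⊤` and `W = E.toVal` (`eq_or_top_of_toVal_le`).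
-/

set_option autoImplicit false

open Pool.Agent.LibGMM Pool.Agent.LibK

namespace Pool.Agent.LibKB1a

variable {F : Type} [Field F] [Algebra ℂ F]

theorem D3_aff {a b : F} (W : ValuationSubring F)
    (hC : ∀ c : ℂ, algebraMap ℂ F c ∈ W) (ha : a ∈ W) (hb : b ∈ W) : ∀ f ∈ Aff a b, f ∈ W := by
  rintro f ⟨p, rfl⟩
  change ev a b p ∈ W
  induction p using MvPolynomial.induction_on with
  | C c => rw [ev_C]; exact hC c
  | add p q hp hq => rw [map_add]; exact W.add_mem _ _ hp hq
  | mul_X p i hp =>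
    rw [map_mul]
    refine W.mul_mem _ _ hp ?_
    fin_cases i
    · change ev a b (MvPolynomial.X 0) ∈ W
      rw [ev_X0]; exact ha
    · change ev a b (MvPolynomial.X 1) ∈ W
      rw [ev_X1]; exact hb

theorem D3_lt {a b : F} (W : ValuationSubring F)
    (hC : ∀ c : ℂ, algebraMap ℂ F c ∈ W) (ha : a ∈ W) (hb : b ∈ W)
    (ha' : W.valuation a < 1) (hb' : W.valuation b < 1) (p : Pol) :
    W.valuation (ev a b p - algebraMap ℂ F (MvPolynomial.constantCoeff p)) < 1 := by
  induction p using MvPolynomial.induction_on with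
  | C c =>
    rw [ev_C, MvPolynomial.constantCoeff_C, sub_self, map_zero]
    exact zero_lt_one
  | add p q hp hq =>
    have : ev a b (p + q) - algebraMap ℂ F (MvPolynomial.constantCoeff (p + q)) =
        (ev a b p - algebraMap ℂ F (MvPolynomial.constantCoeff p)) +
          (ev a b q - algebraMap ℂ F (MvPolynomial.constantCoeff q)) := by
      rw [map_add, map_add, map_add]
      ring
    rw [this]
    exact Valuation.map_add_lt _ hp hq
  | mul_X p i _ =>
    have h1 : W.valuation (ev a b p) ≤ 1 :=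
      (W.valuation_le_one_iff _).2 (D3_aff W hC ha hb _ ⟨p, rfl⟩)
    rw [map_mul, map_mul, MvPolynomial.constantCoeff_X, mul_zero, map_zero, sub_zero, map_mul]
    have h2 : W.valuation (ev a b (MvPolynomial.X i)) < 1 := by
      fin_cases i
      · change W.valuation (ev a b (MvPolynomial.X 0)) < 1
        rw [ev_X0]; exact ha'
      · change W.valuation (ev a b (MvPolynomial.X 1)) < 1
        rw [ev_X1]; exact hb'
    exact mul_lt_one_of_nonneg_of_lt_one_right h1 zero_le h2

theorem D3_dom {a b : F} (h : IsPlane a b) (W : ValuationSubring F)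
    (hC : ∀ c : ℂ, algebraMap ℂ F c ∈ W) (ha : a ∈ W) (hb : b ∈ W) (ha' : a⁻¹ ∉ W)
    (hb' : b⁻¹ ∉ W) : Dom (Oloc a b) W := by
  have hle := Oloc_le_of_maximal h W hC ha hb ha' hb'
  refine ⟨hle, ?_⟩
  intro f hf hf0 hfi
  obtain ⟨P, Q, hQ, hfe⟩ := (mem_Oloc_iff h).1 hf
  have hP0 : P ≠ 0 := by
    rintro rfl
    apply hf0
    rw [hfe, map_zero, zero_div]
  rw [hfe, inv_ev_div_mem_iff h hP0 hQ, not_not] at hfi
  have h1 := D3_lt W hC ha hb ((C9a_lt_one W a ha).2 (Or.inr ha'))
    ((C9a_lt_one W b hb).2 (Or.inr hb')) P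
  rw [hfi, map_zero, sub_zero] at h1
  have h2 : (ev a b Q)⁻¹ ∈ W := by
    apply hle
    exact (mem_Oloc_iff h).2 ⟨1, Q, hQ, by rw [map_one, one_div]⟩
  have h3 : W.valuation f < 1 := by
    rw [hfe, div_eq_mul_inv, map_mul]
    exact mul_lt_one_of_lt_of_le h1 ((W.valuation_le_one_iff _).2 h2)
  rcases (C9a_lt_one W f (hle f hf)).1 h3 with h4 | h4
  · exact absurd h4 hf0
  · exact h4

theorem D3_facts {a b : F} (h : IsPlane a b) {E : DVal F} (hE : IsOrd a b E)
    (W : ValuationSubring F) (hW : Dom (Oloc a b) W) :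
    (∀ c : ℂ, algebraMap ℂ F c ∈ W) ∧ a ∈ W ∧ b ∈ W ∧ a⁻¹ ∉ W ∧ b⁻¹ ∉ W := by
  have ha : a ∈ Oloc a b := Aff_le_Oloc a b ⟨MvPolynomial.X 0, ev_X0 a b⟩
  have hb : b ∈ Oloc a b := Aff_le_Oloc a b ⟨MvPolynomial.X 1, ev_X1 a b⟩
  have h0 := ne_zero_of_isPlane h
  refine ⟨fun c => hW.1 _ (Subalgebra.algebraMap_mem _ c), hW.1 _ ha, hW.1 _ hb, ?_, ?_⟩
  · apply hW.2 a ha h0.1
    rw [← hE.ord_pos_iff h ha h0.1, hE.ord_fst]
    exact one_pos
  · apply hW.2 b hb h0.2
    rw [← hE.ord_pos_iff h hb h0.2, hE.ord_snd]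
    exact one_pos

theorem dom_over_or {a b : F} (h : IsPlane a b) {E : DVal F} (hE : IsOrd a b E)
    (W : ValuationSubring F) (hW : Dom (Oloc a b) W) :
    (∃ q ∈ overPts a b, Dom q W) ∨ W = E.toVal := by
  obtain ⟨hC, ha, hb, ha', hb'⟩ := D3_facts h hE W hW
  by_cases hba : b / a ∈ W
  · have hb1 : b / a - algebraMap ℂ F 0 ∈ W := by
      rw [map_zero, sub_zero]
      exact hba
    have hA := D3_aff W hC ha hb1
    obtain ⟨P, hP, hm⟩ := exists_nonunitIdeal W hA
    have hX : (MvPolynomial.X 0 : Pol) ∈ P := by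
      rw [hm, ev_X0]
      exact Or.inr ha'
    rcases prime_ideal_cases P hP with h1 | ⟨g, hg, h1⟩ | ⟨α, β, h1⟩
    · exfalso
      rw [h1, Ideal.mem_bot] at hX
      exact MvPolynomial.X_ne_zero _ hX
    · right
      have hP' : P = Ideal.span {(MvPolynomial.X 0 : Pol)} := by
        rw [h1, Ideal.mem_span_singleton] at hX
        rw [h1, Ideal.span_singleton_eq_span_singleton]
        exact hg.associated_of_dvd (MvPolynomial.X_prime (i := 0)) hX
      have hle : E.toVal ≤ W := by
        intro f hf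
        have hE' := (isOrd_iff h 0 E).1 hE
        have hess := hE'.ess (isPlane_div h 0) (MvPolynomial.X_prime (i := 0))
        obtain ⟨p, hp, q, ⟨Q, hQ⟩, hq0, hq1, hfe⟩ := hess.frac f ((DVal.mem_toVal E).1 hf)
        change ev a (b / a - algebraMap ℂ F 0) Q = q at hQ
        have hQ0 : Q ≠ 0 := by
          rintro rfl
          exact hq0 (by rw [← hQ, map_zero])
        have h2 : Q ∉ P := by
          rw [hP', Ideal.mem_span_singleton]
          intro h3
          have h4 := hE' Q hQ0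
          rw [hQ, hq1] at h4
          have h5 : multiplicity (MvPolynomial.X 0) Q = 0 := by exact_mod_cast h4.symm
          have h6 : FiniteMultiplicity (MvPolynomial.X 0 : Pol) Q :=
            FiniteMultiplicity.of_prime_left (MvPolynomial.X_prime (i := 0)) hQ0
          exact (multiplicity_eq_zero.1 h5) h3
        rw [hm, not_or, not_not, hQ] at h2
        rw [hfe, div_eq_mul_inv]
        exact W.mul_mem _ _ (hA p hp) h2.2
      rcases eq_or_top_of_toVal_le hle with h2 | h2
      · exact h2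
      · exfalso
        apply ha'
        rw [h2]
        trivial
    · left
      have hX1 : (MvPolynomial.X 1 - MvPolynomial.C β : Pol) ∈ P := by
        rw [h1]
        simp
      rw [hm, map_sub, ev_X1, ev_C, map_zero, sub_zero] at hX1
      have h2 : (b / a - algebraMap ℂ F β)⁻¹ ∉ W := by
        rcases hX1 with h3 | h3
        · exact absurd h3 (ne_zero_of_isPlane (isPlane_div h β)).2
        · exact h3
      exact ⟨_, Or.inl ⟨β, rfl⟩, D3_dom (isPlane_div h β) W hC ha (sub_mem hba (hC β)) ha' h2⟩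
  · left
    refine ⟨_, Or.inr rfl, D3_dom (isPlane_div' h) W hC hb ?_ hb' ?_⟩
    · rcases W.mem_or_inv_mem (b / a) with h1 | h1
      · exact absurd h1 hba
      · rwa [inv_div] at h1
    · rwa [inv_div]

theorem exists_over_of_dom {a b : F} (h : IsPlane a b) (W : ValuationSubring F)
    (hW : Dom (Oloc a b) W) : ∃ q ∈ overPts a b, ∀ f ∈ q, f ∈ W := by
  obtain ⟨E, hE⟩ := exists_isOrd h
  rcases dom_over_or h hE W hW with ⟨q, hq, hd⟩ | h1
  · exact ⟨q, hq, hd.1⟩
  · refine ⟨Oloc b (a / b), Or.inr rfl, fun f hf => ?_⟩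
    have h2 : Ess (Oloc b (a / b)) E := (ess_over h hE (Or.inr rfl) E).2 (Or.inl rfl)
    rw [h1]
    exact (DVal.mem_toVal E).2 ((DVal.mem_ring E).1 (h2.le hf))

end Pool.Agent.LibKB1a
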