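import Pool.Agent.LibKB1a.Defs

/-!
[K.B1a C2a] The substitution of the blow-up.
SKETCH: `ev_subst`: both sides are algebra homs in `P`, equal on `X 0`, `X 1`
(`MvPolynomial.algHom_ext`; `a * ((b / a - c) + c) = b`). `subst_ne_zero`: `subst c` is injective
(compose with evaluation: e.g. `MvPolynomial` over a field; `subst c P = 0` gives
`P(s, s (t + c)) = 0` for all `s, t`, so `P(s, t) = 0` for all `s ≠ 0`, `P = 0` by
`MvPolynomial.funext` applied to `X 0 * P`). `exists_subst`: induction on `R` (`MvPolynomial.induction_on`):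
constants; sums (take the maximum of the two exponents); `R * X 0`: `P * X 0`; `R * X 1`:
`X0^(N+1) R X1 = subst c (P * (X 1 - c X 0))`.
-/

set_option autoImplicit false

open Pool.Agent.LibGMM Pool.Agent.LibK

namespace Pool.Agent.LibKB1a

variable {F : Type} [Field F] [Algebra ℂ F]

/-- The substitution `(X, Y) ↦ (X, X (Y + c))`. -/
noncomputable def subst (c : ℂ) : Pol →ₐ[ℂ] Pol :=
  MvPolynomial.aeval ![MvPolynomial.X 0,
    MvPolynomial.X 0 * (MvPolynomial.X 1 + MvPolynomial.C c)]

@[simp] private theorem C2a_X0 (c : ℂ) : subst c (MvPolynomial.X 0) = MvPolynomial.X 0 := by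
  simp [subst]

@[simp] private theorem C2a_X1 (c : ℂ) : subst c (MvPolynomial.X 1) =
    MvPolynomial.X 0 * (MvPolynomial.X 1 + MvPolynomial.C c) := by
  simp [subst]

@[simp] private theorem C2a_C (c r : ℂ) : subst c (MvPolynomial.C r) = MvPolynomial.C r := by
  simp [subst]

theorem ev_subst {a b : F} (ha : a ≠ 0) (c : ℂ) (P : Pol) :
    ev a (b / a - algebraMap ℂ F c) (subst c P) = ev a b P := by
  have h : (ev a (b / a - algebraMap ℂ F c)).comp (subst c) = ev a b := by
    apply MvPolynomial.algHom_ext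
    intro i
    fin_cases i
    · simp
    · simp only [Fin.mk_one, Fin.isValue, AlgHom.coe_comp, Function.comp_apply, C2a_X1, map_mul,
        map_add, ev_X0, ev_X1, ev_C]
      field_simp
      ring
  rw [← h]
  rfl

theorem subst_ne_zero (c : ℂ) {P : Pol} (hP : P ≠ 0) : subst c P ≠ 0 := by
  intro h0
  set G := FractionRing Pol with hG
  have ha : algebraMap Pol G (MvPolynomial.X 0) ≠ 0 := by
    rw [Ne, map_eq_zero_iff _ (IsFractionRing.injective Pol G)]
    exact MvPolynomial.X_ne_zero 0
  have h1 := ev_subst (b := algebraMap Pol G (MvPolynomial.X 1)) ha c P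
  rw [h0, map_zero] at h1
  have h2 : ev (algebraMap Pol G (MvPolynomial.X 0)) (algebraMap Pol G (MvPolynomial.X 1)) =
      IsScalarTower.toAlgHom ℂ Pol G := by
    apply MvPolynomial.algHom_ext
    intro i
    fin_cases i <;> simp
  rw [h2] at h1
  have h3 : algebraMap Pol G P = 0 := h1.symm
  rw [map_eq_zero_iff _ (IsFractionRing.injective Pol G)] at h3
  exact hP h3

/-- Every polynomial in `(a, b / a - c)` times a power of `a` is a polynomial in `(a, b)`. -/
theorem exists_subst (c : ℂ) (R : Pol) : ∃ (N : ℕ) (P : Pol),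
    subst c P = MvPolynomial.X 0 ^ N * R := by
  induction R using MvPolynomial.induction_on with
  | C r => exact ⟨0, MvPolynomial.C r, by simp⟩
  | add R1 R2 h1 h2 =>
    obtain ⟨N1, P1, h1⟩ := h1
    obtain ⟨N2, P2, h2⟩ := h2
    refine ⟨N1 + N2, MvPolynomial.X 0 ^ N2 * P1 + MvPolynomial.X 0 ^ N1 * P2, ?_⟩
    simp only [map_add, map_mul, map_pow, C2a_X0, h1, h2]
    ring
  | mul_X R i h =>
    obtain ⟨N, P, h⟩ := h
    fin_cases i
    · refine ⟨N, P * MvPolynomial.X 0, ?_⟩
      rw [map_mul, C2a_X0, h]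
      exact mul_assoc _ _ _
    · refine ⟨N + 1, P * (MvPolynomial.X 1 - MvPolynomial.C c * MvPolynomial.X 0), ?_⟩
      simp only [map_mul, map_sub, C2a_X0, C2a_X1, C2a_C, h]
      ring_nf
      rfl

end Pool.Agent.LibKB1a
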