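import Pool.Agent.LibKB1a.C4
import Pool.Agent.LibKB1a.A2
import Pool.Agent.LibKB1a.C2a

/-!
[K.B1a D4] The points over a point: coordinates and domination.
SKETCH: `coord_over`: `isPlane_div`, `isPlane_div'`. `over_dom`: `f = ev a b P / ev a b Q`,
`P(0) = 0 ≠ Q(0)` (`inv_ev_div_mem_iff`); `ev a b P = ev a b' (subst c P)` and
`subst c P` has the same constant coefficient; again `inv_ev_div_mem_iff` for `(a, b')`. The point
`Oloc b (a / b)` by `Oloc_swap`.
-/

set_option autoImplicit false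

open Pool.Agent.LibGMM Pool.Agent.LibK

namespace Pool.Agent.LibKB1a

variable {F : Type} [Field F] [Algebra ℂ F]

open MvPolynomial in
theorem d4_const (c : ℂ) (Q : Pol) : constantCoeff (subst c Q) = constantCoeff Q := by
  induction Q using MvPolynomial.induction_on with
  | C r => simp [subst]
  | add p q hp hq => rw [map_add, map_add, map_add, hp, hq]
  | mul_X p i hp =>
    rw [map_mul, map_mul, map_mul, hp]
    fin_cases i <;> simp [subst]

theorem coord_over {a b : F} (h : IsPlane a b) {q : Subalgebra ℂ F} (hq : q ∈ overPts a b) :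
    ∃ a' b', IsPlane a' b' ∧ q = Oloc a' b' := by
  rcases hq with ⟨c, rfl⟩ | rfl
  · exact ⟨_, _, isPlane_div h c, rfl⟩
  · exact ⟨_, _, isPlane_div' h, rfl⟩

theorem d4_main {a b : F} (h : IsPlane a b) (c : ℂ) {f : F} (hf : f ∈ Oloc a b) (hf0 : f ≠ 0)
    (hinv : f⁻¹ ∉ Oloc a b) : f⁻¹ ∉ Oloc a (b / a - algebraMap ℂ F c) := by
  obtain ⟨P, Q, hQ, hPQ⟩ := (mem_Oloc_iff h).1 hf
  have hP : P ≠ 0 := by
    rintro rfl
    rw [map_zero, zero_div] at hPQ
    exact hf0 hPQ
  have h1 : MvPolynomial.constantCoeff P = 0 := by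
    by_contra hcon
    rw [hPQ, inv_ev_div_mem_iff h hP hQ] at hinv
    exact hinv hcon
  have ha0 := (ne_zero_of_isPlane h).1
  rw [hPQ, ← ev_subst ha0 c P, ← ev_subst ha0 c Q,
    inv_ev_div_mem_iff (isPlane_div h c) (subst_ne_zero c hP) (by rw [d4_const]; exact hQ), d4_const]
  exact not_not.2 h1

theorem over_dom {a b : F} (h : IsPlane a b) {q : Subalgebra ℂ F} (hq : q ∈ overPts a b) {f : F}
    (hf : f ∈ Oloc a b) (hf0 : f ≠ 0) (hinv : f⁻¹ ∉ Oloc a b) : f⁻¹ ∉ q := by
  rcases hq with ⟨c, rfl⟩ | rfl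
  · exact d4_main h c hf hf0 hinv
  · rw [← Oloc_swap a b] at hf hinv
    have h1 := d4_main (isPlane_swap h) 0 hf hf0 hinv
    rw [map_zero, sub_zero] at h1
    exact h1

end Pool.Agent.LibKB1a
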