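import Pool.Agent.LibKB1a.BR0
import Pool.Agent.LibKB1a.D3
import Pool.Agent.LibKB1a.D4

/-!
[K.B1a BR5] Domination by points over `x`; infinitely many points over `x`.
SKETCH: `dom_over_or`, `over_of_mem`, `vdom_iff`. Infinite: `c ↦ Oloc a (b/a - c)` is injective
(`b/a - c` is a nonunit of it, so `b/a - c' = (b/a - c) + (c - c')` is a unit: `exists_residue`).
-/

set_option autoImplicit false

open Pool.Agent.LibGMM Pool.Agent.LibK
open Pool.Agent.LibKB (Coord ordP Over VDom Ge IsDiv sec Gen LocEqn frm Kc clOf h0 PreSurf mem_sec)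

namespace Pool.Agent.LibKB1a

variable {F : Type} [Field F] [Algebra ℂ F]

theorem loc_dom_over {x : Subalgebra ℂ F} {a b : F} {E : DVal F} (h : Coord x a b)
    (hE : Pool.Agent.LibKB.IsOrd x E) (V : ValuationSubring F) (hV : VDom x V) :
    (∀ f, f ∈ V ↔ 0 ≤ E.ord f) ∨ ∃ y, Over x y ∧ VDom y V := by
  have hE' := (isOrd_iff_coord h E).1 hE
  have hV' := (vdom_iff x V).1 hV
  obtain ⟨h1, h2⟩ := coord_iff.1 h
  rw [h2] at hV'
  rcases dom_over_or h1 hE' V hV' with ⟨q, hq, hqV⟩ | h3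
  · exact Or.inr ⟨q, over_of_mem h hq, (vdom_iff q V).2 hqV⟩
  · left
    intro f
    rw [h3]
    rfl

private theorem br5_mem {a b : F} (h : IsPlane a b) : b ∈ Oloc a b ∧ b⁻¹ ∉ Oloc a b := by
  refine ⟨Aff_le_Oloc _ _ ⟨MvPolynomial.X 1, ev_X1 _ _⟩, fun h1 => ?_⟩
  have h2 := (inv_ev_div_mem_iff h (P := MvPolynomial.X 1) (Q := 1)
    MvPolynomial.X_prime.ne_zero (by simp)).1 (by rw [ev_X1, map_one, div_one]; exact h1)
  exact h2 (MvPolynomial.constantCoeff_X _ _)

theorem Oloc_div_injective {a b : F} (h : IsPlane a b) :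
    Function.Injective fun c : ℂ => Oloc a (b / a - algebraMap ℂ F c) := by
  intro c c' hcc
  simp only at hcc
  obtain ⟨φ, hφ, -⟩ := exists_residue (isPlane_div h c)
  obtain ⟨m1, n1⟩ := br5_mem (isPlane_div h c)
  obtain ⟨m2, n2⟩ := br5_mem (isPlane_div h c')
  rw [← hcc] at m2 n2
  have e1 := (hφ ⟨_, m1⟩).2 (Or.inr n1)
  have e2 := (hφ ⟨_, m2⟩).2 (Or.inr n2)
  have e3 : (⟨_, m1⟩ : Oloc a (b / a - algebraMap ℂ F c)) - ⟨_, m2⟩ =
      algebraMap ℂ _ (c' - c) := by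
    apply Subtype.ext
    simp only [AddSubgroupClass.coe_sub, Subalgebra.coe_algebraMap, map_sub]
    ring
  have e4 := congrArg φ e3
  rw [map_sub, e1, e2, AlgHom.commutes, sub_zero] at e4
  have e5 : c' - c = 0 := e4.symm
  exact (sub_eq_zero.1 e5).symm

theorem loc_infinite_over {x : Subalgebra ℂ F} {a b : F} (h : Coord x a b) :
    {y | Over x y}.Infinite := by
  obtain ⟨h1, -⟩ := coord_iff.1 h
  apply Set.infinite_of_injective_forall_mem (Oloc_div_injective h1)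
  intro c
  exact over_of_mem h (Or.inl ⟨c, rfl⟩)

end Pool.Agent.LibKB1a
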