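import Pool.Agent.LibKB1a.BR0
import Pool.Agent.LibKB1a.G3

/-!
[K.B1a BR6] The canonical order in the form of LibKB.Loc; divisorial valuations.
SKETCH: `exists_canOrd_local`. `divisorial_of_ess`: `Ess (Oloc a b) ν` gives `Ess (Aff a b) ν`
(`ess_Oloc_iff'`), and `Aff a b = adjoin {a, b}` is finitely generated
(`Subalgebra.fg_adjoin_finset`/`AlgHom.range` of a finitely generated algebra).
-/

set_option autoImplicit false

open Pool.Agent.LibGMM Pool.Agent.LibK
open Pool.Agent.LibKB (Coord ordP Over VDom Ge IsDiv sec Gen LocEqn frm Kc clOf h0 PreSurf mem_sec)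

namespace Pool.Agent.LibKB1a

variable {F : Type} [Field F] [Algebra ℂ F]

theorem loc_canOrd_ess {x : Subalgebra ℂ F} {a b : F} {E : DVal F} (h : Coord x a b)
    (hE : Pool.Agent.LibKB.IsOrd x E) (ω : TopForm F) (hω : ω ≠ 0) :
    ∃ w : F, w ≠ 0 ∧ (∀ ν ∈ Pool.Agent.LibKB.Ess x, canOrd ν ω = ν.ord w) ∧
      canOrd E ω = E.ord w + 1 := by
  obtain ⟨hp, hx⟩ := coord_iff.1 h
  obtain ⟨g, hg, h1, h2⟩ := exists_canOrd_local hp ((isOrd_iff_coord h E).1 hE) hω
  refine ⟨g, hg, fun ν hν => h1 ν ?_, h2⟩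
  have h3 := (ess_iff x ν).1 hν
  rwa [hx] at h3

theorem divisorial_of_ess {x : Subalgebra ℂ F} {a b : F} (h : Coord x a b) {ν : DVal F}
    (hν : ν ∈ Pool.Agent.LibKB.Ess x) : ν.Divisorial := by
  obtain ⟨hp, hx⟩ := coord_iff.1 h
  have h3 := (ess_iff x ν).1 hν
  rw [hx] at h3
  have h4 := ((ess_Oloc_iff' hp ν).1 h3).1
  have hfg : (Aff a b).FG := by
    have h5 : (⊤ : Subalgebra ℂ Pol).FG := (inferInstance : Algebra.FiniteType ℂ Pol).out
    have h6 := h5.map (ev a b)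
    rwa [Algebra.map_top] at h6
  exact ⟨Aff a b, hfg, fun a ha => h4.le ha, fun f hf => h4.frac f hf⟩

end Pool.Agent.LibKB1a
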