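import Pool.Agent.LibKB1a.C6

/-!
[K.B1a C7] The local ring is factorial: local equations of divisors, regular functions.
SKETCH: for each `v` with `n v ≠ 0` take the prime `g_v` of `ess_Oloc_iff`; `f = ∏ ev g_v ^ n v`
(`v'.ord (ev g_v) = 0` for `v' ≠ v` by `isPolyVal_of_ord_pos`/`associated`, `1` for `v' = v`).
`mem_Oloc_of_ess`: `f = P / Q` with `P`, `Q` coprime (`IsRelPrime`, exists in a UFD:
`UniqueFactorizationMonoid`/`exists_reduced_factors`); if `Q(0) = 0` a prime factor `g` of `Q` has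
`g(0) = 0`, and its valuation is negative on `f`. `exists_ess_pos`: `f = P / Q`, `P(0) = 0`, take a
prime factor `g` of `P` with `g(0) = 0`.
-/

set_option autoImplicit false

open Pool.Agent.LibGMM Pool.Agent.LibK

namespace Pool.Agent.LibKB1a

variable {F : Type} [Field F] [Algebra ℂ F]

/-- The order of a polynomial divisible by the prime `g`. -/
theorem IsPolyVal.pos_iff {a b : F} {g : Pol} {v : DVal F} (hv : IsPolyVal a b g v) {P : Pol}
    (hP : P ≠ 0) : 0 < v.ord (ev a b P) ↔ g ∣ P := by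
  rw [hv P hP, ← multiplicity_ne_zero (a := g) (b := P)]
  omega

theorem IsPolyVal.nonneg {a b : F} {g : Pol} {v : DVal F} (hv : IsPolyVal a b g v) {P : Pol}
    (hP : P ≠ 0) : 0 ≤ v.ord (ev a b P) := by
  rw [hv P hP]
  exact Int.natCast_nonneg _

theorem IsPolyVal.eq_zero {a b : F} {g : Pol} {v : DVal F} (hv : IsPolyVal a b g v) {P : Pol}
    (hP : P ≠ 0) (hg : ¬ g ∣ P) : v.ord (ev a b P) = 0 := by
  rw [hv P hP, multiplicity_eq_zero.2 hg, Nat.cast_zero]

/-- A nonzero polynomial vanishing at the origin has a prime factor vanishing at the origin. -/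
theorem exists_prime_factor {R : Pol} (hR : R ≠ 0) (hR0 : MvPolynomial.constantCoeff R = 0) :
    ∃ g, Prime g ∧ MvPolynomial.constantCoeff g = 0 ∧ g ∣ R := by
  induction R using UniqueFactorizationMonoid.induction_on_prime with
  | h₁ => exact absurd rfl hR
  | h₂ x hx =>
    have h1 : IsUnit (MvPolynomial.constantCoeff x) := hx.map _
    rw [hR0] at h1
    exact absurd h1 not_isUnit_zero
  | h₃ x p hx hp ih =>
    rw [map_mul] at hR0
    rcases mul_eq_zero.1 hR0 with h1 | h1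
    · exact ⟨p, hp, h1, Dvd.intro _ rfl⟩
    · obtain ⟨g, hg1, hg2, hg3⟩ := ih hx h1
      exact ⟨g, hg1, hg2, hg3.trans (Dvd.intro_left _ rfl)⟩

theorem exists_local_eq {a b : F} (h : IsPlane a b) (n : DVal F → ℤ)
    (hn : {v | Ess (Oloc a b) v ∧ n v ≠ 0}.Finite) :
    ∃ f : F, f ≠ 0 ∧ ∀ v, Ess (Oloc a b) v → v.ord f = n v := by
  classical
  have hg : ∀ v : DVal F, ∃ g : Pol, Ess (Oloc a b) v → Prime g ∧
      MvPolynomial.constantCoeff g = 0 ∧ IsPolyVal a b g v := by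
    intro v
    by_cases hv : Ess (Oloc a b) v
    · obtain ⟨g, hg⟩ := (ess_Oloc_iff h v).1 hv
      exact ⟨g, fun _ => hg⟩
    · exact ⟨0, fun h' => absurd h' hv⟩
  choose g hg using hg
  have hne : ∀ v ∈ hn.toFinset, ev a b (g v) ^ n v ≠ 0 := by
    intro v hv
    rw [Set.Finite.mem_toFinset] at hv
    exact zpow_ne_zero _ (ev_ne_zero h (hg v hv.1).1.ne_zero)
  refine ⟨∏ v ∈ hn.toFinset, ev a b (g v) ^ n v, Finset.prod_ne_zero_iff.2 hne, ?_⟩
  intro v' hv'
  rw [DVal.ord_prod _ _ _ hne]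
  have hterm : ∀ v ∈ hn.toFinset, v'.ord (ev a b (g v) ^ n v) = if v = v' then n v else 0 := by
    intro v hv
    rw [Set.Finite.mem_toFinset] at hv
    obtain ⟨hp, _, hval⟩ := hg v hv.1
    rw [DVal.ord_zpow]
    split_ifs with hvv
    · rw [← hvv, hval _ hp.ne_zero, multiplicity_self]
      simp
    · have hess : Ess (Aff a b) v' := ((ess_Oloc_iff' h v').1 hv').1
      have h0 : v'.ord (ev a b (g v)) = 0 := by
        have h1 : 0 ≤ v'.ord (ev a b (g v)) := hess.le ⟨g v, rfl⟩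
        by_contra hcon
        have h2 : 0 < v'.ord (ev a b (g v)) := lt_of_le_of_ne h1 (Ne.symm hcon)
        exact hvv (IsPolyVal.unique h hval (isPolyVal_of_ord_pos h hp hess h2))
      rw [h0, mul_zero]
  rw [Finset.sum_congr rfl hterm, Finset.sum_ite_eq']
  split_ifs with hmem
  · rfl
  · rw [Set.Finite.mem_toFinset] at hmem
    by_contra hcon
    exact hmem ⟨hv', fun h0 => hcon h0.symm⟩

theorem mem_Oloc_of_ess {a b : F} (h : IsPlane a b) {f : F} (hf : f ≠ 0)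
    (hv : ∀ v, Ess (Oloc a b) v → 0 ≤ v.ord f) : f ∈ Oloc a b := by
  obtain ⟨P, Q, hQ, hfPQ⟩ := exists_div h f
  obtain ⟨P', Q', c, hrel, hP', hQ'⟩ := UniqueFactorizationMonoid.exists_reduced_factors' P Q hQ
  have hc : c ≠ 0 := by
    rintro rfl
    exact hQ (by rw [← hQ', zero_mul])
  have hQ'0 : Q' ≠ 0 := by
    rintro rfl
    exact hQ (by rw [← hQ', mul_zero])
  have hf' : f = ev a b P' / ev a b Q' := by
    rw [hfPQ, ← hP', ← hQ', map_mul, map_mul, mul_div_mul_left _ _ (ev_ne_zero h hc)]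
  have hP'0 : P' ≠ 0 := by
    rintro rfl
    exact hf (by rw [hf', map_zero, zero_div])
  rw [mem_Oloc_iff h]
  refine ⟨P', Q', fun h0 => ?_, hf'⟩
  obtain ⟨g, hg1, hg2, hg3⟩ := exists_prime_factor hQ'0 h0
  obtain ⟨v, hval⟩ := exists_isPolyVal h hg1
  have hess : Ess (Oloc a b) v := (ess_Oloc_iff h v).2 ⟨g, hg1, hg2, hval⟩
  have h1 := hv v hess
  rw [hf', DVal.ord_div _ (ev_ne_zero h hP'0) (ev_ne_zero h hQ'0)] at h1
  have h2 : 0 < v.ord (ev a b Q') := (hval.pos_iff hQ'0).2 hg3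
  have h3 : 0 < v.ord (ev a b P') := by omega
  exact hg1.not_isUnit (hrel ((hval.pos_iff hP'0).1 h3) hg3)

theorem exists_ess_pos {a b : F} (h : IsPlane a b) {f : F} (hf : f ∈ Oloc a b) (hf0 : f ≠ 0)
    (hinv : f⁻¹ ∉ Oloc a b) : ∃ v, Ess (Oloc a b) v ∧ 0 < v.ord f := by
  obtain ⟨P, Q, hQ, hfPQ⟩ := (mem_Oloc_iff h).1 hf
  have hQ0 : Q ≠ 0 := by
    rintro rfl
    exact hQ (map_zero _)
  have hP0 : P ≠ 0 := by
    rintro rfl
    exact hf0 (by rw [hfPQ, map_zero, zero_div])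
  have hPc : MvPolynomial.constantCoeff P = 0 := by
    by_contra hcon
    rw [hfPQ] at hinv
    exact hinv ((inv_ev_div_mem_iff h hP0 hQ).2 hcon)
  obtain ⟨g, hg1, hg2, hg3⟩ := exists_prime_factor hP0 hPc
  obtain ⟨v, hval⟩ := exists_isPolyVal h hg1
  refine ⟨v, (ess_Oloc_iff h v).2 ⟨g, hg1, hg2, hval⟩, ?_⟩
  have hgQ : ¬ g ∣ Q := by
    rintro ⟨R, rfl⟩
    rw [map_mul, hg2, zero_mul] at hQ
    exact hQ rfl
  rw [hfPQ, DVal.ord_div _ (ev_ne_zero h hP0) (ev_ne_zero h hQ0), hval.eq_zero hQ0 hgQ, sub_zero]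
  exact (hval.pos_iff hP0).2 hg3

/-- A regular function vanishing on a curve through the point vanishes at the point. -/
theorem inv_notMem_of_ess_pos {a b : F} {f : F} {v : DVal F} (hv : Ess (Oloc a b) v)
    (hpos : 0 < v.ord f) : f⁻¹ ∉ Oloc a b := by
  intro hmem
  have h1 : 0 ≤ v.ord f⁻¹ := hv.le hmem
  rw [DVal.ord_inv] at h1
  omega

end Pool.Agent.LibKB1a
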