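import Pool.Agent.LibKB1a.BR0
import Pool.Agent.LibKB1a.C7

/-!
[K.B1a BR1] Unique factorisation in the form of LibKB.Loc.
SKETCH: `coord_iff`, `ess_iff`, `exists_local_eq`, `mem_Oloc_of_ess` (for `f = 0`: `ord 0 = 0`).
-/

set_option autoImplicit false

open Pool.Agent.LibGMM Pool.Agent.LibK
open Pool.Agent.LibKB (Coord ordP Over VDom Ge IsDiv sec Gen LocEqn frm Kc clOf h0 PreSurf mem_sec)

namespace Pool.Agent.LibKB1a

variable {F : Type} [Field F] [Algebra ℂ F]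

theorem loc_factorial {x : Subalgebra ℂ F} {a b : F} (h : Coord x a b) (D : DVal F → ℤ)
    (hD : {ν | ν ∈ Pool.Agent.LibKB.Ess x ∧ D ν ≠ 0}.Finite) :
    ∃ g : F, g ≠ 0 ∧ ∀ ν ∈ Pool.Agent.LibKB.Ess x, ν.ord g = D ν := by
  obtain ⟨hp, rfl⟩ := coord_iff.1 h
  have hD' : {v | Ess (Oloc a b) v ∧ D v ≠ 0}.Finite := by
    refine hD.subset ?_
    rintro v ⟨hv, hv0⟩
    exact ⟨(ess_iff _ v).2 hv, hv0⟩
  obtain ⟨g, hg, hg'⟩ := exists_local_eq hp D hD'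
  exact ⟨g, hg, fun ν hν => hg' ν ((ess_iff _ ν).1 hν)⟩

theorem loc_mem_iff {x : Subalgebra ℂ F} {a b : F} (h : Coord x a b) (f : F) :
    f ∈ x ↔ ∀ ν ∈ Pool.Agent.LibKB.Ess x, 0 ≤ ν.ord f := by
  obtain ⟨hp, rfl⟩ := coord_iff.1 h
  constructor
  · intro hf ν hν
    exact ((ess_iff _ ν).1 hν).le hf
  · intro hf
    by_cases hf0 : f = 0
    · rw [hf0]
      exact (Oloc a b).zero_mem
    · exact mem_Oloc_of_ess hp hf0 fun v hv => hf v ((ess_iff _ v).2 hv)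

end Pool.Agent.LibKB1a
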