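import Pool.Agent.LibKB1a.BR0
import Pool.Agent.LibKB1a.C5

/-!
[K.B1a BR2] Jets in the form of LibKB.Loc.
SKETCH: `loc_exists_jet`: `IsOrd.poly_approx` (`d.degree = d 0 + d 1`). `jet_count`: with `J` of
`IsOrd.jets` restricted to `V` (a linear map `V → Oloc → ℂ^(m(m+1)/2)`), its kernel is isomorphic to
`V ⊓ W`: rank-nullity (`LinearMap.finrank_range_add_finrank_ker`), range `≤ m(m+1)/2`, and equality
if the restriction is onto (`hs`).
-/

set_option autoImplicit false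

open Pool.Agent.LibGMM Pool.Agent.LibK
open Pool.Agent.LibKB (Coord ordP Over VDom Ge IsDiv sec Gen LocEqn frm Kc clOf h0 PreSurf mem_sec)

namespace Pool.Agent.LibKB1a

variable {F : Type} [Field F] [Algebra ℂ F]

theorem loc_exists_jet {x : Subalgebra ℂ F} {a b : F} {E : DVal F}
    (hE : Pool.Agent.LibKB.IsOrd x E) (h : Coord x a b) (m : ℕ) {z : F} (hz : z ∈ x) :
    ∃ P : MvPolynomial (Fin 2) ℂ, (∀ d ∈ P.support, d.degree < m) ∧
      Ge E m (z - ev a b P) := by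
  have h1 := (isOrd_iff_coord h E).1 hE
  obtain ⟨hab, rfl⟩ := coord_iff.1 h
  obtain ⟨P, hP, h2⟩ := h1.poly_approx hab m hz
  refine ⟨P, ?_, ?_⟩
  · intro d hd
    rw [Finsupp.degree_eq_sum, Fin.sum_univ_two]
    exact hP d hd
  · intro h3
    exact h2.resolve_left h3

theorem BR2_main {x : Subalgebra ℂ F} {E : DVal F} (hE : Pool.Agent.LibKB.IsOrd x E) (m : ℕ)
    (V W : Submodule ℂ F) [Module.Finite ℂ V] (hV : ∀ z ∈ V, z ∈ x)
    (hW : ∀ z, z ∈ W ↔ Ge E m z) :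
    ∃ T : V →ₗ[ℂ] (Fin (m * (m + 1) / 2) → ℂ),
      Module.finrank ℂ V = Module.finrank ℂ (V ⊓ W : Submodule ℂ F) +
        Module.finrank ℂ (LinearMap.range T) ∧
      ((∀ z ∈ x, ∃ v ∈ V, Ge E m (v - z)) → Function.Surjective T) := by
  obtain ⟨a, b, h, _⟩ := id hE
  have h1 := (isOrd_iff_coord h E).1 hE
  obtain ⟨hab, rfl⟩ := coord_iff.1 h
  obtain ⟨J, hJ, hker⟩ := h1.jets hab m
  have hle : V ≤ Subalgebra.toSubmodule (Oloc a b) := fun z hz => hV z hz
  let T : V →ₗ[ℂ] (Fin (m * (m + 1) / 2) → ℂ) := J.comp (Submodule.inclusion hle)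
  have hT : ∀ z : V, T z = 0 ↔ (z : F) ∈ W := by
    intro z
    rw [hW]
    have h2 := hker ⟨(z : F), hV z z.2⟩
    constructor
    · intro h3 h4
      exact (h2.1 h3).resolve_left h4
    · intro h3
      apply h2.2
      by_cases h4 : (z : F) = 0
      · exact Or.inl h4
      · exact Or.inr (h3 h4)
  refine ⟨T, ?_, ?_⟩
  · have h3 := LinearMap.finrank_range_add_finrank_ker T
    have h4 : Submodule.map V.subtype (LinearMap.ker T) = V ⊓ W := by
      ext z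
      simp only [Submodule.mem_map, LinearMap.mem_ker, Submodule.subtype_apply, Submodule.mem_inf]
      constructor
      · rintro ⟨w, hw, rfl⟩
        exact ⟨w.2, (hT w).1 hw⟩
      · rintro ⟨h5, h6⟩
        exact ⟨⟨z, h5⟩, (hT ⟨z, h5⟩).2 h6, rfl⟩
    have h5 := Submodule.finrank_map_subtype_eq V (LinearMap.ker T)
    rw [h4] at h5
    omega
  · intro hs c
    obtain ⟨z, hz⟩ := hJ c
    obtain ⟨v, hv, hvz⟩ := hs z z.2
    refine ⟨⟨v, hv⟩, ?_⟩
    have h2 := (hker (⟨v, hV v hv⟩ - z)).2 (by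
      by_cases h4 : v - (z : F) = 0
      · exact Or.inl h4
      · exact Or.inr (hvz h4))
    rw [map_sub, sub_eq_zero, hz] at h2
    exact h2

theorem loc_jet_count {x : Subalgebra ℂ F} {E : DVal F} (hE : Pool.Agent.LibKB.IsOrd x E) (m : ℕ)
    (V W : Submodule ℂ F) [Module.Finite ℂ V] (hV : ∀ z ∈ V, z ∈ x)
    (hW : ∀ z, z ∈ W ↔ Ge E m z) :
    Module.finrank ℂ V ≤ Module.finrank ℂ (V ⊓ W : Submodule ℂ F) + m * (m + 1) / 2 := by
  obtain ⟨T, hT, _⟩ := BR2_main hE m V W hV hW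
  have h1 := Submodule.finrank_le (LinearMap.range T)
  rw [Module.finrank_fin_fun] at h1
  omega

theorem loc_jet_count' {x : Subalgebra ℂ F} {E : DVal F} (hE : Pool.Agent.LibKB.IsOrd x E) (m : ℕ)
    (V W : Submodule ℂ F) [Module.Finite ℂ V] (hV : ∀ z ∈ V, z ∈ x)
    (hW : ∀ z, z ∈ W ↔ Ge E m z) (hs : ∀ z ∈ x, ∃ v ∈ V, Ge E m (v - z)) :
    Module.finrank ℂ V = Module.finrank ℂ (V ⊓ W : Submodule ℂ F) + m * (m + 1) / 2 := by
  obtain ⟨T, hT, hsur⟩ := BR2_main hE m V W hV hW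
  rw [LinearMap.range_eq_top.2 (hsur hs), finrank_top, Module.finrank_fin_fun] at hT
  exact hT

end Pool.Agent.LibKB1a
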