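import Pool.Agent.LibKB1a.BR0
import Pool.Agent.LibKB1a.D1

/-!
[K.B1a BR3] The points over `x` in the form of LibKB.Loc.
SKETCH: `Coord y a (b/a)` means `y = Oloc a (b/a)`, which is in `overPts a b` (`c = 0`). `D1` gives
`ess_over`. `loc_over_ord_a`: `ν` is not the order function `E` (`IsOrd.not_ess`), `ν ∈ Ess y` by
`ess_over`; if `ν.ord a > 0` then `ν` is the valuation of `X 0` in the coordinates `(a, b/a)`
(`isPolyVal_of_ord_pos`, `Ess (Aff a (b/a)) ν` by `ess_Oloc_iff'`), which is `E` (`isOrd_iff`):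
contradiction; `ν.ord a ≥ 0` as `a ∈ x`.
-/

set_option autoImplicit false

open Pool.Agent.LibGMM Pool.Agent.LibK
open Pool.Agent.LibKB (Coord ordP Over VDom Ge IsDiv sec Gen LocEqn frm Kc clOf h0 PreSurf mem_sec)

namespace Pool.Agent.LibKB1a

variable {F : Type} [Field F] [Algebra ℂ F]

theorem loc_exists_over {x : Subalgebra ℂ F} {a b : F} (h : Coord x a b) :
    ∃ y, Coord y a (b / a) :=
  ⟨Oloc a (b / a), coord_Oloc (isPlane_div0 (coord_iff.1 h).1)⟩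

private theorem br3_mem {y : Subalgebra ℂ F} {a b : F} (h' : Coord y a (b / a)) :
    y ∈ overPts a b := by
  left
  refine ⟨0, ?_⟩
  rw [map_zero, sub_zero]
  exact (coord_iff.1 h').2

theorem loc_over_le {x y : Subalgebra ℂ F} {a b : F} (h : Coord x a b) (h' : Coord y a (b / a)) :
    x ≤ y := by
  obtain ⟨h1, rfl⟩ := coord_iff.1 h
  exact Oloc_le_over h1 (br3_mem h')

theorem loc_ess_over {x y : Subalgebra ℂ F} {a b : F} {E : DVal F} (h : Coord x a b)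
    (h' : Coord y a (b / a)) (hE : Pool.Agent.LibKB.IsOrd x E) (ν : DVal F) :
    ν ∈ Pool.Agent.LibKB.Ess y ↔ ν = E ∨ (ν ∈ Pool.Agent.LibKB.Ess x ∧ y ≤ ν.ring) := by
  have hE' := (isOrd_iff_coord h E).1 hE
  obtain ⟨h1, rfl⟩ := coord_iff.1 h
  rw [ess_iff, ess_iff]
  exact ess_over h1 hE' (br3_mem h') ν

theorem loc_over_ord_a {x y : Subalgebra ℂ F} {a b : F} {ν : DVal F} (h : Coord x a b)
    (h' : Coord y a (b / a)) (hν : ν ∈ Pool.Agent.LibKB.Ess x) (hy : y ≤ ν.ring) :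
    ν.ord a = 0 := by
  obtain ⟨h1, rfl⟩ := coord_iff.1 h
  have h2 := br3_mem h'
  obtain ⟨h3, rfl⟩ := coord_iff.1 h'
  rw [ess_iff] at hν
  obtain ⟨E, hE⟩ := exists_isOrd h1
  have h4 : Ess (Oloc a (b / a)) ν := (ess_over h1 hE h2 ν).2 (Or.inr ⟨hν, hy⟩)
  have h5 : a ∈ Oloc a (b / a) := Aff_le_Oloc _ _ ⟨MvPolynomial.X 0, ev_X0 _ _⟩
  have h6 : 0 ≤ ν.ord a := hy h5
  rcases h6.lt_or_eq with h7 | h7
  · exfalso
    have h8 : IsPolyVal a (b / a) (MvPolynomial.X 0) ν :=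
      isPolyVal_of_ord_pos h3 MvPolynomial.X_prime ((ess_Oloc_iff' h3 ν).1 h4).1
        (by rw [ev_X0]; exact h7)
    have h9 : IsOrd a b ν := by
      rw [isOrd_iff h1 0 ν, map_zero, sub_zero]
      exact h8
    exact h9.not_ess h1 hν
  · exact h7.symm

end Pool.Agent.LibKB1a
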