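import Pool.Agent.LibKB1a.BR0b
import Pool.Agent.LibKB1a.C5
import Pool.Agent.LibKB1a.C9a

/-!
[K.B1a BR4] Two points over `x` have different directions.
-/

set_option autoImplicit false

open Pool.Agent.LibGMM Pool.Agent.LibK
open Pool.Agent.LibKB (Coord ordP Over VDom Ge IsDiv sec Gen LocEqn frm Kc clOf h0 PreSurf mem_sec)

namespace Pool.Agent.LibKB1a

variable {F : Type} [Field F] [Algebra ℂ F]

theorem Ge.add' {E : DVal F} {n : ℤ} {f g : F} (hf : Ge E n f) (hg : Ge E n g) :
    Ge E n (f + g) := by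
  intro h
  have h1 := E.ord_add_ge (n := n) (a := f) (b := g)
    (by by_cases h0 : f = 0; exacts [Or.inl h0, Or.inr (hf h0)])
    (by by_cases h0 : g = 0; exacts [Or.inl h0, Or.inr (hg h0)])
  exact h1.resolve_left h

theorem Ge.smul' {E : DVal F} {n : ℤ} {f : F} (c : ℂ) (hf : Ge E n f) : Ge E n (c • f) := by
  intro h
  have h0 : f ≠ 0 := by
    rintro rfl
    exact h (smul_zero c)
  have h1 : algebraMap ℂ F c ≠ 0 := by
    intro h1
    apply h
    rw [Algebra.smul_def, h1, zero_mul]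
  rw [Algebra.smul_def, E.ord_mul' h1 h0, E.ord_const, zero_add]
  exact hf h0

/-- Elements of `x` modulo order 2. -/
theorem approx_two {x : Subalgebra ℂ F} {a b : F} {E : DVal F} (h : Coord x a b)
    (hE : IsOrd a b E) {z : F} (hz : z ∈ x) :
    ∃ e c d : ℂ, Ge E 2 (z - (algebraMap ℂ F e + c • a + d • b)) := by
  obtain ⟨hpl, rfl⟩ := coord_iff.1 h
  obtain ⟨P, hP, h1⟩ := hE.poly_approx hpl 2 hz
  refine ⟨P.coeff 0, P.coeff (Finsupp.single 0 1), P.coeff (Finsupp.single 1 1), ?_⟩
  have hPe : P = MvPolynomial.C (P.coeff 0) + P.coeff (Finsupp.single 0 1) • MvPolynomial.X 0 +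
      P.coeff (Finsupp.single 1 1) • MvPolynomial.X 1 := by
    have n1 : (0 : Fin 2 →₀ ℕ) ≠ Finsupp.single 0 1 := fun h => by
      have := DFunLike.congr_fun h 0; simp at this
    have n2 : (0 : Fin 2 →₀ ℕ) ≠ Finsupp.single 1 1 := fun h => by
      have := DFunLike.congr_fun h 1; simp at this
    have n3 : (Finsupp.single 0 1 : Fin 2 →₀ ℕ) ≠ Finsupp.single 1 1 := fun h => by
      have := DFunLike.congr_fun h 0; simp at this
    ext m
    simp only [MvPolynomial.coeff_add, MvPolynomial.coeff_C, MvPolynomial.coeff_smul,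
      MvPolynomial.coeff_X, smul_eq_mul]
    by_cases hm : m ∈ P.support
    · have h2 := hP m hm
      have h3 : (m 0 = 0 ∧ m 1 = 0) ∨ (m 0 = 1 ∧ m 1 = 0) ∨ (m 0 = 0 ∧ m 1 = 1) := by omega
      rcases h3 with ⟨h4, h5⟩ | ⟨h4, h5⟩ | ⟨h4, h5⟩
      · have h6 : m = 0 := by ext i; fin_cases i <;> simp [h4, h5]
        subst h6
        simp
      · have h6 : m = Finsupp.single 0 1 := by ext i; fin_cases i <;> simp [h4, h5]
        subst h6
        simp [n1, n3.symm]
      · have h6 : m = Finsupp.single 1 1 := by ext i; fin_cases i <;> simp [h4, h5]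
        subst h6
        simp [n2, n3]
    · have h2 : P.coeff m = 0 := by simpa using hm
      by_cases h6 : (0 : Fin 2 →₀ ℕ) = m
      · subst h6
        simp [h2]
      · by_cases h7 : (Finsupp.single 0 1 : Fin 2 →₀ ℕ) = m
        · subst h7
          simp [h2, n1, n3.symm]
        · by_cases h8 : (Finsupp.single 1 1 : Fin 2 →₀ ℕ) = m
          · subst h8
            simp [h2, n2, n3]
          · simp [h6, h7, h8, h2]
  have h2 : ev a b P = algebraMap ℂ F (P.coeff 0) + P.coeff (Finsupp.single 0 1) • a +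
      P.coeff (Finsupp.single 1 1) • b := by
    conv_lhs => rw [hPe]
    rw [map_add, map_add, map_smul, map_smul, ev_X0, ev_X1, ev_C]
  rw [← h2]
  intro h3
  exact_mod_cast h1.resolve_left h3

/-- A combination of the coordinates has order one. -/
theorem lin_ord {a b : F} {E : DVal F} (hpl : IsPlane a b) (hE : IsOrd a b E) {c d : ℂ}
    (h2 : Ge E 2 (c • a + d • b)) : c = 0 ∧ d = 0 := by
  by_contra hcon
  have n3 : (Finsupp.single 0 1 : Fin 2 →₀ ℕ) ≠ Finsupp.single 1 1 := fun h => by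
    have := DFunLike.congr_fun h 0; simp at this
  have hP : c • MvPolynomial.X 0 + d • MvPolynomial.X 1 ≠ (0 : Pol) := by
    intro h
    apply hcon
    have h3 := congrArg (MvPolynomial.coeff (Finsupp.single 0 1)) h
    have h4 := congrArg (MvPolynomial.coeff (Finsupp.single 1 1)) h
    simp [MvPolynomial.coeff_X, n3, n3.symm] at h3 h4
    exact ⟨h3, h4⟩
  have h5 : ev a b (c • MvPolynomial.X 0 + d • MvPolynomial.X 1) = c • a + d • b := by
    rw [map_add, map_smul, map_smul, ev_X0, ev_X1]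
  have h6 := hE _ hP
  rw [h5] at h6
  have h7 := h2 (by rw [← h5]; exact ev_ne_zero hpl hP)
  rw [h6] at h7
  have h8 : 2 ≤ mdeg (c • MvPolynomial.X 0 + d • MvPolynomial.X 1 : Pol) := by exact_mod_cast h7
  rw [← ordP_eq_mdeg hP, Pool.Agent.LibKB.le_ordP_iff hP] at h8
  apply hcon
  have h9 := h8 (Finsupp.single 0 1) (by simp)
  have h10 := h8 (Finsupp.single 1 1) (by simp)
  simp [MvPolynomial.coeff_X, n3, n3.symm] at h9 h10
  exact ⟨h9, h10⟩

theorem loc_over_ne {x y y' : Subalgebra ℂ F} {a b a' b' : F} {E : DVal F} (h : Coord x a b)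
    (hy : Coord y a (b / a)) (h' : Coord x a' b') (hy' : Coord y' a' (b' / a'))
    (hE : Pool.Agent.LibKB.IsOrd x E) (hne : y ≠ y') :
    ∃ c d : ℂ, c ≠ 0 ∧ Ge E 2 (b - c • a' - d • b') := by
  obtain ⟨hpl, hx⟩ := coord_iff.1 h
  obtain ⟨hpl', hx'⟩ := coord_iff.1 h'
  obtain ⟨hply, hyy⟩ := coord_iff.1 hy
  obtain ⟨hply', hyy'⟩ := coord_iff.1 hy'
  obtain ⟨ha, hb⟩ := ne_zero_of_isPlane hpl
  obtain ⟨ha', hb'⟩ := ne_zero_of_isPlane hpl'
  have hE1 : IsOrd a b E := (isOrd_iff_coord h E).1 hE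
  have hE2 : IsOrd a' b' E := (isOrd_iff_coord h' E).1 hE
  -- nonunits have no constant term
  have key : ∀ z, z ∈ x → E.ord z = 1 → ∃ c d : ℂ, Ge E 2 (z - (c • a' + d • b')) := by
    intro z hz hz1
    obtain ⟨e, c, d, h1⟩ := approx_two h' hE2 hz
    have he : e = 0 := by
      by_contra he
      have hz0 : z ≠ 0 := by
        rintro rfl
        rw [E.ord_zero] at hz1
        omega
      have h2 : Ge E 1 (algebraMap ℂ F e) := by
        have h3 : algebraMap ℂ F e = z + (-1 : ℂ) • (z - (algebraMap ℂ F e + c • a' + d • b')) +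
            ((-c) • a' + (-d) • b') := by
          rw [neg_smul, neg_smul, neg_smul, one_smul]
          ring
        rw [h3]
        refine Ge.add' (Ge.add' (fun _ => by omega) (Ge.smul' _ ?_)) (Ge.add' (Ge.smul' _ ?_)
          (Ge.smul' _ ?_))
        · intro h4
          have := h1 h4
          omega
        · intro _
          rw [hE2.ord_fst]
        · intro _
          rw [hE2.ord_snd]
      have h4 : algebraMap ℂ F e ≠ 0 := by
        rw [Ne, FaithfulSMul.algebraMap_eq_zero_iff]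
        exact he
      have h5 := h2 h4
      rw [E.ord_const] at h5
      omega
    refine ⟨c, d, ?_⟩
    rw [he, map_zero, zero_add] at h1
    exact h1
  obtain ⟨c, d, hbc⟩ := key b (coord_snd_nonunit h).1 hE1.ord_snd
  by_cases hc : c ≠ 0
  · refine ⟨c, d, hc, ?_⟩
    have h1 : b - c • a' - d • b' = b - (c • a' + d • b') := by ring
    rwa [h1]
  exfalso
  push Not at hc
  subst hc
  rw [zero_smul, zero_add] at hbc
  obtain ⟨c1, d1, hac⟩ := key a (coord_fst_nonunit h).1 hE1.ord_fst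
  have hc1 : c1 ≠ 0 := by
    rintro rfl
    rw [zero_smul, zero_add] at hac
    have h1 : Ge E 2 (d • a + (-d1) • b) := by
      have h2 : d • a + (-d1) • b = d • (a - d1 • b') + (-d1) • (b - d • b') := by
        rw [smul_sub, smul_sub, smul_smul, smul_smul, neg_mul, neg_smul, neg_smul, mul_comm d d1]
        ring
      rw [h2]
      exact Ge.add' (Ge.smul' _ hac) (Ge.smul' _ hbc)
    obtain ⟨h3, h4⟩ := lin_ord hpl hE1 h1
    have h5 : d1 = 0 := neg_eq_zero.1 h4
    rw [h5, zero_smul, sub_zero] at hac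
    have h6 := hac ha
    rw [hE1.ord_fst] at h6
    omega
  -- the order function of `y'`
  obtain ⟨G, hG⟩ := exists_isOrd hply'
  have hG1 : G.ord a' = 1 := hG.ord_fst
  have hG2 : G.ord (b' / a') = 1 := hG.ord_snd
  have hG3 : G.ord b' = 2 := by
    rw [DVal.ord_div _ hb' ha'] at hG2
    omega
  have hle' : x ≤ y' := by
    rw [hx', hyy']
    apply Oloc_le_over hpl'
    left
    exact ⟨0, by simp⟩
  have hGy' : y' ≤ G.ring := by
    rw [hyy']
    exact hG.le_ring hply'
  have hGx : ∀ z ∈ x, 0 ≤ G.ord z := fun z hz => hGy' (hle' hz)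
  -- elements of order `≥ 2`
  have hG4 : ∀ r ∈ x, Ge E 2 r → Ge G 2 r := by
    intro r hr h2 hr0
    obtain ⟨f, g, hg, rfl⟩ := (h'.mem r).1 hr
    have hg0 : g ≠ 0 := by
      rintro rfl
      exact hg (map_zero _)
    have hf0 : f ≠ 0 := by
      rintro rfl
      rw [map_zero, zero_div] at hr0
      exact hr0 rfl
    have h3 := h2 hr0
    have h5 : ordP g = 0 := (Pool.Agent.LibKB.ordP_eq_zero_iff hg0).2 hg
    rw [DVal.ord_div _ (h'.ev_ne hf0) (h'.ev_ne hg0), hE.ord_ev h' hf0, hE.ord_ev h' hg0, h5] at h3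
    have h6 := h'.ordP_le (E := G) hGx (by omega) (by omega) hf0
    have h7 : G.ord (Pool.Agent.LibKB.ev a' b' g) = 0 := by
      have h8 := hGx _ (h'.mem_ev g)
      have h9 : (Pool.Agent.LibKB.ev a' b' g)⁻¹ ∈ x := by
        rw [h'.mem]
        exact ⟨1, g, hg, by rw [map_one, one_div]⟩
      have h10 := hGx _ h9
      rw [G.ord_inv] at h10
      omega
    rw [DVal.ord_div _ (h'.ev_ne hf0) (h'.ev_ne hg0), h7]
    push_cast at h3
    omega
  have hmem : ∀ c d : ℂ, c • a' + d • b' ∈ x := fun c d =>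
    x.add_mem (x.smul_mem (coord_fst_nonunit h').1 c) (x.smul_mem (coord_snd_nonunit h').1 d)
  have hGb : 2 ≤ G.ord b := by
    have h1 : Ge G 2 b := by
      have h2 : b = (b - d • b') + d • b' := by ring
      rw [h2]
      refine Ge.add' (hG4 _ ?_ hbc) (Ge.smul' _ ?_)
      · have h3 := hmem 0 d
        rw [zero_smul, zero_add] at h3
        exact x.sub_mem (coord_snd_nonunit h).1 h3
      · intro _
        omega
    exact h1 hb
  have hGa : G.ord a = 1 := by
    have h2 : a = c1 • a' + (d1 • b' + (a - (c1 • a' + d1 • b'))) := by ring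
    have h3 : Ge G 2 (d1 • b' + (a - (c1 • a' + d1 • b'))) := by
      refine Ge.add' (Ge.smul' _ ?_) (hG4 _ ?_ hac)
      · intro _
        omega
      · exact x.sub_mem (coord_fst_nonunit h).1 (hmem c1 d1)
    have h4 : algebraMap ℂ F c1 ≠ 0 := by
      rw [Ne, FaithfulSMul.algebraMap_eq_zero_iff]
      exact hc1
    have h5 : G.ord (c1 • a') = 1 := by
      rw [Algebra.smul_def, G.ord_mul' h4 ha', G.ord_const, hG1]
      rfl
    have h6 : c1 • a' ≠ 0 := by
      rw [Algebra.smul_def]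
      exact mul_ne_zero h4 ha'
    rw [h2]
    rw [(G.ord_add_eq h6 ?_).1, h5]
    by_cases h7 : d1 • b' + (a - (c1 • a' + d1 • b')) = 0
    · exact Or.inl h7
    · right
      have := h3 h7
      omega
  have hGd : 1 ≤ G.ord (b / a) := by
    rw [DVal.ord_div _ hb ha]
    omega
  have hC : ∀ c : ℂ, algebraMap ℂ F c ∈ G.toVal := fun c => by
    rw [DVal.mem_toVal, G.ord_const]
  have hDy : VDom y G.toVal := by
    have hmem' : ∀ f ∈ Oloc a (b / a), f ∈ G.toVal := by
      apply Oloc_le_of_maximal hply G.toVal hC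
      · rw [DVal.mem_toVal]; omega
      · rw [DVal.mem_toVal]; omega
      · rw [DVal.mem_toVal, G.ord_inv]; omega
      · rw [DVal.mem_toVal, G.ord_inv]; omega
    rw [hyy]
    refine ⟨hmem', fun f hf hinv => ?_⟩
    by_cases hf0 : f = 0
    · exact Or.inr hf0
    left
    obtain ⟨P, Q, hQ, rfl⟩ := (mem_Oloc_iff hply).1 hf
    have hQ0 : Q ≠ 0 := by
      rintro rfl
      exact hQ (map_zero _)
    have hP0 : P ≠ 0 := by
      rintro rfl
      simp at hf0
    have hPc : MvPolynomial.constantCoeff P = 0 := by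
      by_contra hPc
      exact hinv ((inv_ev_div_mem_iff hply hP0 hQ).2 hPc)
    have h1 := hy.ordP_le (E := G) (fun z hz => hmem' z (hyy ▸ hz)) (by omega) hGd hP0
    have h2 : 1 ≤ ordP P := by
      by_contra h3
      exact (Pool.Agent.LibKB.ordP_eq_zero_iff hP0).1 (by omega) hPc
    have h3 : (ev a (b / a) Q)⁻¹ ∈ Oloc a (b / a) := by
      have h4 := (inv_ev_div_mem_iff (P := Q) (Q := 1) hply hQ0 (by simp)).2 hQ
      simpa using h4
    have h4 : 0 ≤ G.ord (ev a (b / a) Q)⁻¹ := hmem' _ h3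
    rw [G.ord_inv] at h4
    have h5 : G.ord (ev a (b / a) P / ev a (b / a) Q) ≥ 1 := by
      rw [DVal.ord_div _ (ev_ne_zero hply hP0) (ev_ne_zero hply hQ0)]
      have h6 : (1 : ℤ) ≤ ordP P := by exact_mod_cast h2
      have h7 : (ordP P : ℤ) ≤ G.ord (ev a (b / a) P) := h1
      omega
    rw [DVal.mem_toVal, G.ord_inv]
    omega
  have hDy' : VDom y' G.toVal := by
    rw [vdom_iff, hyy']
    exact hG.dom hply'
  exact hne (over_eq_of_dom h ⟨a, b, h, hy⟩ ⟨a', b', h', hy'⟩ G.toVal hDy hDy')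

end Pool.Agent.LibKB1a
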