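import Pool.Agent.LibKB1a.Defs

/-!
[K.B1a A1] Two generators of `F = ℂ(x, y)` are algebraically independent.
SKETCH: `F` has transcendence degree 2 (`![x, y]` is a transcendence basis: `F` is algebraic over
`ℂ(x, y) = ⊤`). `F` is algebraic over `adjoin {a, b} = ⊤`, so `{a, b}` contains a transcendence basis;
it has 2 elements (equal cardinality of transcendence bases, `Algebra.trdeg`), hence `a ≠ b` and
`![a, b]` is algebraically independent (e.g. if `![a, b]` is dependent, a maximal independent subset
of `{a, b}` has at most one element).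
-/

set_option autoImplicit false

open Pool.Agent.LibGMM Pool.Agent.LibK

namespace Pool.Agent.LibKB1a

variable {F : Type} [Field F] [Algebra ℂ F]

theorem isPlane_of_adjoin {x y a b : F} (h : IsPlane x y)
    (hab : IntermediateField.adjoin ℂ {a, b} = ⊤) : IsPlane a b := by
  refine ⟨?_, hab⟩
  have hr : Set.range ![a, b] = {a, b} := by
    simp [Matrix.range_cons, Matrix.range_empty, Set.pair_comm]
  have : Algebra.IsAlgebraic (Algebra.adjoin ℂ (Set.range ![a, b])) F := by
    constructor
    intro f
    rw [hr]
    have hf : f ∈ IntermediateField.adjoin ℂ {a, b} := by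
      rw [hab]
      exact IntermediateField.mem_top
    rw [IntermediateField.mem_adjoin_iff_div] at hf
    obtain ⟨p, hp, q, hq, rfl⟩ := hf
    have h1 : IsAlgebraic (Algebra.adjoin ℂ {a, b}) p :=
      isAlgebraic_algebraMap (⟨p, hp⟩ : Algebra.adjoin ℂ {a, b})
    have h2 : IsAlgebraic (Algebra.adjoin ℂ {a, b}) q :=
      isAlgebraic_algebraMap (⟨q, hq⟩ : Algebra.adjoin ℂ {a, b})
    rw [div_eq_mul_inv]
    exact h1.mul h2.inv
  have hle : Cardinal.mk (Fin 2) ≤ Algebra.trdeg ℂ F := h.1.cardinalMk_le_trdeg
  exact (Algebra.IsAlgebraic.isTranscendenceBasis_of_le_trdeg_of_finite ℂ ![a, b] hle).1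

end Pool.Agent.LibKB1a
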