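import Pool.Agent.LibKB1a.A3

/-!
[K.B1a B2] The valuation of a prime polynomial.
SKETCH: `ord f = multiplicity g P - multiplicity g Q` for `f = P / Q ≠ 0` (well defined by
`multiplicity_mul` for prime `g`, finiteness: `FiniteMultiplicity.of_prime_left`), `ord 0 = 0`;
`ord_add` from `min_le_emultiplicity_add` (bring to a common denominator); constants are units;
`ord g = 1`.
-/

set_option autoImplicit false

open Pool.Agent.LibGMM Pool.Agent.LibK

namespace Pool.Agent.LibKB1a

variable {F : Type} [Field F] [Algebra ℂ F]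

theorem B2_mult_mul {g P Q : Pol} (hg : Prime g) (hP : P ≠ 0) (hQ : Q ≠ 0) :
    multiplicity g (P * Q) = multiplicity g P + multiplicity g Q :=
  multiplicity_mul hg (FiniteMultiplicity.of_prime_left hg (mul_ne_zero hP hQ))

theorem B2_mult_add {g P Q : Pol} (hg : Prime g) (hPQ : P + Q ≠ 0) :
    min (multiplicity g P) (multiplicity g Q) ≤ multiplicity g (P + Q) := by
  apply (FiniteMultiplicity.of_prime_left hg hPQ).le_multiplicity_of_pow_dvd
  apply dvd_add
  · exact (pow_dvd_pow g (min_le_left _ _)).trans (pow_multiplicity_dvd g P)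
  · exact (pow_dvd_pow g (min_le_right _ _)).trans (pow_multiplicity_dvd g Q)

theorem exists_isPolyVal {a b : F} (h : IsPlane a b) {g : Pol} (hg : Prime g) :
    ∃ v : DVal F, IsPolyVal a b g v := by
  classical
  choose P Q hQ hPQ using exists_div h
  have hinj := ev_injective h
  have hne : ∀ {R : Pol}, R ≠ 0 → ev a b R ≠ 0 := fun hR => ev_ne_zero h hR
  have hP0 : ∀ f : F, f ≠ 0 → P f ≠ 0 := by
    intro f hf h0
    apply hf
    rw [hPQ f, h0, map_zero, zero_div]
  -- the value on any representation as a quotient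
  have hrep : ∀ (f : F) (R S : Pol), R ≠ 0 → S ≠ 0 → f = ev a b R / ev a b S →
      (multiplicity g (P f) : ℤ) - multiplicity g (Q f) =
        (multiplicity g R : ℤ) - multiplicity g S := by
    intro f R S hR hS hf
    have hf0 : f ≠ 0 := by
      rw [hf]; exact div_ne_zero (hne hR) (hne hS)
    have h1 : ev a b (P f * S) = ev a b (R * Q f) := by
      have h2 := hPQ f
      rw [hf] at h2
      have h3 : ev a b R / ev a b S = ev a b (P f) / ev a b (Q f) := by
        rw [hf] at *
        exact h2
      rw [div_eq_div_iff (hne hS) (hne (hQ f))] at h3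
      rw [map_mul, map_mul, h3]
    have h2 := hinj h1
    have h3 := B2_mult_mul hg (hP0 f hf0) hS
    have h4 := B2_mult_mul hg hR (hQ f)
    rw [h2, h4] at h3
    omega
  refine ⟨⟨fun f => if f = 0 then 0 else (multiplicity g (P f) : ℤ) - multiplicity g (Q f),
    by simp, ?_, ?_, ?_, ?_⟩, ?_⟩
  · intro x y hx hy
    simp only [hx, hy, mul_ne_zero hx hy, if_false]
    have h1 : x * y = ev a b (P x * P y) / ev a b (Q x * Q y) := by
      rw [map_mul, map_mul, ← div_mul_div_comm, ← hPQ x, ← hPQ y]
    rw [hrep (x * y) _ _ (mul_ne_zero (hP0 x hx) (hP0 y hy)) (mul_ne_zero (hQ x) (hQ y)) h1,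
      B2_mult_mul hg (hP0 x hx) (hP0 y hy), B2_mult_mul hg (hQ x) (hQ y)]
    push_cast
    ring
  · intro x y hx hy hxy
    simp only [hx, hy, hxy, if_false]
    have h1 : x + y = ev a b (P x * Q y + Q x * P y) / ev a b (Q x * Q y) := by
      rw [map_mul, map_add, map_mul, map_mul, ← div_add_div _ _ (hne (hQ x)) (hne (hQ y)),
        ← hPQ x, ← hPQ y]
    have h2 : P x * Q y + Q x * P y ≠ 0 := by
      intro h0
      apply hxy
      rw [h1, h0, map_zero, zero_div]
    rw [hrep (x + y) _ _ h2 (mul_ne_zero (hQ x) (hQ y)) h1, B2_mult_mul hg (hQ x) (hQ y)]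
    have h3 := B2_mult_add hg h2
    rw [B2_mult_mul hg (hP0 x hx) (hQ y), B2_mult_mul hg (hQ x) (hP0 y hy)] at h3
    rcases min_le_iff.1 h3 with h4 | h4
    · exact min_le_iff.2 (Or.inl (by push_cast; omega))
    · exact min_le_iff.2 (Or.inr (by push_cast; omega))
  · intro c
    by_cases hc : algebraMap ℂ F c = 0
    · simp [hc]
    · simp only [hc, if_false]
      have hc0 : c ≠ 0 := by
        rintro rfl
        exact hc (map_zero _)
      have h1 : algebraMap ℂ F c = ev a b (MvPolynomial.C c) / ev a b 1 := by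
        rw [ev_C, map_one, div_one]
      have h2 : (MvPolynomial.C c : Pol) ≠ 0 := by
        rw [Ne, MvPolynomial.C_eq_zero]; exact hc0
      rw [hrep _ _ _ h2 one_ne_zero h1]
      have hu : IsUnit (MvPolynomial.C c : Pol) := (IsUnit.mk0 c hc0).map MvPolynomial.C
      rw [multiplicity_of_isUnit_right hg.not_isUnit hu,
        multiplicity_of_isUnit_right hg.not_isUnit isUnit_one]
      simp
  · refine ⟨ev a b g, ?_⟩
    simp only [hne hg.ne_zero, if_false]
    rw [hrep _ g 1 hg.ne_zero one_ne_zero (by rw [map_one, div_one]),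
      multiplicity_of_isUnit_right hg.not_isUnit isUnit_one, multiplicity_self]
    simp
  · intro R hR
    change (if ev a b R = 0 then (0 : ℤ) else _) = _
    simp only [hne hR, if_false]
    rw [hrep _ R 1 hR one_ne_zero (by rw [map_one, div_one]),
      multiplicity_of_isUnit_right hg.not_isUnit isUnit_one]
    simp

end Pool.Agent.LibKB1a
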