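import Pool.Agent.LibKB1a.BR0
import Pool.Agent.LibKB1a.D3
import Pool.Agent.LibKB1a.D4

/-!
[K.B1a BR0b] The points over `x` do not depend on the coordinates.
-/

set_option autoImplicit false

open Pool.Agent.LibGMM Pool.Agent.LibK
open Pool.Agent.LibKB (Coord ordP Over VDom Ge IsDiv sec Gen LocEqn frm Kc clOf h0 PreSurf mem_sec)

namespace Pool.Agent.LibKB1a

variable {F : Type} [Field F] [Algebra ℂ F]

theorem exists_split (P : Pol) : ∃ P0 P1 : Pol,
    P = MvPolynomial.C (MvPolynomial.constantCoeff P) + MvPolynomial.X 0 * P0 +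
      MvPolynomial.X 1 * P1 := by
  induction P using MvPolynomial.induction_on with
  | C c => exact ⟨0, 0, by simp⟩
  | add p q hp hq =>
    obtain ⟨p0, p1, hp⟩ := hp
    obtain ⟨q0, q1, hq⟩ := hq
    refine ⟨p0 + q0, p1 + q1, ?_⟩
    conv_lhs => rw [hp, hq]
    rw [map_add, map_add]
    ring
  | mul_X p i _ =>
    fin_cases i
    · refine ⟨p, 0, ?_⟩
      simp [mul_comm]
    · refine ⟨0, p, ?_⟩
      simp [mul_comm]

/-- A nonunit of `x` divided by the first coordinate is regular on the blow-up. -/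
theorem div_mem_over {x y : Subalgebra ℂ F} {a b : F} (h : Coord x a b) (hy : Coord y a (b / a))
    {z : F} (hz : z ∈ x) (hn : z⁻¹ ∉ x ∨ z = 0) : z / a ∈ y := by
  obtain ⟨hpl, rfl⟩ := coord_iff.1 h
  obtain ⟨ha, hb⟩ := ne_zero_of_isPlane hpl
  rcases hn with hn | rfl
  swap
  · rw [zero_div]
    exact y.zero_mem
  obtain ⟨P, Q, hQ, rfl⟩ := (mem_Oloc_iff hpl).1 hz
  have hP0 : P ≠ 0 := by
    rintro rfl
    apply hn
    simp
  have hc : MvPolynomial.constantCoeff P = 0 := by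
    by_contra hc
    exact hn ((inv_ev_div_mem_iff hpl hP0 hQ).2 hc)
  obtain ⟨P0, P1, hP⟩ := exists_split P
  rw [hc, map_zero, zero_add] at hP
  obtain ⟨hpl', rfl⟩ := coord_iff.1 hy
  have hle : Oloc a b ≤ Oloc a (b / a) := by
    apply Oloc_le_over hpl
    left
    exact ⟨0, by simp⟩
  have h1 : ∀ R : Pol, ev a b R ∈ Oloc a (b / a) := fun R => hle (Aff_le_Oloc a b ⟨R, rfl⟩)
  have hQi : (ev a b Q)⁻¹ ∈ Oloc a (b / a) := by
    apply hle
    have hQ0 : Q ≠ 0 := by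
      rintro rfl
      exact hQ (map_zero _)
    have h2 := (inv_ev_div_mem_iff (P := Q) (Q := 1) hpl hQ0 (by simp)).2 hQ
    simpa using h2
  have h3 : ev a b P / ev a b Q / a = (ev a b P0 + (b / a) * ev a b P1) * (ev a b Q)⁻¹ := by
    have hQ1 : ev a b Q ≠ 0 := by
      apply ev_ne_zero hpl
      rintro rfl
      exact hQ (map_zero _)
    conv_lhs => rw [hP]
    rw [map_add, map_mul, map_mul, ev_X0, ev_X1]
    field_simp
  rw [h3]
  refine (Oloc a (b / a)).mul_mem ((Oloc a (b / a)).add_mem (h1 _) ((Oloc a (b / a)).mul_mem ?_ (h1 _))) hQi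
  exact Aff_le_Oloc a (b / a) ⟨MvPolynomial.X 1, ev_X1 a (b / a)⟩

theorem coord_fst_nonunit {x : Subalgebra ℂ F} {a b : F} (h : Coord x a b) :
    a ∈ x ∧ a⁻¹ ∉ x := by
  obtain ⟨hpl, rfl⟩ := coord_iff.1 h
  have h1 : a ∈ Oloc a b := Aff_le_Oloc a b ⟨MvPolynomial.X 0, ev_X0 a b⟩
  refine ⟨h1, fun h2 => ?_⟩
  have h3 := (inv_ev_div_mem_iff (P := MvPolynomial.X 0) (Q := 1) hpl (by simp) (by simp)).1
    (by simpa using h2)
  simp at h3

theorem coord_snd_nonunit {x : Subalgebra ℂ F} {a b : F} (h : Coord x a b) :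
    b ∈ x ∧ b⁻¹ ∉ x := by
  obtain ⟨hpl, rfl⟩ := coord_iff.1 h
  have h1 : b ∈ Oloc a b := Aff_le_Oloc a b ⟨MvPolynomial.X 1, ev_X1 a b⟩
  refine ⟨h1, fun h2 => ?_⟩
  have h3 := (inv_ev_div_mem_iff (P := MvPolynomial.X 1) (Q := 1) hpl (by simp) (by simp)).1
    (by simpa using h2)
  simp at h3

theorem le_of_dom {x y y' : Subalgebra ℂ F} {a b a' b' : F} (h : Coord x a b)
    (hy : Coord y a (b / a)) (h' : Coord x a' b') (hy' : Coord y' a' (b' / a'))
    (V : ValuationSubring F) (hV : VDom y V) (hV' : VDom y' V) : y ≤ y' := by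
  obtain ⟨hpl, hx⟩ := coord_iff.1 h
  obtain ⟨hpl', hx'⟩ := coord_iff.1 h'
  obtain ⟨ha, hb⟩ := ne_zero_of_isPlane hpl
  obtain ⟨ha', hb'⟩ := ne_zero_of_isPlane hpl'
  have hle : x ≤ y' := by
    have h1 : Oloc a' (b' / a') = y' := (coord_iff.1 hy').2.symm
    rw [hx', ← h1]
    apply Oloc_le_over hpl'
    left
    exact ⟨0, by simp⟩
  have e1 : a / a' ∈ y' := div_mem_over h' hy' (coord_fst_nonunit h).1
    (Or.inl (coord_fst_nonunit h).2)
  have e2 : b / a' ∈ y' := div_mem_over h' hy' (coord_snd_nonunit h).1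
    (Or.inl (coord_snd_nonunit h).2)
  have e3 : a' / a ∈ y := div_mem_over h hy (coord_fst_nonunit h').1
    (Or.inl (coord_fst_nonunit h').2)
  have e4 : a' / a ∈ y' := by
    by_contra hcon
    have h5 : (a / a')⁻¹ ∉ y' := by rwa [inv_div]
    rcases hV'.2 _ e1 h5 with h6 | h6
    · apply h6
      rw [inv_div]
      exact hV.1 _ e3
    · exact (div_ne_zero ha ha') h6
  have e5 : b / a ∈ y' := by
    have h5 : b / a = (b / a') * (a' / a) := by field_simp
    rw [h5]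
    exact y'.mul_mem e2 e4
  have e6 : ∀ P : Pol, ev a (b / a) P ∈ y' := by
    intro P
    have h7 : Aff a (b / a) ≤ y' := by
      rintro _ ⟨P, rfl⟩
      change ev a (b / a) P ∈ y'
      unfold ev
      have h8 : MvPolynomial.aeval ![a, b / a] P ∈ Algebra.adjoin ℂ (Set.range ![a, b / a]) := by
        rw [Algebra.adjoin_range_eq_range_aeval]
        exact ⟨P, rfl⟩
      have h9 : Algebra.adjoin ℂ (Set.range ![a, b / a]) ≤ y' := by
        rw [Algebra.adjoin_le_iff]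
        rintro _ ⟨i, rfl⟩
        fin_cases i
        · exact hle (coord_fst_nonunit h).1
        · exact e5
      exact h9 h8
    exact h7 ⟨P, rfl⟩
  intro z hz
  obtain ⟨P, Q, hQ, rfl⟩ := (hy.mem z).1 hz
  have hQ0 : Q ≠ 0 := by
    rintro rfl
    exact hQ (map_zero _)
  have hQ1 : ev a (b / a) Q ≠ 0 := by
    intro h0
    exact hQ0 (hy.inj Q h0)
  have hQi : (ev a (b / a) Q)⁻¹ ∈ y' := by
    by_contra hcon
    rcases hV'.2 _ (e6 Q) hcon with h6 | h6
    · apply h6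
      apply hV.1
      rw [hy.mem]
      refine ⟨1, Q, hQ, ?_⟩
      rw [map_one, one_div]
      rfl
    · exact hQ1 h6
  change ev a (b / a) P / ev a (b / a) Q ∈ y'
  rw [div_eq_mul_inv]
  exact y'.mul_mem (e6 P) hQi

/-- Two points over `x` dominated by the same valuation ring are equal. -/
theorem over_eq_of_dom {x y y' : Subalgebra ℂ F} {a b : F} (h : Coord x a b) (hy : Over x y)
    (hy' : Over x y') (V : ValuationSubring F) (hV : VDom y V) (hV' : VDom y' V) : y = y' := by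
  obtain ⟨a1, b1, h1, h2⟩ := hy
  obtain ⟨a2, b2, h3, h4⟩ := hy'
  exact le_antisymm (le_of_dom h1 h2 h3 h4 V hV hV') (le_of_dom h3 h4 h1 h2 V hV' hV)

theorem over_iff {x y : Subalgebra ℂ F} {a b : F} (h : Coord x a b) :
    Over x y ↔ y ∈ overPts a b := by
  refine ⟨fun hy => ?_, over_of_mem h⟩
  obtain ⟨a', b', h1, h2⟩ := hy
  obtain ⟨hpl, hx⟩ := coord_iff.1 h
  obtain ⟨hpl1, hx1⟩ := coord_iff.1 h1
  obtain ⟨hpl2, hy2⟩ := coord_iff.1 h2
  obtain ⟨E, hE⟩ := exists_isOrd hpl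
  obtain ⟨G, hG⟩ := exists_isOrd hpl2
  have hdy : Dom y G.toVal := by
    rw [hy2]
    exact hG.dom hpl2
  have hover : y ∈ overPts a' b' := by
    left
    exact ⟨0, by simp [hy2]⟩
  have hdx : Dom (Oloc a b) G.toVal := by
    have hle : Oloc a' b' ≤ y := Oloc_le_over hpl1 hover
    rw [← hx, hx1]
    refine ⟨fun f hf => hdy.1 f (hle hf), fun f hf h0 hinv => ?_⟩
    exact hdy.2 f (hle hf) h0 (over_dom hpl1 hover hf h0 hinv)
  rcases dom_over_or hpl hE G.toVal hdx with ⟨q, hq, hqd⟩ | hGE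
  · have h5 : y = q := over_eq_of_dom h ⟨a', b', h1, h2⟩ (over_of_mem h hq) G.toVal
      ((vdom_iff _ _).2 hdy) ((vdom_iff _ _).2 hqd)
    rw [h5]
    exact hq
  · exfalso
    have h6 : G = E := toVal_injective (le_of_eq hGE)
    subst h6
    have h7 : IsOrd a' b' G := (isOrd_iff_coord h1 G).1 ((isOrd_iff_coord h G).2 hE)
    have h8 := h7.ord_fst
    have h9 := h7.ord_snd
    have h10 := hG.ord_snd
    obtain ⟨ha', hb'⟩ := ne_zero_of_isPlane hpl1
    rw [DVal.ord_div _ hb' ha'] at h10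
    omega

end Pool.Agent.LibKB1a
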