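import Pool.Agent.LibKB1a.C2a

/-!
[K.B1a C2] The multiplicity of the origin and the substitution of the blow-up.
SKETCH: write `P = ∑ P_n` (homogeneous components, `MvPolynomial.sum_homogeneousComponent`), `m` the
lowest `n` with `P_n ≠ 0`. `subst c P_n = X0^n * R_n`, `R_n = aeval ![1, X 1 + C c] P_n` (check on
monomials). So `subst c P = X0^m (R_m + X0 * …)`, and `X0 ∤ R_m + X0 * …`
since `R_m ≠ 0` does not involve `X0`: put `X0 = 0`: `P_m(1, T + c)` is not the zero function,
because `P_m` is homogeneous and nonzero (`P_m(s, t) = s^m P_m(1, t / s)`, `MvPolynomial.funext`).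
-/

set_option autoImplicit false

open Pool.Agent.LibGMM Pool.Agent.LibK

namespace Pool.Agent.LibKB1a

variable {F : Type} [Field F] [Algebra ℂ F]

private theorem C2_homog {A : Type} [CommRing A] [Algebra ℂ A] {n : ℕ} {Q : Pol}
    (hQ : Q.IsHomogeneous n) (r : A) (g : Fin 2 → A) :
    MvPolynomial.aeval (fun i => r * g i) Q = r ^ n * MvPolynomial.aeval g Q := by
  rw [MvPolynomial.aeval_def, MvPolynomial.aeval_def, MvPolynomial.eval₂_eq', MvPolynomial.eval₂_eq',
    Finset.mul_sum]
  refine Finset.sum_congr rfl fun d hd => ?_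
  have h1 : d.degree = n := by
    have := hQ (MvPolynomial.mem_support_iff.1 hd)
    rw [Finsupp.degree_eq_weight_one]
    exact this
  have h2 : ∑ i, d i = n := by
    rw [← h1, Finsupp.degree_eq_sum]
  simp only [mul_pow]
  rw [Finset.prod_mul_distrib, Finset.prod_pow_eq_pow_sum, h2]
  ring

private theorem C2_subst (c : ℂ) {n : ℕ} {Q : Pol} (hQ : Q.IsHomogeneous n) :
    subst c Q = MvPolynomial.X 0 ^ n *
      MvPolynomial.aeval ![(1 : Pol), MvPolynomial.X 1 + MvPolynomial.C c] Q := by
  rw [← C2_homog hQ]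
  unfold subst
  congr 2
  funext i
  fin_cases i <;> simp

private theorem C2_eval (c t : ℂ) (Q : Pol) : MvPolynomial.eval ![0, t]
    (MvPolynomial.aeval ![(1 : Pol), MvPolynomial.X 1 + MvPolynomial.C c] Q) =
      MvPolynomial.eval ![1, t + c] Q := by
  have h : (MvPolynomial.aeval ![(0 : ℂ), t]).comp
      (MvPolynomial.aeval ![(1 : Pol), MvPolynomial.X 1 + MvPolynomial.C c]) =
      (MvPolynomial.aeval ![(1 : ℂ), t + c] : Pol →ₐ[ℂ] ℂ) := by
    apply MvPolynomial.algHom_ext
    intro i
    fin_cases i <;> simp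
  have h2 := congrArg (fun ψ : Pol →ₐ[ℂ] ℂ => ψ Q) h
  simp only [AlgHom.coe_comp, Function.comp_apply, MvPolynomial.aeval_eq_eval] at h2
  exact h2

private theorem C2_zero {n : ℕ} {Q : Pol} (hQ : Q.IsHomogeneous n)
    (h : ∀ t : ℂ, MvPolynomial.eval ![1, t] Q = 0) : Q = 0 := by
  have h1 : MvPolynomial.X 0 * Q = 0 := by
    apply MvPolynomial.funext
    intro x
    rw [map_mul, map_zero, MvPolynomial.eval_X]
    by_cases hx : x 0 = 0
    · rw [hx, zero_mul]
    · have h2 := C2_homog (A := ℂ) hQ (x 0) ![1, x 1 / x 0]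
      have h3 : (fun i => x 0 * ![1, x 1 / x 0] i) = x := by
        funext i
        fin_cases i
        · simp
        · simp only [Fin.mk_one, Fin.isValue, Matrix.cons_val_one, Matrix.cons_val_fin_one]
          field_simp
      rw [h3, MvPolynomial.aeval_eq_eval, MvPolynomial.aeval_eq_eval, h, mul_zero] at h2
      rw [h2, mul_zero]
  rcases mul_eq_zero.1 h1 with h2 | h2
  · exact absurd h2 (MvPolynomial.X_ne_zero 0)
  · exact h2

theorem homogeneousComponent_mdeg_ne_zero {P : Pol} (hP : P ≠ 0) :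
    MvPolynomial.homogeneousComponent (mdeg P) P ≠ 0 := by
  have hne : {n | MvPolynomial.homogeneousComponent n P ≠ 0}.Nonempty := by
    by_contra h
    rw [Set.not_nonempty_iff_eq_empty] at h
    apply hP
    rw [← MvPolynomial.sum_homogeneousComponent P]
    refine Finset.sum_eq_zero fun n _ => ?_
    by_contra h1
    have h2 : n ∈ {n | MvPolynomial.homogeneousComponent n P ≠ 0} := h1
    rw [h] at h2
    exact h2
  exact Nat.sInf_mem hne

/-- `subst c P = X0 ^ mdeg P * R` with `X0 ∤ R`; here `R(0, T) = P_m(1, T + c)`, `m = mdeg P`. -/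
theorem exists_subst_eq (c : ℂ) {P : Pol} (hP : P ≠ 0) : ∃ R : Pol,
    subst c P = MvPolynomial.X 0 ^ mdeg P * R ∧ ¬ MvPolynomial.X 0 ∣ R ∧
      ∀ t : ℂ, MvPolynomial.eval ![0, t] R =
        MvPolynomial.eval ![1, t + c] (MvPolynomial.homogeneousComponent (mdeg P) P) := by
  set m := mdeg P with hm
  have hlow : ∀ n < m, MvPolynomial.homogeneousComponent n P = 0 := by
    intro n hn
    by_contra h
    have h2 : mdeg P ≤ n := Nat.sInf_le h
    omega
  have hmem : m ∈ Finset.range (P.totalDegree + 1) := by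
    rw [Finset.mem_range]
    by_contra h
    exact homogeneousComponent_mdeg_ne_zero hP
      (MvPolynomial.homogeneousComponent_eq_zero _ _ (by omega))
  set R : Pol := ∑ n ∈ Finset.range (P.totalDegree + 1), MvPolynomial.X 0 ^ (n - m) *
    MvPolynomial.aeval ![(1 : Pol), MvPolynomial.X 1 + MvPolynomial.C c]
      (MvPolynomial.homogeneousComponent n P) with hR
  have h1 : subst c P = MvPolynomial.X 0 ^ m * R := by
    conv_lhs => rw [← MvPolynomial.sum_homogeneousComponent P]
    rw [map_sum, hR, Finset.mul_sum]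
    refine Finset.sum_congr rfl fun n _ => ?_
    rw [C2_subst c (MvPolynomial.homogeneousComponent_isHomogeneous n P)]
    by_cases hn : n < m
    · rw [hlow n hn]
      simp
    · rw [← mul_assoc, ← pow_add]
      congr 2
      omega
  have h2 : ∀ t : ℂ, MvPolynomial.eval ![0, t] R =
        MvPolynomial.eval ![1, t + c] (MvPolynomial.homogeneousComponent m P) := by
    intro t
    rw [hR, map_sum, Finset.sum_eq_single m]
    · rw [map_mul, C2_eval]
      simp
    · intro n _ hn
      rcases lt_or_gt_of_ne hn with h | h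
      · rw [hlow n h]
        simp
      · rw [map_mul, map_pow, MvPolynomial.eval_X]
        have : n - m ≠ 0 := by omega
        simp [this]
    · intro h; exact absurd hmem h
  refine ⟨R, h1, ?_, h2⟩
  rintro ⟨S, hS⟩
  apply homogeneousComponent_mdeg_ne_zero hP
  apply C2_zero (MvPolynomial.homogeneousComponent_isHomogeneous (mdeg P) P)
  intro t
  have h3 := h2 (t - c)
  rw [sub_add_cancel, hS, map_mul, MvPolynomial.eval_X] at h3
  rw [← hm, ← h3]
  simp

theorem multiplicity_subst (c : ℂ) {P : Pol} (hP : P ≠ 0) :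
    multiplicity (MvPolynomial.X 0) (subst c P) = mdeg P := by
  obtain ⟨R, h1, h2, _⟩ := exists_subst_eq c hP
  rw [h1]
  apply multiplicity_eq_of_dvd_of_not_dvd
  · exact dvd_mul_right _ _
  · rintro ⟨S, hS⟩
    apply h2
    rw [pow_succ, mul_assoc] at hS
    exact ⟨S, mul_left_cancel₀ (pow_ne_zero _ (MvPolynomial.X_ne_zero 0)) hS⟩

end Pool.Agent.LibKB1a
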