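import Pool.Agent.LibKB1a.Defs

/-!
[K.B1a C8] Prime ideals of `ℂ[X, Y]`.
SKETCH: `MvPolynomial.ringKrullDim_of_isNoetherianRing` gives dimension 2. `P ≠ ⊥` contains a prime
element `g` (UFD). If `P ≠ span {g}` and `P` is not maximal, the chain `⊥ < span {g} < P < M` has
length 3 (`Order.krullDim`, `LTSeries`), contradiction. A maximal ideal is the ideal of a point
(`MvPolynomial.isMaximal_iff_eq_vanishingIdeal_singleton`).
-/

set_option autoImplicit false

open Pool.Agent.LibGMM Pool.Agent.LibK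

namespace Pool.Agent.LibKB1a

variable {F : Type} [Field F] [Algebra ℂ F]

theorem C8_dim : ringKrullDim Pol = 2 := by
  have h := MvPolynomial.ringKrullDim_of_isNoetherianRing (R := ℂ) (ι := Fin 2)
  rw [ringKrullDim_eq_zero_of_field, zero_add, Nat.card_eq_fintype_card, Fintype.card_fin] at h
  exact_mod_cast h

theorem C8_maximal (M : Ideal Pol) (hM : M.IsMaximal) :
    ∃ α β : ℂ, ∀ p, p ∈ M ↔ MvPolynomial.eval ![α, β] p = 0 := by
  obtain ⟨x, hx⟩ := MvPolynomial.isMaximal_iff_eq_vanishingIdeal_singleton.1 hM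
  refine ⟨x 0, x 1, fun p => ?_⟩
  have h1 : ![x 0, x 1] = x := by
    funext i
    fin_cases i <;> rfl
  rw [hx, MvPolynomial.mem_vanishingIdeal_singleton_iff, h1]
  rfl

theorem prime_ideal_cases (P : Ideal Pol) (hP : P.IsPrime) :
    P = ⊥ ∨ (∃ g, Prime g ∧ P = Ideal.span {g}) ∨
      ∃ α β : ℂ, ∀ p, p ∈ P ↔ MvPolynomial.eval ![α, β] p = 0 := by
  by_cases h0 : P = ⊥
  · exact Or.inl h0
  obtain ⟨g, hgP, hg⟩ := hP.exists_mem_prime_of_ne_bot h0
  by_cases h1 : P = Ideal.span {g}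
  · exact Or.inr (Or.inl ⟨g, hg, h1⟩)
  refine Or.inr (Or.inr ?_)
  obtain ⟨M, hM, hPM⟩ := P.exists_le_maximal hP.ne_top
  by_cases h2 : P = M
  · exact C8_maximal P (h2 ▸ hM)
  exfalso
  have hgle : Ideal.span {g} ≤ P := (Ideal.span_singleton_le_iff_mem _).2 hgP
  have hgprime : (Ideal.span {g}).IsPrime := (Ideal.span_singleton_prime hg.ne_zero).2 hg
  let p0 : PrimeSpectrum Pol := ⟨⊥, Ideal.isPrime_bot⟩
  let p1 : PrimeSpectrum Pol := ⟨Ideal.span {g}, hgprime⟩
  let p2 : PrimeSpectrum Pol := ⟨P, hP⟩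
  let p3 : PrimeSpectrum Pol := ⟨M, hM.isPrime⟩
  have l01 : p0 < p1 := by
    change (⊥ : Ideal Pol) < Ideal.span {g}
    rw [bot_lt_iff_ne_bot, Ne, Ideal.span_singleton_eq_bot]
    exact hg.ne_zero
  have l12 : p1 < p2 := lt_of_le_of_ne hgle (fun h => h1 (congrArg PrimeSpectrum.asIdeal h).symm)
  have l23 : p2 < p3 := lt_of_le_of_ne hPM (fun h => h2 (congrArg PrimeSpectrum.asIdeal h))
  have h3 : StrictMono ![p0, p1, p2, p3] := by
    rw [Fin.strictMono_iff_lt_succ]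
    intro i
    fin_cases i
    · exact l01
    · exact l12
    · exact l23
  have h4 := Order.LTSeries.length_le_krullDim (LTSeries.mk 3 ![p0, p1, p2, p3] h3)
  have h5 : (3 : WithBot ℕ∞) ≤ ringKrullDim Pol := h4
  rw [C8_dim] at h5
  exact absurd h5 (by decide)

theorem exists_point_of_prime (P : Ideal Pol) (hP : P.IsPrime) :
    ∃ α β : ℂ, ∀ p ∈ P, MvPolynomial.eval ![α, β] p = 0 := by
  obtain ⟨M, hM, hPM⟩ := P.exists_le_maximal hP.ne_top
  obtain ⟨α, β, h⟩ := C8_maximal M hM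
  exact ⟨α, β, fun p hp => (h p).1 (hPM hp)⟩

end Pool.Agent.LibKB1a
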