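import Pool.Agent.LibK.Surf
import Pool.Agent.LibGMM.Api

/-!
Local algebra of surfaces (part B1a of THEOREM K). `F` is a field over `ℂ`. A closed point with
coordinates is a pair `a b : F` with `IsPlane a b` (`F = ℂ(a, b)`); its local ring is
`Oloc a b = ℂ[a, b]_(a, b)`. Blowing up the point replaces it by the points with coordinates
`(a, b / a - c)` (`c ∈ ℂ`) and `(b, a / b)`, and adds the prime divisor `E` with `IsOrd a b E` (the
order function of the local ring).
-/

set_option autoImplicit false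

open Pool.Agent.LibGMM Pool.Agent.LibK

namespace Pool.Agent.LibKB1a

/-- Polynomials in two variables. -/
abbrev Pol : Type := MvPolynomial (Fin 2) ℂ

variable {F : Type} [Field F] [Algebra ℂ F]

/-- Evaluation of a polynomial at `(a, b)`. -/
noncomputable def ev (a b : F) : Pol →ₐ[ℂ] F := MvPolynomial.aeval ![a, b]

@[simp] theorem ev_X0 (a b : F) : ev a b (MvPolynomial.X 0) = a := by simp [ev]
@[simp] theorem ev_X1 (a b : F) : ev a b (MvPolynomial.X 1) = b := by simp [ev]
@[simp] theorem ev_C (a b : F) (c : ℂ) : ev a b (MvPolynomial.C c) = algebraMap ℂ F c := by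
  simp [ev]

/-- The ring `ℂ[a, b]`. -/
noncomputable def Aff (a b : F) : Subalgebra ℂ F := (ev a b).range

theorem mem_Aff {a b f : F} : f ∈ Aff a b ↔ ∃ P, ev a b P = f := Iff.rfl

/-- The local ring `ℂ[a, b]_(a, b)`. -/
noncomputable def Oloc (a b : F) : Subalgebra ℂ F where
  carrier := {f | ∃ P Q : Pol, MvPolynomial.constantCoeff Q ≠ 0 ∧ f * ev a b Q = ev a b P}
  mul_mem' := by
    rintro f g ⟨P, Q, hQ, h⟩ ⟨P', Q', hQ', h'⟩
    refine ⟨P * P', Q * Q', ?_, ?_⟩
    · rw [map_mul]
      exact mul_ne_zero hQ hQ'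
    · rw [map_mul, map_mul, ← h, ← h']
      ring
  add_mem' := by
    rintro f g ⟨P, Q, hQ, h⟩ ⟨P', Q', hQ', h'⟩
    refine ⟨P * Q' + P' * Q, Q * Q', ?_, ?_⟩
    · rw [map_mul]
      exact mul_ne_zero hQ hQ'
    · rw [map_mul, map_add, map_mul, map_mul, ← h, ← h']
      ring
  algebraMap_mem' := by
    intro c
    exact ⟨MvPolynomial.C c, 1, by simp, by simp⟩

theorem mem_Oloc {a b f : F} : f ∈ Oloc a b ↔
    ∃ P Q : Pol, MvPolynomial.constantCoeff Q ≠ 0 ∧ f * ev a b Q = ev a b P := Iff.rfl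

/-- `v` is an essential valuation of the ring `B`: its ring is a localisation of `B`. -/
structure Ess (B : Subalgebra ℂ F) (v : DVal F) : Prop where
  le : B ≤ v.ring
  frac : ∀ f, 0 ≤ v.ord f → ∃ p ∈ B, ∃ q ∈ B, q ≠ 0 ∧ v.ord q = 0 ∧ f = p / q

/-- `v` is the valuation of `F` given by the irreducible polynomial `g` in `a`, `b`. -/
def IsPolyVal (a b : F) (g : Pol) (v : DVal F) : Prop :=
  ∀ P : Pol, P ≠ 0 → v.ord (ev a b P) = (multiplicity g P : ℤ)

/-- The lowest degree of a monomial of `P` (the multiplicity of the origin). -/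
noncomputable def mdeg (P : Pol) : ℕ := sInf {n | MvPolynomial.homogeneousComponent n P ≠ 0}

/-- `v` is the order function of the point with coordinates `(a, b)`. -/
def IsOrd (a b : F) (v : DVal F) : Prop := ∀ P : Pol, P ≠ 0 → v.ord (ev a b P) = (mdeg P : ℤ)

/-- The closed points over the point with coordinates `(a, b)`. -/
def overPts (a b : F) : Set (Subalgebra ℂ F) :=
  {q | (∃ c : ℂ, q = Oloc a (b / a - algebraMap ℂ F c)) ∨ q = Oloc b (a / b)}

/-- The valuation ring `W` dominates the local ring `B`. -/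
def Dom (B : Subalgebra ℂ F) (W : ValuationSubring F) : Prop :=
  (∀ f ∈ B, f ∈ W) ∧ ∀ f ∈ B, f ≠ 0 → f⁻¹ ∉ B → f⁻¹ ∉ W

/-- Closed points of the projective plane with affine coordinates `x`, `y`. -/
def planePts (x y : F) : Set (Subalgebra ℂ F) :=
  {p | (∃ α β : ℂ, p = Oloc (x - algebraMap ℂ F α) (y - algebraMap ℂ F β)) ∨
    (∃ β : ℂ, p = Oloc x⁻¹ (y / x - algebraMap ℂ F β)) ∨ p = Oloc y⁻¹ (x / y)}

/-- `v` is the line at infinity of the projective plane with affine coordinates `x`, `y`. -/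
def IsInf (x y : F) (v : DVal F) : Prop :=
  ∀ P : Pol, P ≠ 0 → v.ord (ev x y P) = - (P.totalDegree : ℤ)

/-- Prime divisors of the projective plane with affine coordinates `x`, `y`. -/
def planeAll (x y : F) : Set (DVal F) := {v | Ess (Aff x y) v ∨ IsInf x y v}

end Pool.Agent.LibKB1a
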