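import Pool.Agent.LibKB1a.E1
import Pool.Agent.LibKB1a.B4

/-!
[K.B1a E2] The set of prime divisors of the plane does not depend on the affine chart.
SKETCH: let `v ∈ planeAll x y`, not the line at infinity, so `Ess (Aff x y) v`, `v.ord x ≥ 0`. If
`v.ord x > 0`: `v` is the valuation of `X 0` for `(x, y)` (`isPolyVal_of_ord_pos`), which is the line
at infinity of the plane `(x⁻¹, y / x)` (`isInf_iff` for `(x⁻¹, y / x)`: `(x⁻¹)⁻¹ = x`,
`(y / x) / x⁻¹ = y`). If `v.ord x = 0`: `v ≥ 0` on `Aff x⁻¹ (y / x)` and fractions of `Aff x y` become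
fractions of `Aff x⁻¹ (y / x)` after multiplication by a power of `x⁻¹`
(`x⁻¹^N * ev x y P ∈ Aff x⁻¹ (y / x)`, `N ≥ deg P`): `Ess (Aff x⁻¹ (y / x)) v`. If `v` is the line at
infinity of `(x, y)`, it is the valuation of `X 0` for `(x⁻¹, y / x)` (`isInf_iff`). The converse is
the same statement for `(x⁻¹, y / x)`.
-/

set_option autoImplicit false

open Pool.Agent.LibGMM Pool.Agent.LibK

namespace Pool.Agent.LibKB1a

variable {F : Type} [Field F] [Algebra ℂ F]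

theorem e2_frac {B : Subalgebra ℂ F} {v : DVal F} {t : F} (ht : t ∈ B) (ht0 : t ≠ 0)
    (htv : v.ord t = 0) {f p q : F} (hf : f = p / q) (hq : q ≠ 0) (hqv : v.ord q = 0) {N M : ℕ}
    (hp' : t ^ N * p ∈ B) (hq' : t ^ M * q ∈ B) :
    ∃ p' ∈ B, ∃ q' ∈ B, q' ≠ 0 ∧ v.ord q' = 0 ∧ f = p' / q' := by
  have h0 : t ^ N ≠ 0 := pow_ne_zero N ht0
  have h1 : t ^ M ≠ 0 := pow_ne_zero M ht0
  refine ⟨t ^ M * (t ^ N * p), B.mul_mem (B.pow_mem ht M) hp', t ^ N * (t ^ M * q),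
    B.mul_mem (B.pow_mem ht N) hq', mul_ne_zero h0 (mul_ne_zero h1 hq), ?_, ?_⟩
  · rw [v.ord_mul _ _ h0 (mul_ne_zero h1 hq), v.ord_mul _ _ h1 hq, v.ord_pow, v.ord_pow, htv, hqv]
    ring
  · rw [hf]
    field_simp

theorem e2_le {a b : F} {B : Subalgebra ℂ F} (ha : a ∈ B) (hb : b ∈ B) : Aff a b ≤ B := by
  rintro f hf
  obtain ⟨P, rfl⟩ := mem_Aff.1 hf
  induction P using MvPolynomial.induction_on with
  | C r =>
    rw [ev_C]
    exact B.algebraMap_mem r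
  | add p q hp hq =>
    rw [map_add]
    exact B.add_mem (hp (mem_Aff.2 ⟨p, rfl⟩)) (hq (mem_Aff.2 ⟨q, rfl⟩))
  | mul_X p i hp =>
    rw [map_mul]
    refine B.mul_mem (hp (mem_Aff.2 ⟨p, rfl⟩)) ?_
    fin_cases i
    · change ev a b (MvPolynomial.X 0) ∈ B
      rw [ev_X0]
      exact ha
    · change ev a b (MvPolynomial.X 1) ∈ B
      rw [ev_X1]
      exact hb

theorem e2_pow {x y : F} (hx : x ≠ 0) (P : Pol) :
    ∃ N : ℕ, x⁻¹ ^ N * ev x y P ∈ Aff x⁻¹ (y / x) := by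
  have hxA : x⁻¹ ∈ Aff x⁻¹ (y / x) := mem_Aff.2 ⟨MvPolynomial.X 0, ev_X0 _ _⟩
  have hyA : y / x ∈ Aff x⁻¹ (y / x) := mem_Aff.2 ⟨MvPolynomial.X 1, ev_X1 _ _⟩
  induction P using MvPolynomial.induction_on with
  | C r =>
    refine ⟨0, ?_⟩
    rw [ev_C, pow_zero, one_mul]
    exact Subalgebra.algebraMap_mem _ r
  | add p q hp hq =>
    obtain ⟨N, hN⟩ := hp
    obtain ⟨M, hM⟩ := hq
    refine ⟨N + M, ?_⟩
    have h1 : x⁻¹ ^ (N + M) * ev x y (p + q) =
        x⁻¹ ^ M * (x⁻¹ ^ N * ev x y p) + x⁻¹ ^ N * (x⁻¹ ^ M * ev x y q) := by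
      rw [map_add, pow_add]
      ring
    rw [h1]
    exact Subalgebra.add_mem _ (Subalgebra.mul_mem _ (Subalgebra.pow_mem _ hxA M) hN)
      (Subalgebra.mul_mem _ (Subalgebra.pow_mem _ hxA N) hM)
  | mul_X p i hp =>
    obtain ⟨N, hN⟩ := hp
    refine ⟨N + 1, ?_⟩
    fin_cases i
    · change x⁻¹ ^ (N + 1) * ev x y (p * MvPolynomial.X 0) ∈ _
      have h1 : x⁻¹ ^ (N + 1) * ev x y (p * MvPolynomial.X 0) = x⁻¹ ^ N * ev x y p := by
        rw [map_mul, ev_X0, pow_succ]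
        field_simp
      rw [h1]
      exact hN
    · change x⁻¹ ^ (N + 1) * ev x y (p * MvPolynomial.X 1) ∈ _
      have h1 : x⁻¹ ^ (N + 1) * ev x y (p * MvPolynomial.X 1) =
          (x⁻¹ ^ N * ev x y p) * (y / x) := by
        rw [map_mul, ev_X1, pow_succ]
        field_simp
      rw [h1]
      exact Subalgebra.mul_mem _ hN hyA

theorem e2_sub {x y : F} (h : IsPlane x y) : planeAll x y ⊆ planeAll x⁻¹ (y / x) := by
  have h' := isPlane_inv h
  have hx := (ne_zero_of_isPlane h).1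
  have hy := (ne_zero_of_isPlane h).2
  rintro v (hv | hv)
  · have hxv : 0 ≤ v.ord x := v.mem_ring.1 (hv.le (mem_Aff.2 ⟨MvPolynomial.X 0, ev_X0 _ _⟩))
    have hyv : 0 ≤ v.ord y := v.mem_ring.1 (hv.le (mem_Aff.2 ⟨MvPolynomial.X 1, ev_X1 _ _⟩))
    rcases hxv.lt_or_eq with h1 | h1
    · right
      have h2 := isPolyVal_of_ord_pos h MvPolynomial.X_prime hv (by rw [ev_X0]; exact h1)
      refine (isInf_iff h' v).2 ?_
      have h3 : y / x / x⁻¹ = y := by field_simp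
      rw [inv_inv, h3]
      exact h2
    · left
      refine ⟨e2_le ?_ ?_, fun f hf => ?_⟩
      · rw [v.mem_ring, v.ord_inv]
        omega
      · rw [v.mem_ring, v.ord_div hy hx]
        omega
      · obtain ⟨p, hp, q, hq, hq0, hqv, hfpq⟩ := hv.frac f hf
        obtain ⟨P, rfl⟩ := mem_Aff.1 hp
        obtain ⟨Q, rfl⟩ := mem_Aff.1 hq
        obtain ⟨N, hN⟩ := e2_pow (y := y) hx P
        obtain ⟨M, hM⟩ := e2_pow (y := y) hx Q
        exact e2_frac (mem_Aff.2 ⟨MvPolynomial.X 0, ev_X0 _ _⟩) (inv_ne_zero hx)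
          (by rw [v.ord_inv]; omega) hfpq hq0 hqv hN hM
  · left
    exact IsPolyVal.ess h' MvPolynomial.X_prime ((isInf_iff h v).1 hv)

theorem planeAll_inv {x y : F} (h : IsPlane x y) : planeAll x⁻¹ (y / x) = planeAll x y := by
  have hx := (ne_zero_of_isPlane h).1
  refine Set.Subset.antisymm ?_ (e2_sub h)
  have h1 := e2_sub (isPlane_inv h)
  have h3 : y / x / x⁻¹ = y := by field_simp
  rw [inv_inv, h3] at h1
  exact h1

theorem planeAll_swap {x y : F} : planeAll y x = planeAll x y := by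
  unfold planeAll
  rw [Aff_swap]
  ext v
  simp only [Set.mem_ofPred_eq]
  rw [isInf_swap]

theorem planeAll_inv' {x y : F} (h : IsPlane x y) : planeAll y⁻¹ (x / y) = planeAll x y := by
  rw [planeAll_inv (isPlane_swap h), planeAll_swap]

end Pool.Agent.LibKB1a
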