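import Pool.Agent.LibKB1a.E2

/-!
[K.B1a E8] Sections on the projective plane: `H^0(d · line at infinity)` is the space of
polynomials of degree `≤ d` in `x`, `y`.
SKETCH: `0 ≤ v.ord f` for all affine `v` means `f ∈ ℂ[x, y]` (write `f = P / Q` in lowest terms; a
prime factor of `Q` gives a negative order), and then `v_∞.ord (ev P) = - totalDegree P ≥ - d`. The
dimension is the number of `(i, j)` with `i + j ≤ d`.
-/

set_option autoImplicit false

open Pool.Agent.LibGMM Pool.Agent.LibK

namespace Pool.Agent.LibKB1a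

variable {F : Type} [Field F] [Algebra ℂ F]

theorem plane_sections {x y : F} (h : IsPlane x y) (d : ℤ) (f : F) :
    (f ≠ 0 → (∀ v, Ess (Aff x y) v → 0 ≤ v.ord f) ∧ ∀ v, IsInf x y v → 0 ≤ v.ord f + d) ↔
      ∃ P : Pol, f = ev x y P ∧ (P ≠ 0 → (P.totalDegree : ℤ) ≤ d) := by
  obtain ⟨w, hw⟩ := exists_isInf h
  constructor
  · intro hf
    by_cases h0 : f = 0
    · exact ⟨0, by rw [h0, map_zero], fun h => absurd rfl h⟩
    obtain ⟨h1, h2⟩ := hf h0
    obtain ⟨P, Q, hQ, hPQ⟩ := exists_div h f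
    obtain ⟨Q', P', c, hrel, hcQ, hcP⟩ := UniqueFactorizationMonoid.exists_reduced_factors Q hQ P
    have hc : c ≠ 0 := by
      rintro rfl
      apply hQ
      rw [← hcQ, zero_mul]
    have hQ' : Q' ≠ 0 := by
      rintro rfl
      apply hQ
      rw [← hcQ, mul_zero]
    have hf' : f = ev x y P' / ev x y Q' := by
      rw [hPQ, ← hcQ, ← hcP, map_mul, map_mul, mul_div_mul_left _ _ (ev_ne_zero h hc)]
    have hP' : P' ≠ 0 := by
      rintro rfl
      apply h0
      rw [hf', map_zero, zero_div]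
    have hunit : IsUnit Q' := by
      by_contra hu
      obtain ⟨g, hg, hgQ⟩ := WfDvdMonoid.exists_irreducible_factor hu hQ'
      have hgp : Prime g := hg.prime
      obtain ⟨v, hv⟩ := exists_isPolyVal h hgp
      have h3 := h1 v (hv.ess h hgp)
      rw [hf', v.ord_div (ev_ne_zero h hP') (ev_ne_zero h hQ'), hv P' hP', hv Q' hQ'] at h3
      have h4 : multiplicity g P' = 0 := by
        rw [multiplicity_eq_zero]
        intro h5
        exact hg.not_isUnit (hrel hgQ h5)
      have h5 : multiplicity g Q' ≠ 0 := by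
        rw [Ne, multiplicity_eq_zero]
        exact fun h6 => h6 hgQ
      omega
    obtain ⟨R, hR⟩ := hunit.exists_right_inv
    have hf'' : f = ev x y (P' * R) := by
      have h3 : ev x y Q' * ev x y R = 1 := by rw [← map_mul, hR, map_one]
      rw [hf', map_mul, div_eq_iff (ev_ne_zero h hQ'), mul_assoc, mul_comm (ev x y R), h3, mul_one]
    refine ⟨P' * R, hf'', fun hne => ?_⟩
    have h3 := h2 w hw
    rw [hf'', hw _ hne] at h3
    omega
  · rintro ⟨P, hP, hd⟩ hf
    have hP0 : P ≠ 0 := by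
      rintro rfl
      apply hf
      rw [hP, map_zero]
    refine ⟨fun v hv => ?_, fun v hv => ?_⟩
    · exact hv.le (hP ▸ ⟨P, rfl⟩)
    · rw [hP, hv P hP0]
      have := hd hP0
      omega

/-- Polynomials of degree `≤ d` (`d ∈ ℤ`). -/
noncomputable def polLE (d : ℤ) : Submodule ℂ Pol where
  carrier := {P | P ≠ 0 → (P.totalDegree : ℤ) ≤ d}
  zero_mem' := fun h => absurd rfl h
  add_mem' := by
    intro P Q hP hQ hPQ
    by_cases h0 : P = 0
    · subst h0
      rw [zero_add] at hPQ ⊢
      exact hQ hPQ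
    by_cases h1 : Q = 0
    · subst h1
      rw [add_zero] at hPQ ⊢
      exact hP hPQ
    have h2 := MvPolynomial.totalDegree_add P Q
    have h3 := hP h0
    have h4 := hQ h1
    rcases le_max_iff.1 h2 with h5 | h5 <;> omega
  smul_mem' := by
    intro c P hP hcP
    have h0 : P ≠ 0 := by
      rintro rfl
      exact hcP (smul_zero c)
    have h1 := MvPolynomial.totalDegree_smul_le c P
    have h2 := hP h0
    omega

theorem E8_neg {d : ℤ} (hd : d < 0) : polLE d = ⊥ := by
  rw [eq_bot_iff]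
  intro P hP
  rw [Submodule.mem_bot]
  by_contra h0
  have h1 : (P.totalDegree : ℤ) ≤ d := hP h0
  omega

theorem E8_nat (n : ℕ) : polLE (n : ℤ) = MvPolynomial.restrictTotalDegree (Fin 2) ℂ n := by
  ext P
  rw [MvPolynomial.mem_restrictTotalDegree]
  constructor
  · intro hP
    by_cases h0 : P = 0
    · rw [h0]; simp
    · have h1 : (P.totalDegree : ℤ) ≤ n := hP h0
      exact_mod_cast h1
  · intro hP _
    exact_mod_cast hP

/-- pairs of exponents of degree `≤ n` -/
noncomputable def E8_equiv (n : ℕ) :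
    {s : Fin 2 →₀ ℕ | (s.sum fun _ e => e) ≤ n} ≃ (Σ k : Fin (n + 1), Fin (k + 1)) where
  toFun s := ⟨⟨s.1 0 + s.1 1, by
    have h := s.2
    rw [Set.mem_ofPred_eq, Finsupp.sum_fintype _ _ (fun _ => rfl), Fin.sum_univ_two] at h
    omega⟩, ⟨s.1 0, by simp only; omega⟩⟩
  invFun p := ⟨Finsupp.equivFunOnFinite.symm ![(p.2 : ℕ), (p.1 : ℕ) - (p.2 : ℕ)], by
    rw [Set.mem_ofPred_eq, Finsupp.sum_fintype _ _ (fun _ => rfl), Fin.sum_univ_two]
    have h1 := p.1.2
    have h2 := p.2.2
    simp only [Finsupp.equivFunOnFinite_symm_apply_apply, Matrix.cons_val_zero,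
      Matrix.cons_val_one]
    omega⟩
  left_inv s := by
    apply Subtype.ext
    ext i
    fin_cases i
    · simp
    · simp
  right_inv p := by
    obtain ⟨⟨k, hk⟩, ⟨j, hj⟩⟩ := p
    have h1 : j + (k - j) = k := by
      have : j < k + 1 := hj
      omega
    refine Sigma.ext (Fin.ext ?_) ?_
    · simpa using h1
    · refine (Fin.heq_ext_iff ?_).2 ?_
      · simpa using h1
      · simp

theorem E8_card (n : ℕ) : 2 * Nat.card {s : Fin 2 →₀ ℕ | (s.sum fun _ e => e) ≤ n} =
    (n + 1) * (n + 2) := by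
  rw [Nat.card_congr (E8_equiv n), Nat.card_sigma]
  simp only [Nat.card_eq_fintype_card, Fintype.card_fin]
  rw [Fin.sum_univ_eq_sum_range (fun k => k + 1) (n + 1)]
  induction n with
  | zero => simp
  | succ n ih =>
    rw [Finset.sum_range_succ, mul_add, ih]
    ring

theorem E8_finrank (n : ℕ) :
    2 * Module.finrank ℂ (MvPolynomial.restrictTotalDegree (Fin 2) ℂ n) = (n + 1) * (n + 2) := by
  have h1 := Module.finrank_eq_nat_card_basis
    (MvPolynomial.basisRestrictSupport ℂ {s : Fin 2 →₀ ℕ | (s.sum fun _ e => e) ≤ n})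
  have h2 := E8_card n
  rw [← h1] at h2
  exact h2

theorem finrank_polLE (d : ℤ) : Module.Finite ℂ (polLE d) ∧
    (0 ≤ d + 1 → 2 * (Module.finrank ℂ (polLE d) : ℤ) = (d + 1) * (d + 2)) ∧
    (d < 0 → Module.finrank ℂ (polLE d) = 0) := by
  rcases lt_or_ge d 0 with hd | hd
  · rw [E8_neg hd]
    refine ⟨inferInstance, fun h => ?_, fun _ => finrank_bot ℂ _⟩
    have h1 : d = -1 := by omega
    rw [finrank_bot, h1]
    simp
  · obtain ⟨n, rfl⟩ := Int.eq_ofNat_of_zero_le hd
    have h1 := E8_nat n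
    rw [h1]
    refine ⟨inferInstance, fun _ => ?_, fun h => absurd h (by omega)⟩
    exact_mod_cast E8_finrank n

end Pool.Agent.LibKB1a
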