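import Pool.Agent.LibKB1a.F1a

/-!
[K.B1a F1] The Jacobian and changes of coordinates.
SKETCH: by `ders_ext`, for every derivation `D`: `D = D(a) ∂/∂a + D(b) ∂/∂b` (`ders_decomp`).
`jac_change`: apply `ders_decomp` to `D1'`, `D2'`: `jac'(u, w) = jac'(a, b) jac(u, w)`; symmetric, so
`jac'(a, b) jac(a', b') = jac'(a', b') = 1` and it is nonzero. `jac_div`: `b = a (b' + c)`, so
`D1' a = 1`, `D2' a = 0`, `D1' b = b' + c`, `D2' b = a`: `jac'(a, b) = a`. `jac_div'`: coordinates
`(b, a/b)`: `D1' b = 1`, `D2' b = 0`, `a = b (a/b)`: `D1' a = a/b`, `D2' a = b`: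
`jac'(a, b) = (a/b) * 0 - b * 1 = -b`.
-/

set_option autoImplicit false

open Pool.Agent.LibGMM Pool.Agent.LibK

namespace Pool.Agent.LibKB1a

variable {F : Type} [Field F] [Algebra ℂ F]

/-- The Jacobian of `(u, w)`. -/
def jac (D1 D2 : Derivation ℂ F F) (u w : F) : F := D1 u * D2 w - D2 u * D1 w

theorem ders_decomp {a b : F} (h : IsPlane a b) {D1 D2 : Derivation ℂ F F}
    (hD : IsDers a b D1 D2) (D : Derivation ℂ F F) (u : F) : D u = D a * D1 u + D b * D2 u := by
  have h1 : D = D a • D1 + D b • D2 := by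
    apply ders_ext h
    · simp [hD.h11, hD.h21]
    · simp [hD.h12, hD.h22]
  have h2 : D u = (D a • D1 + D b • D2) u := by rw [← h1]
  rw [h2]
  simp

/-- Change of coordinates: the Jacobian is multiplied by a nonzero function. -/
theorem jac_change {a b a' b' : F} (h : IsPlane a b) (h' : IsPlane a' b')
    {D1 D2 D1' D2' : Derivation ℂ F F} (hD : IsDers a b D1 D2) (hD' : IsDers a' b' D1' D2') :
    jac D1' D2' a b ≠ 0 ∧ ∀ u w : F, jac D1' D2' u w = jac D1' D2' a b * jac D1 D2 u w := by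
  have key : ∀ u w : F, jac D1' D2' u w = jac D1' D2' a b * jac D1 D2 u w := by
    intro u w
    unfold jac
    rw [ders_decomp h hD D1' u, ders_decomp h hD D1' w, ders_decomp h hD D2' u,
      ders_decomp h hD D2' w]
    ring
  refine ⟨?_, key⟩
  intro h0
  have h1 := key a' b'
  rw [h0, zero_mul] at h1
  unfold jac at h1
  rw [hD'.h11, hD'.h12, hD'.h21, hD'.h22] at h1
  simp at h1

theorem jac_div {a b : F} (h : IsPlane a b) {c : ℂ} {D1 D2 D1' D2' : Derivation ℂ F F}
    (hD : IsDers a b D1 D2) (hD' : IsDers a (b / a - algebraMap ℂ F c) D1' D2') (u w : F) :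
    jac D1' D2' u w = a * jac D1 D2 u w := by
  have ha : a ≠ 0 := (ne_zero_of_isPlane h).1
  have h1 := (jac_change h (isPlane_div h c) hD hD').2 u w
  have hb : b = a * ((b / a - algebraMap ℂ F c) + algebraMap ℂ F c) := by
    field_simp
    ring
  have h2 : D2' b = a := by
    rw [hb, Derivation.leibniz, map_add, hD'.h22, hD'.h21, Derivation.map_algebraMap]
    simp
  have h3 : jac D1' D2' a b = a := by
    unfold jac
    rw [hD'.h11, hD'.h21, h2]
    ring
  rw [h1, h3]

theorem jac_div' {a b : F} (h : IsPlane a b) {D1 D2 D1' D2' : Derivation ℂ F F}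
    (hD : IsDers a b D1 D2) (hD' : IsDers b (a / b) D1' D2') (u w : F) :
    jac D1' D2' u w = - (b * jac D1 D2 u w) := by
  have hb : b ≠ 0 := (ne_zero_of_isPlane h).2
  have h1 := (jac_change h (isPlane_div' h) hD hD').2 u w
  have ha : a = b * (a / b) := by
    field_simp
  have h2 : D2' a = b := by
    conv_lhs => rw [ha]
    rw [Derivation.leibniz, hD'.h22, hD'.h21]
    simp
  have h3 : jac D1' D2' a b = -b := by
    unfold jac
    rw [hD'.h11, hD'.h21, h2]
    ring
  rw [h1, h3]
  ring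

end Pool.Agent.LibKB1a
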