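import Pool.Agent.LibKB1a.F1

/-!
[K.B1a G1a] The dimension of `F` is 2.
SKETCH: `Ω[F⁄ℂ]` is spanned by `D a, D b` (`KaehlerDifferential.span_range_derivation`;
`d(P(a, b)) = P_X da + P_Y db`, `d(p/q) = (q dp - p dq)/q²`); independence: the derivations of
`exists_isDers` give linear forms (`Derivation.liftKaehlerDifferential`) dual to them. So there is a
basis indexed by `Fin 2`.
-/

set_option autoImplicit false

open Pool.Agent.LibGMM Pool.Agent.LibK

namespace Pool.Agent.LibKB1a

variable {F : Type} [Field F] [Algebra ℂ F]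

theorem finite_kaehler {a b : F} (h : IsPlane a b) : Module.Finite F (Ω[F⁄ℂ]) := by
  obtain ⟨B, _⟩ := exists_basis_kaehler h
  exact Module.Finite.of_basis B

theorem dimK_eq_two {a b : F} (h : IsPlane a b) : dimK F = 2 := by
  obtain ⟨B, _⟩ := exists_basis_kaehler h
  rw [dimK, Module.finrank_eq_card_basis B, Fintype.card_fin]

end Pool.Agent.LibKB1a
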