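import Pool.Agent.LibKB1a.G1

/-!
[K.B1a G2] The order of a top form from Jacobians.
SKETCH: `canOrd v ω` is the supremum of the orders of `g'` with `ω = g' du ∧ dw`, `u, w ∈ O_v`;
`du ∧ dw = jac(u, w) da ∧ db` (`det_crd`), so `g = g' jac(u, w)` (some `D` has
`det (D i (crd a b j)) ≠ 0`), `v.ord g' = v.ord g - v.ord (jac u w)`. If `jac(u, w)` is `0` or of
order `≥ 0` for all `u, w ∈ O_v`, and `a, b ∈ O_v` (`jac(a, b) = 1`), the supremum is `v.ord g`
(`IsGreatest.csSup_eq`).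
-/

set_option autoImplicit false

open Pool.Agent.LibGMM Pool.Agent.LibK

namespace Pool.Agent.LibKB1a

variable {F : Type} [Field F] [Algebra ℂ F]

theorem canOrd_of_jac {a b : F} (h : IsPlane a b) {v : DVal F} (ha : 0 ≤ v.ord a)
    (hb : 0 ≤ v.ord b) {D1 D2 : Derivation ℂ F F} (hD : IsDers a b D1 D2)
    (hj : ∀ u w, 0 ≤ v.ord u → 0 ≤ v.ord w → jac D1 D2 u w = 0 ∨ 0 ≤ v.ord (jac D1 D2 u w))
    {ω : TopForm F} {g : F} (hg : g ≠ 0)
    (hω : ∀ D : Fin (dimK F) → Derivation ℂ F F,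
      ω D = g * Matrix.det fun i j => D i (crd a b j)) : canOrd v ω = v.ord g := by
  have h2 := dimK_eq_two h
  have l0 : 0 < dimK F := by omega
  have l1 : 1 < dimK F := by omega
  have hdet : (Matrix.det fun i j => derFam D1 D2 i (crd a b j)) = 1 := by
    rw [det_fin_two' h2 (fun i j => derFam D1 D2 i (crd a b j)) ⟨0, l0⟩ ⟨1, l1⟩ rfl rfl]
    simp [derFam, crd, hD.h11, hD.h12, hD.h21, hD.h22]
  unfold canOrd
  apply IsGreatest.csSup_eq
  constructor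
  · refine ⟨g, crd a b, hg, rfl, ?_, hω⟩
    intro i
    unfold crd
    split_ifs
    exacts [ha, hb]
  · rintro k ⟨g', x, hg', rfl, hx, hD'⟩
    have e1 := hω (derFam D1 D2)
    have e2 := hD' (derFam D1 D2)
    rw [det_crd h hD x ⟨0, l0⟩ ⟨1, l1⟩ rfl rfl, hdet, mul_one] at e2
    rw [hdet, mul_one] at e1
    have e3 : g = g' * jac D1 D2 (x ⟨0, l0⟩) (x ⟨1, l1⟩) := e1.symm.trans e2
    have hj0 : jac D1 D2 (x ⟨0, l0⟩) (x ⟨1, l1⟩) ≠ 0 := by
      intro h0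
      rw [h0, mul_zero] at e3
      exact hg e3
    rcases hj _ _ (hx ⟨0, l0⟩) (hx ⟨1, l1⟩) with h5 | h5
    · exact absurd h5 hj0
    · rw [e3, v.ord_mul _ _ hg' hj0]
      omega

end Pool.Agent.LibKB1a
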